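import Pool.Agent.LibCC.Circ

/-!
Levelled programs on cells that hold integers of absolute value less than `2 ^ L`: every cell is
an arbitrary function of two cells of the level before. Such a program is compiled into a
levelled Boolean circuit (one-hot encoding of the integers, table lookup).
-/

namespace Pool.Agent.LibCC89

open Pool.Agent.LibCC

/-- Words: integers of absolute value less than `2 ^ L`. -/
abbrev Wd (L : ℕ) : Type := ↥(Finset.Ioo (-(2 : ℤ) ^ L) ((2 : ℤ) ^ L))

theorem card_wd (L : ℕ) : Fintype.card (Wd L) ≤ 2 ^ (L + 1) := by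
  rw [Fintype.card_coe, Int.card_Ioo]
  have h1 : (0 : ℤ) < 2 ^ L := by positivity
  have h2 : (((2 : ℤ) ^ L - -2 ^ L - 1).toNat : ℤ) ≤ ((2 ^ (L + 1) : ℕ) : ℤ) := by
    push_cast
    rw [Int.toNat_of_nonneg (by linarith), pow_succ]
    linarith
  exact_mod_cast h2

/-- The number `0` or `1`. -/
def b2i (b : Bool) : ℤ := if b then 1 else 0

@[simp] theorem b2i_true : b2i true = 1 := rfl
@[simp] theorem b2i_false : b2i false = 0 := rfl

theorem b2i_nonneg (b : Bool) : 0 ≤ b2i b := by cases b <;> simp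
theorem b2i_le_one (b : Bool) : b2i b ≤ 1 := by cases b <;> simp

/-- Values of input bits and of the cells of a level. -/
def rd {α β : Type} (x : α → Bool) (y : β → ℤ) : α ⊕ β → ℤ := Sum.elim (fun a => b2i (x a)) y

@[simp] theorem rd_inl {α β : Type} (x : α → Bool) (y : β → ℤ) (a : α) :
    rd x y (Sum.inl a) = b2i (x a) := rfl
@[simp] theorem rd_inr {α β : Type} (x : α → Bool) (y : β → ℤ) (b : β) :
    rd x y (Sum.inr b) = y b := rfl

/-- All integers are words. -/
def Bdd {Y : Type} (L : ℕ) (y : Y → ℤ) : Prop := ∀ t, |y t| < 2 ^ L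

theorem bdd_rd {α β : Type} {L : ℕ} (hL : 1 ≤ L) (x : α → Bool) {y : β → ℤ} (hy : Bdd L y) :
    Bdd L (rd x y) := by
  have h2 : (2 : ℤ) ≤ 2 ^ L := by
    calc (2 : ℤ) = 2 ^ 1 := by norm_num
      _ ≤ 2 ^ L := pow_le_pow_right₀ (by norm_num) hL
  rintro (a | b)
  · rw [rd_inl]
    cases x a
    · simp only [b2i_false, abs_zero]; linarith
    · simp only [b2i_true, abs_one]; linarith
  · exact hy b

/-- A cell: a constant or a function of two cells. -/
inductive ICell (ν : Type) : Type
  | const (z : ℤ) : ICell ν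
  | op (φ : ℤ → ℤ → ℤ) (a b : ν) : ICell ν

/-- The integer held by a cell. -/
def ICell.eval {ν : Type} (y : ν → ℤ) : ICell ν → ℤ
  | .const z => z
  | .op φ a b => φ (y a) (y b)

/-- The integers `f x b`, all of absolute value less than `2 ^ L`, are computed by a circuit with
`Q` cells on every level and `d` levels of cells. -/
structure ILev (α : Type) (Q L d : ℕ) (β : Type) (f : (α → Bool) → β → ℤ) : Prop where
  bd : ∀ x, Bdd L (f x)
  lev : Lev α (Q * 2 ^ (3 * L + 6)) (d * (2 * L + 6)) (β × Wd L)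
    (fun x p => decide (f x p.1 = (p.2 : ℤ)))

variable {α β γ Y : Type} {Q L : ℕ}

theorem Lev.congr {W d : ℕ} {f g : (α → Bool) → β → Bool} (h : Lev α W d β f)
    (hfg : ∀ x b, g x b = f x b) : Lev α W d β g := by
  have : g = f := by funext x b; exact hfg x b
  rwa [this]

theorem ILev.congr {d : ℕ} {f g : (α → Bool) → β → ℤ} (h : ILev α Q L d β f)
    (hfg : ∀ x b, g x b = f x b) : ILev α Q L d β g := by
  have : g = f := by funext x b; exact hfg x b
  rwa [this]


theorem card_wd2 (L : ℕ) : Fintype.card (Wd L × Wd L) ≤ 2 ^ (2 * L + 2) := by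
  rw [Fintype.card_prod]
  calc Fintype.card (Wd L) * Fintype.card (Wd L) ≤ 2 ^ (L + 1) * 2 ^ (L + 1) :=
        Nat.mul_le_mul (card_wd L) (card_wd L)
    _ = 2 ^ (2 * L + 2) := by rw [← pow_add]; congr 1; ring

theorem mem_wd {z : ℤ} (h : |z| < 2 ^ L) : z ∈ Finset.Ioo (-(2 : ℤ) ^ L) ((2 : ℤ) ^ L) := by
  rw [Finset.mem_Ioo]
  exact abs_lt.1 h

/-- Compilation of one level of cells. -/
theorem step_core {B' : Type} [Fintype γ] {d : ℕ}
    {f' : (α → Bool) → B' → Bool} (hγ : Fintype.card γ ≤ Q)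
    (h : Lev α (Q * 2 ^ (3 * L + 6)) d B' f')
    (val : (α → Bool) → Y → ℤ) (hbd : ∀ x, Bdd L (val x))
    (Φ : Y → Wd L → (α ⊕ B' → Bool) → Bool) (hΦ : ∀ t u, FD 1 (Φ t u))
    (hval : ∀ x t u, Φ t u (Sum.elim x (f' x)) = decide (val x t = (u : ℤ)))
    (G : γ → ICell Y) :
    Lev α (Q * 2 ^ (3 * L + 6)) (d + (2 * L + 6)) (γ × Wd L)
      (fun x p => decide ((G p.1).eval (val x) = (p.2 : ℤ))) := by
  classical
  let F : γ × Wd L → (α ⊕ B' → Bool) → Bool := fun p y =>
    match G p.1 with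
    | .const z => decide (z = (p.2 : ℤ))
    | .op φ a b => decide (∃ q : Wd L × Wd L,
        (decide (φ (q.1 : ℤ) (q.2 : ℤ) = (p.2 : ℤ)) && (Φ a q.1 y && Φ b q.2 y)) = true)
  have hF : ∀ p, FD (2 * L + 5) (F p) := by
    intro p
    rcases hp : G p.1 with z | ⟨φ, a, b⟩
    · have e : F p = fun _ => decide (z = (p.2 : ℤ)) := by
        funext y
        simp only [F, hp]
      rw [e]
      exact FD.const _ _
    · have e : F p = fun y => decide (∃ q : Wd L × Wd L,
          (decide (φ (q.1 : ℤ) (q.2 : ℤ) = (p.2 : ℤ)) && (Φ a q.1 y && Φ b q.2 y)) = true) := by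
        funext y
        simp only [F, hp]
      rw [e]
      have h1 := FD.exists (k := 3) (2 * L + 2) (card_wd2 L)
        (fun (q : Wd L × Wd L) (y : α ⊕ B' → Bool) =>
          (decide (φ (q.1 : ℤ) (q.2 : ℤ) = (p.2 : ℤ)) && (Φ a q.1 y && Φ b q.2 y)))
        (fun q => (FD.const 2 _).and ((hΦ a q.1).and (hΦ b q.2)))
      exact h1.mono (by omega)
  have hW : Fintype.card (γ × Wd L) * 2 ^ (2 * L + 5) ≤ Q * 2 ^ (3 * L + 6) := by
    rw [Fintype.card_prod]
    calc Fintype.card γ * Fintype.card (Wd L) * 2 ^ (2 * L + 5)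
        ≤ Q * 2 ^ (L + 1) * 2 ^ (2 * L + 5) :=
          Nat.mul_le_mul_right _ (Nat.mul_le_mul hγ (card_wd L))
      _ = Q * 2 ^ (3 * L + 6) := by
          rw [mul_assoc, ← pow_add]
          congr 2
          ring
  have h1 := Lev.formula (k := 2 * L + 5) F hF hW h
  have e : d + (2 * L + 5) + 1 = d + (2 * L + 6) := by ring
  rw [e] at h1
  refine Lev.congr h1 (fun x p => ?_)
  rcases hp : G p.1 with z | ⟨φ, a, b⟩
  · simp only [F, hp, ICell.eval]
    exact decide_eq_decide.2 Iff.rfl
  · simp only [F, hp, ICell.eval]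
    rw [decide_eq_decide]
    constructor
    · intro h2
      refine ⟨(⟨val x a, mem_wd (hbd x a)⟩, ⟨val x b, mem_wd (hbd x b)⟩), ?_⟩
      rw [hval, hval]
      simp [h2]
    · rintro ⟨q, hq⟩
      rw [hval, hval] at hq
      simp only [Bool.and_eq_true, decide_eq_true_eq] at hq
      obtain ⟨h2, h3, h4⟩ := hq
      rw [h3, h4]
      exact h2

/-- The formula reading the bit `[x a = u]`. -/
def bitF {B' : Type} (a : α) (u : ℤ) (y : α ⊕ B' → Bool) : Bool :=
  if u = 1 then y (Sum.inl a) else if u = 0 then !y (Sum.inl a) else false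

theorem fd_bitF {B' : Type} (a : α) (u : ℤ) : FD 1 (bitF (B' := B') a u) := by
  by_cases h1 : u = 1
  · have e : bitF (B' := B') a u = fun y => y (Sum.inl a) := by
      funext y; simp [bitF, h1]
    rw [e]
    exact FD.var _ _
  · by_cases h0 : u = 0
    · have e : bitF (B' := B') a u = fun y => !y (Sum.inl a) := by
        funext y; simp [bitF, h0]
      rw [e]
      exact (FD.var 0 _).neg
    · have e : bitF (B' := B') a u = fun _ => false := by
        funext y; simp [bitF, h0, h1]
      rw [e]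
      exact FD.const _ _

theorem bitF_eval {B' : Type} (a : α) (u : ℤ) (x : α → Bool) (y : B' → Bool) :
    bitF a u (Sum.elim x y) = decide (b2i (x a) = u) := by
  unfold bitF
  by_cases h1 : u = 1
  · subst h1
    cases hx : x a <;> simp [hx]
  · by_cases h0 : u = 0
    · subst h0
      cases hx : x a <;> simp [hx]
    · rw [if_neg h1, if_neg h0]
      cases x a
      · simp only [b2i_false]
        exact (decide_eq_false (fun h => h0 h.symm)).symm
      · simp only [b2i_true]
        exact (decide_eq_false (fun h => h1 h.symm)).symm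

/-- First level of cells: they read input bits. -/
theorem ILev.init [Fintype γ] (hL : 1 ≤ L) (hγ : Fintype.card γ ≤ Q) (G : γ → ICell α)
    (hG : ∀ (x : α → Bool) (c : γ), |(G c).eval (fun a => b2i (x a))| < 2 ^ L) :
    ILev α Q L 1 γ (fun x c => (G c).eval (fun a => b2i (x a))) := by
  have h0 : Lev α (Q * 2 ^ (3 * L + 6)) 0 Empty (fun _ e => e.elim) := Lev.base
  refine ⟨hG, ?_⟩
  have h1 := step_core (Y := α) hγ h0 (fun x a => b2i (x a))
    (fun x a => by
      have := bdd_rd (β := Empty) hL x (y := fun e => e.elim) (fun e => e.elim) (Sum.inl a)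
      simpa using this)
    (fun a u y => bitF a (u : ℤ) y) (fun a u => fd_bitF a _)
    (fun x a u => bitF_eval a _ x _) G
  rw [zero_add] at h1
  rw [one_mul]
  exact h1

/-- One more level of cells; the cells read input bits and cells of the level before. -/
theorem ILev.step [Fintype γ] {d : ℕ} {f : (α → Bool) → β → ℤ} (h : ILev α Q L d β f)
    (hL : 1 ≤ L) (hγ : Fintype.card γ ≤ Q) (G : γ → ICell (α ⊕ β))
    (hG : ∀ x c, |(G c).eval (rd x (f x))| < 2 ^ L) :
    ILev α Q L (d + 1) γ (fun x c => (G c).eval (rd x (f x))) := by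
  refine ⟨hG, ?_⟩
  have h1 := step_core (Y := α ⊕ β) hγ h.lev (fun x => rd x (f x))
    (fun x => bdd_rd hL x (h.bd x))
    (fun t u => Sum.elim (fun a => bitF a (u : ℤ)) (fun b y => y (Sum.inr (b, u))) t)
    (by
      rintro (a | b) u
      · exact fd_bitF a _
      · exact FD.var 1 _)
    (by
      rintro x (a | b) u
      · exact bitF_eval a _ x _
      · rfl) G
  have e : (d + 1) * (2 * L + 6) = d * (2 * L + 6) + (2 * L + 6) := by ring
  rw [e]
  exact h1

/-! ### Formulas over words -/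

/-- `f` is computed from words by a formula with `k + 1` levels of cells. -/
def IFD (L : ℕ) {Y : Type} : ℕ → ((Y → ℤ) → ℤ) → Prop
  | 0, f => ∃ G : ICell Y, ∀ y, Bdd L y → f y = G.eval y ∧ |f y| < 2 ^ L
  | k + 1, f => ∃ (G : ICell Bool) (f' : Bool → (Y → ℤ) → ℤ),
      (∀ i, IFD L k (f' i)) ∧ ∀ y, Bdd L y → f y = G.eval (fun i => f' i y) ∧ |f y| < 2 ^ L

theorem IFD.bd {k : ℕ} {f : (Y → ℤ) → ℤ} (h : IFD L k f) {y : Y → ℤ} (hy : Bdd L y) :
    |f y| < 2 ^ L := by
  cases k with
  | zero =>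
    obtain ⟨G, hG⟩ := h
    exact (hG y hy).2
  | succ k =>
    obtain ⟨G, f', _, hG⟩ := h
    exact (hG y hy).2

theorem IFD.congr {k : ℕ} {f g : (Y → ℤ) → ℤ} (h : IFD L k f)
    (hfg : ∀ y, Bdd L y → g y = f y) : IFD L k g := by
  cases k with
  | zero =>
    obtain ⟨G, hG⟩ := h
    exact ⟨G, fun y hy => by rw [hfg y hy]; exact hG y hy⟩
  | succ k =>
    obtain ⟨G, f', h1, hG⟩ := h
    exact ⟨G, f', h1, fun y hy => by rw [hfg y hy]; exact hG y hy⟩

theorem IFD.map2 {k : ℕ} {f g : (Y → ℤ) → ℤ} (φ : ℤ → ℤ → ℤ) (hf : IFD L k f) (hg : IFD L k g)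
    (hb : ∀ y, Bdd L y → |φ (f y) (g y)| < 2 ^ L) :
    IFD L (k + 1) (fun y => φ (f y) (g y)) := by
  refine ⟨.op φ true false, fun i => if i then f else g, fun i => by cases i <;> simpa, ?_⟩
  intro y hy
  exact ⟨rfl, hb y hy⟩

theorem IFD.map1 {k : ℕ} {f : (Y → ℤ) → ℤ} (φ : ℤ → ℤ) (hf : IFD L k f)
    (hb : ∀ y, Bdd L y → |φ (f y)| < 2 ^ L) :
    IFD L (k + 1) (fun y => φ (f y)) :=
  IFD.map2 (fun u _ => φ u) hf hf hb

theorem IFD.succ {k : ℕ} {f : (Y → ℤ) → ℤ} (h : IFD L k f) : IFD L (k + 1) f :=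
  IFD.map1 (fun u => u) h (fun _ hy => h.bd hy)

theorem IFD.mono {k l : ℕ} {f : (Y → ℤ) → ℤ} (h : IFD L k f) (hkl : k ≤ l) : IFD L l f := by
  induction hkl with
  | refl => exact h
  | step _ ih => exact ih.succ

theorem IFD.const (k : ℕ) {z : ℤ} (hz : |z| < 2 ^ L) : IFD L k (fun _ : Y → ℤ => z) := by
  have : IFD L 0 (fun _ : Y → ℤ => z) := ⟨.const z, fun _ _ => ⟨rfl, hz⟩⟩
  exact this.mono (Nat.zero_le _)

theorem IFD.var (k : ℕ) (a : Y) : IFD L k (fun y : Y → ℤ => y a) := by
  have : IFD L 0 (fun y : Y → ℤ => y a) := ⟨.op (fun u _ => u) a a, fun y hy => ⟨rfl, hy a⟩⟩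
  exact this.mono (Nat.zero_le _)

/-- A cell as a formula of depth `0`. -/
theorem IFD.op (a b : Y) (φ : ℤ → ℤ → ℤ)
    (hb : ∀ y : Y → ℤ, Bdd L y → |φ (y a) (y b)| < 2 ^ L) :
    IFD L 0 (fun y : Y → ℤ => φ (y a) (y b)) :=
  ⟨.op φ a b, fun y hy => ⟨rfl, hb y hy⟩⟩

/-- Balanced sum of a list. -/
theorem IFD.sumList {k : ℕ} (j : ℕ) (l : List ((Y → ℤ) → ℤ)) (hl : l.length ≤ 2 ^ j)
    (h : ∀ f ∈ l, IFD L k f)
    (hb : ∀ y, Bdd L y → (l.map (fun f => |f y|)).sum < 2 ^ L) :
    IFD L (k + j) (fun y => (l.map (fun f => f y)).sum) := by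
  induction j generalizing l with
  | zero =>
    match l, hl, h with
    | [], _, _ =>
      have h0 : |(0 : ℤ)| < 2 ^ L := by rw [abs_zero]; positivity
      exact (IFD.const k h0).congr (fun y _ => by simp)
    | [f], _, h =>
      have : IFD L k f := h f (by simp)
      exact this.congr (fun y _ => by simp)
    | _ :: _ :: _, hl, _ => simp at hl
  | succ j ih =>
    have habs : ∀ (l : List ((Y → ℤ) → ℤ)) (y : Y → ℤ),
        |(l.map (fun f => f y)).sum| ≤ (l.map (fun f => |f y|)).sum := by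
      intro l y
      induction l with
      | nil => simp
      | cons f l ihl =>
        simp only [List.map_cons, List.sum_cons]
        exact le_trans (abs_add_le _ _) (by linarith)
    have hnn : ∀ (l : List ((Y → ℤ) → ℤ)) (y : Y → ℤ),
        0 ≤ (l.map (fun f => |f y|)).sum := by
      intro l y
      induction l with
      | nil => simp
      | cons f l ihl =>
        simp only [List.map_cons, List.sum_cons]
        have := abs_nonneg (f y)
        linarith
    have hsplit : ∀ (φ : ((Y → ℤ) → ℤ) → ℤ), ((l.take (2 ^ j)).map φ).sum +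
        ((l.drop (2 ^ j)).map φ).sum = (l.map φ).sum := by
      intro φ
      rw [← List.sum_append, ← List.map_append, List.take_append_drop]
    have h1 := ih (l.take (2 ^ j)) (by simp) (fun f hf => h f (List.mem_of_mem_take hf))
      (fun y hy => by
        have := hb y hy
        have h2 := hsplit (fun f => |f y|)
        have h3 := hnn (l.drop (2 ^ j)) y
        linarith)
    have h2 := ih (l.drop (2 ^ j)) (by
      rw [List.length_drop, pow_succ] at *
      omega) (fun f hf => h f (List.mem_of_mem_drop hf))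
      (fun y hy => by
        have := hb y hy
        have h2 := hsplit (fun f => |f y|)
        have h3 := hnn (l.take (2 ^ j)) y
        linarith)
    refine IFD.congr (IFD.map2 (fun u v => u + v) h1 h2 ?_) ?_
    · intro y hy
      have h3 := hsplit (fun f => f y)
      have h4 := hb y hy
      have h5 := habs l y
      rw [h3]
      linarith
    · intro y _
      exact (hsplit (fun f => f y)).symm

theorem IFD.sum {k : ℕ} (j : ℕ) {ι : Type} [Fintype ι] (hι : Fintype.card ι ≤ 2 ^ j)
    (g : ι → (Y → ℤ) → ℤ) (h : ∀ i, IFD L k (g i))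
    (hb : ∀ y, Bdd L y → ∑ i, |g i y| < 2 ^ L) :
    IFD L (k + j) (fun y => ∑ i, g i y) := by
  classical
  have h1 := IFD.sumList (k := k) j ((Finset.univ : Finset ι).toList.map g)
    (by simpa using hι) (by
      intro f hf
      rw [List.mem_map] at hf
      obtain ⟨i, _, rfl⟩ := hf
      exact h i) (by
      intro y hy
      have := hb y hy
      rw [List.map_map]
      have e : (List.map ((fun f => |f y|) ∘ g) (Finset.univ : Finset ι).toList).sum
          = ∑ i, |g i y| := by
        rw [← Finset.sum_map_toList]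
        rfl
      rw [e]
      exact this)
  refine h1.congr (fun y _ => ?_)
  rw [List.map_map]
  rw [← Finset.sum_map_toList]
  rfl

/-- A stage: every cell of the new family is a formula of the old one. -/
theorem ILev.formula {k : ℕ} (hL : 1 ≤ L) :
    ∀ {d : ℕ} {β : Type} {f : (α → Bool) → β → ℤ} {γ : Type} [Fintype γ]
      (F : γ → (α ⊕ β → ℤ) → ℤ) (_ : ∀ c, IFD L k (F c))
      (_ : Fintype.card γ * 2 ^ k ≤ Q) (_ : ILev α Q L d β f),
      ILev α Q L (d + k + 1) γ (fun x c => F c (rd x (f x))) := by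
  induction k with
  | zero =>
    intro d β f γ _ F hF hQ h
    choose G hG using hF
    have h1 := ILev.step h hL (by simpa using hQ) G (fun x c => by
      have := hG c (rd x (f x)) (bdd_rd hL x (h.bd x))
      rw [← this.1]
      exact this.2)
    exact h1.congr (fun x c => (hG c (rd x (f x)) (bdd_rd hL x (h.bd x))).1)
  | succ k ih =>
    intro d β f γ _ F hF hQ h
    choose G f' hf' hG using hF
    have h1 := ih (γ := γ × Bool) (fun p => f' p.1 p.2) (fun p => hf' p.1 p.2)
      (by rw [Fintype.card_prod, Fintype.card_bool, mul_assoc]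
          rwa [pow_succ'] at hQ) h
    have hev : ∀ x c, (match G c with
        | .const z => ICell.const z
        | .op φ a b => ICell.op φ (Sum.inr (c, a)) (Sum.inr (c, b)) :
          ICell (α ⊕ γ × Bool)).eval (rd x (fun p : γ × Bool => f' p.1 p.2 (rd x (f x))))
        = F c (rd x (f x)) := by
      intro x c
      rw [(hG c (rd x (f x)) (bdd_rd hL x (h.bd x))).1]
      cases G c <;> rfl
    have h2 := ILev.step h1 hL (by
      refine le_trans ?_ hQ
      exact Nat.le_mul_of_pos_right _ (by positivity))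
      (fun c => (match G c with
        | .const z => ICell.const z
        | .op φ a b => ICell.op φ (Sum.inr (c, a)) (Sum.inr (c, b))))
      (fun x c => by
        rw [hev]
        exact (hG c (rd x (f x)) (bdd_rd hL x (h.bd x))).2)
    exact h2.congr (fun x c => (hev x c).symm)

/-- Keep a family for `k` further levels. -/
theorem ILev.wait [Fintype β] {d : ℕ} {f : (α → Bool) → β → ℤ} (hL : 1 ≤ L)
    (hβ : Fintype.card β ≤ Q) (h : ILev α Q L d β f) (k : ℕ) : ILev α Q L (d + k) β f := by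
  induction k with
  | zero => exact h
  | succ k ih =>
    have h1 := ILev.step ih hL hβ (fun b => ICell.op (fun u _ => u) (Sum.inr b) (Sum.inr b))
      (fun x c => ih.bd x c)
    exact h1

/-- Stages `F 0, F 1, …` applied one after the other. -/
def runI {α σ : Type} (F : ℕ → (α → Bool) → (σ → ℤ) → σ → ℤ) (x : α → Bool) (s : σ → ℤ) :
    ℕ → σ → ℤ
  | 0 => s
  | j + 1 => F j x (runI F x s j)

theorem ILev.run {σ : Type} {κ : ℕ} (F : ℕ → (α → Bool) → (σ → ℤ) → σ → ℤ)
    (hF : ∀ j d (f : (α → Bool) → σ → ℤ), ILev α Q L d σ f →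
      ILev α Q L (d + κ) σ (fun x => F j x (f x)))
    {d : ℕ} {f : (α → Bool) → σ → ℤ} (h : ILev α Q L d σ f) (r : ℕ) :
    ILev α Q L (d + r * κ) σ (fun x => runI F x (f x) r) := by
  induction r with
  | zero => simpa [runI] using h
  | succ r ih =>
    have h1 := hF r _ _ ih
    have e : d + r * κ + κ = d + (r + 1) * κ := by ring
    rw [e] at h1
    exact h1

/-! ### Boolean stages -/

/-- Depth of a Boolean circuit may be increased. -/
theorem Lev.wait {W : ℕ} [Fintype β] {d : ℕ} {f : (α → Bool) → β → Bool}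
    (hβ : Fintype.card β ≤ W) (h : Lev α W d β f) (k : ℕ) : Lev α W (d + k) β f := by
  induction k with
  | zero => exact h
  | succ k ih => exact Lev.step ih β hβ (fun b => .wire (Sum.inr b))

/-- A Boolean transformation is applied to cells holding `0` or `1` (a cell is read as `true`
if it holds `1`). -/
theorem ILev.bool {σ τ : Type} [Fintype σ] [Fintype τ] {κ κ' : ℕ}
    (F : (α → Bool) → (σ → Bool) → τ → Bool)
    (hF : ∀ d (f : (α → Bool) → σ → Bool), Lev α (Q * 2 ^ (3 * L + 6)) d σ f →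
      Lev α (Q * 2 ^ (3 * L + 6)) (d + κ) τ (fun x => F x (f x)))
    (hL : 1 ≤ L) (hσ : Fintype.card σ ≤ Q) (hτ : Fintype.card τ ≤ Q)
    (hκ : κ + 2 ≤ κ' * (2 * L + 6)) {d : ℕ} {f : (α → Bool) → σ → ℤ} (h : ILev α Q L d σ f) :
    ILev α Q L (d + κ') τ (fun x t => b2i (F x (fun s => decide (f x s = 1)) t)) := by
  classical
  have hw1 : (1 : ℕ) ≤ 2 ^ (3 * L + 6) := Nat.one_le_two_pow
  have h2 : (2 : ℤ) ≤ 2 ^ L := by
    calc (2 : ℤ) = 2 ^ 1 := by norm_num
      _ ≤ 2 ^ L := pow_le_pow_right₀ (by norm_num) hL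
  refine ⟨fun x t => ?_, ?_⟩
  · cases F x (fun s => decide (f x s = 1)) t
    · simp only [b2i_false, abs_zero]; linarith
    · simp only [b2i_true, abs_one]; linarith
  have one_mem : (1 : ℤ) ∈ Finset.Ioo (-(2 : ℤ) ^ L) ((2 : ℤ) ^ L) := by
    rw [Finset.mem_Ioo]
    constructor <;> linarith
  -- read the cells as bits
  have h3 : Lev α (Q * 2 ^ (3 * L + 6)) (d * (2 * L + 6) + 1) σ
      (fun x s => decide (f x s = 1)) := by
    have := Lev.step h.lev σ (le_trans hσ (Nat.le_mul_of_pos_right _ (by positivity)))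
      (fun s => .wire (Sum.inr (s, ⟨1, one_mem⟩)))
    exact this
  have h4 := hF _ _ h3
  -- write bits as cells
  have hτW : Fintype.card (τ × Wd L) ≤ Q * 2 ^ (3 * L + 6) := by
    rw [Fintype.card_prod]
    exact Nat.mul_le_mul hτ (le_trans (card_wd L) (Nat.pow_le_pow_right (by norm_num) (by omega)))
  have h5 := Lev.step h4 (τ × Wd L) hτW (fun p => if (p.2 : ℤ) = 1 then .wire (Sum.inr p.1)
    else if (p.2 : ℤ) = 0 then .neg (Sum.inr p.1) else .const false)
  obtain ⟨r, hr⟩ := Nat.exists_eq_add_of_le hκ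
  have h6 := Lev.wait hτW h5 r
  have e : d * (2 * L + 6) + 1 + κ + 1 + r = (d + κ') * (2 * L + 6) := by
    rw [add_mul, hr]
    ring
  rw [e] at h6
  refine Lev.congr h6 (fun x p => ?_)
  obtain ⟨t, u, hu⟩ := p
  simp only
  by_cases h1 : u = 1
  · subst h1
    cases hx : F x (fun s => decide (f x s = 1)) t <;> simp [BGate.eval, hx]
  · by_cases h0 : u = 0
    · subst h0
      cases hx : F x (fun s => decide (f x s = 1)) t <;> simp [BGate.eval, hx]
    · rw [if_neg h1, if_neg h0]
      simp only [BGate.eval]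
      cases F x (fun s => decide (f x s = 1)) t
      · simp only [b2i_false, decide_eq_false_iff_not]
        exact fun h => h0 h.symm
      · simp only [b2i_true, decide_eq_false_iff_not]
        exact fun h => h1 h.symm

/-- The final circuit: its output bit says whether a cell holds `1`. -/
theorem ILev.toCircuit [Fintype β] {d : ℕ} {f : (α → Bool) → β → ℤ} (hL : 1 ≤ L)
    (h : ILev α Q L d β f) (b : β) :
    ∃ (B : BCircuit α (Q * 2 ^ (3 * L + 6))) (o : Fin (Q * 2 ^ (3 * L + 6))),
      ∀ x, B.level x (d * (2 * L + 6)) o = decide (f x b = 1) := by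
  have h2 : (2 : ℤ) ≤ 2 ^ L := by
    calc (2 : ℤ) = 2 ^ 1 := by norm_num
      _ ≤ 2 ^ L := pow_le_pow_right₀ (by norm_num) hL
  have one_mem : (1 : ℤ) ∈ Finset.Ioo (-(2 : ℤ) ^ L) ((2 : ℤ) ^ L) := by
    rw [Finset.mem_Ioo]
    constructor <;> linarith
  obtain ⟨B, o, hB⟩ := h.lev.toCircuit
  exact ⟨B, o (b, ⟨1, one_mem⟩), fun x => hB x _⟩

end Pool.Agent.LibCC89
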