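import Pool.Agent.LibCC.Circ
import Pool.Agent.LibCCV.Defs

/-!
MP_9a4607_lc: target statements for the bound `m ^ (1 / 3)` (helper81), and the proof that the
inner form implies the final form.

The circuit family is that of the landed hand-ins `Correction`, `BalancedCuts`, `ValueCutWidth`:
`BCircuit α W` (levels of `W` gates const / wire / not / and / or, fan-in at most two, reading
input bits and the previous level), instance bits `Bit n m`, `encode C x e`.
-/

namespace Pool.Agent.LibCC89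

open Pool.Agent.LibCC Pool.Agent.LibCCV

/-- Inner form. For all `n`, `m`, `q` with `m ≤ q ^ 3` one circuit of depth `c * L ^ c * q`
evaluates all comparator circuits with `n` sources and `m` comparators, numbered in any way. -/
def Inner : Prop :=
  ∃ c : ℕ, ∀ n m q : ℕ, 1 ≤ q → q ≤ m + 1 → m ≤ q ^ 3 →
    ∃ (D : ℕ) (B : BCircuit (Bit n m) (c * (n + 2 * m + 1) ^ c))
      (o : Fin (c * (n + 2 * m + 1) ^ c)),
      D ≤ c * (Nat.log 2 (n + 2 * m + 1) + 1) ^ c * q ∧
      ∀ (C : CompCircuit n m) (x : Fin n → Bool) (v : Arc n m → Bool), C.IsVal x v →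
        ∀ e : Arc n m, B.level (encode C x e) D o = v e

/-- Final form (the theorem `result` of the hand-in, written out there without this
definition). There is a constant `c` such that for all `n, m` one levelled Boolean circuit of
fan-in at most two with `c * (n + 2 * m + 1) ^ c` gates on every level and of depth at most
`c * (log₂ (n + 2 * m + 1) + 1) ^ c * (m + 1) ^ (1 / 3)` reads a comparator circuit with `n`
sources and `m` comparators, its source bits and a designated arc, and computes the bit carried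
by this arc. -/
def Final : Prop :=
  ∃ c : ℕ, ∀ n m : ℕ,
    ∃ (D : ℕ) (B : BCircuit (Bit n m) (c * (n + 2 * m + 1) ^ c))
      (o : Fin (c * (n + 2 * m + 1) ^ c)),
      (D : ℝ) ≤ c * ((Nat.log 2 (n + 2 * m + 1) : ℝ) + 1) ^ c * ((m : ℝ) + 1) ^ (1 / 3 : ℝ) ∧
      ∀ (C : CompCircuit n m) (x : Fin n → Bool) (v : Arc n m → Bool), C.IsVal x v →
        ∀ e : Arc n m, B.level (encode C x e) D o = v e

/-- More gates per level do no harm. -/
theorem BCircuit.widen {α : Type} {W W' : ℕ} (hW : W ≤ W') (B : BCircuit α W) :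
    ∃ B' : BCircuit α W', ∀ (x : α → Bool) (k : ℕ) (i : Fin W),
      B'.level x k (Fin.castLE hW i) = B.level x k i := by
  classical
  refine ⟨⟨fun k j => if h : (j : ℕ) < W then
    (B.gate k ⟨j, h⟩).map (Sum.map id (Fin.castLE hW)) else .const false⟩, ?_⟩
  intro x k
  induction k with
  | zero => intro i; rfl
  | succ k ih =>
    intro i
    change BGate.eval _ (if h : ((Fin.castLE hW i : Fin W') : ℕ) < W then _ else _) = _
    have hi : ((Fin.castLE hW i : Fin W') : ℕ) < W := i.isLt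
    rw [dif_pos hi, BGate.eval_map]
    change _ = (B.gate k i).eval (Sum.elim x (B.level x k))
    have h1 : (⟨((Fin.castLE hW i : Fin W') : ℕ), hi⟩ : Fin W) = i := rfl
    rw [h1]
    congr 1
    funext a
    rcases a with a | a
    · rfl
    · exact ih a

theorem final_of_inner (h : Inner) : Final := by
  obtain ⟨c, hc⟩ := h
  refine ⟨2 * c, fun n m => ?_⟩
  set N := n + 2 * m + 1 with hN
  have hNpos : 1 ≤ N := by omega
  set y : ℝ := ((m : ℝ) + 1) ^ (1 / 3 : ℝ) with hy
  have hm1 : (1 : ℝ) ≤ (m : ℝ) + 1 := by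
    have : (0 : ℝ) ≤ m := Nat.cast_nonneg m
    linarith
  have hy1 : 1 ≤ y := Real.one_le_rpow hm1 (by norm_num)
  have hy2 : y ≤ (m : ℝ) + 1 := by
    calc y ≤ ((m : ℝ) + 1) ^ (1 : ℝ) := Real.rpow_le_rpow_of_exponent_le hm1 (by norm_num)
      _ = _ := Real.rpow_one _
  have hy5 : y ^ 3 = (m : ℝ) + 1 := by
    rw [hy, ← Real.rpow_natCast, ← Real.rpow_mul (by linarith)]
    norm_num
  set T : ℕ := ⌈y⌉₊ with hT
  have hT1 : y ≤ T := Nat.le_ceil y
  have hT2 : (T : ℝ) ≤ 2 * y := by
    have := Nat.ceil_lt_add_one (a := y) (by linarith)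
    linarith
  have hT3 : T ≤ m + 1 := by
    rw [hT, Nat.ceil_le]
    push_cast
    exact hy2
  have hT4 : 1 ≤ T := by
    rw [hT, Nat.one_le_ceil_iff]
    linarith
  have hT5 : m ≤ T ^ 3 := by
    have h1 : (m : ℝ) ≤ (T : ℝ) ^ 3 := by
      calc (m : ℝ) ≤ y ^ 3 := by rw [hy5]; linarith
        _ ≤ (T : ℝ) ^ 3 := pow_le_pow_left₀ (by linarith) hT1 3
    exact_mod_cast h1
  obtain ⟨D, B, o, hD, hB⟩ := hc n m T hT4 hT3 hT5
  have hWW : c * N ^ c ≤ 2 * c * N ^ (2 * c) := by
    refine Nat.mul_le_mul (by omega) (Nat.pow_le_pow_right hNpos (by omega))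
  obtain ⟨B', hB'⟩ := BCircuit.widen hWW B
  refine ⟨D, B', Fin.castLE hWW o, ?_, fun C x v hv e => ?_⟩
  · have h1 : (D : ℝ) ≤ c * ((Nat.log 2 N : ℝ) + 1) ^ c * T := by exact_mod_cast hD
    have hL1 : (1 : ℝ) ≤ (Nat.log 2 N : ℝ) + 1 := by
      have : (0 : ℝ) ≤ (Nat.log 2 N : ℝ) := Nat.cast_nonneg _
      linarith
    have h3 : ((Nat.log 2 N : ℝ) + 1) ^ c ≤ ((Nat.log 2 N : ℝ) + 1) ^ (2 * c) :=
      pow_le_pow_right₀ hL1 (by omega)
    have hc0 : (0 : ℝ) ≤ c := Nat.cast_nonneg c
    calc (D : ℝ) ≤ c * ((Nat.log 2 N : ℝ) + 1) ^ c * T := h1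
      _ ≤ c * ((Nat.log 2 N : ℝ) + 1) ^ (2 * c) * (2 * y) := by
          apply mul_le_mul
          · exact mul_le_mul_of_nonneg_left h3 hc0
          · exact hT2
          · positivity
          · positivity
      _ = _ := by
          push_cast
          ring
  · rw [hB', hB C x v hv e]

end Pool.Agent.LibCC89
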