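import Pool.Agent.LibCC89.DriftDepth
import Pool.Agent.LibCC89.Statement

/-!
From the parametric machine to the bound by the square root of the depth.
-/

namespace Pool.Agent.LibCC89

open Pool.Agent.LibCC Pool.Agent.LibCCV Pool.Agent.LibCCS Pool.Agent.LibCC67

/-- The parametric form of the evaluation theorem. -/
def MasterForm : Prop :=
  ∃ c : ℕ, ∀ n m J : ℕ, 1 ≤ J → J ≤ 2 ^ (6 * (Nat.log 2 (n + 2 * m + 1) + 1)) →
    ∃ (D : ℕ) (B : BCircuit (Bit n m) (c * (n + 2 * m + 1) ^ c))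
      (o : Fin (c * (n + 2 * m + 1) ^ c)),
      D ≤ c * (Nat.log 2 (n + 2 * m + 1) + 1) ^ c * J ∧
      ∀ C : CompCircuit n m, Drifts C (J : ℝ) → ∀ (x : Fin n → Bool) (v : Arc n m → Bool),
        C.IsVal x v → ∀ e : Arc n m, B.level (encode C x e) D o = v e

theorem depth_of_master (h : MasterForm) :
    ∃ c : ℕ, ∀ n m dep : ℕ, 1 ≤ dep →
      ∃ (D : ℕ) (B : BCircuit (Bit n m) (c * (n + 2 * m + 1) ^ c))
        (o : Fin (c * (n + 2 * m + 1) ^ c)),
        (D : ℝ) ≤ c * ((Nat.log 2 (n + 2 * m + 1) : ℝ) + 1) ^ c * √(dep : ℝ) ∧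
        ∀ C : CompCircuit n m, DepthLe C dep → ∀ (x : Fin n → Bool) (v : Arc n m → Bool),
          C.IsVal x v → ∀ e : Arc n m, B.level (encode C x e) D o = v e := by
  obtain ⟨c, hc⟩ := h
  refine ⟨4 * c + 1, fun n m dep hdep => ?_⟩
  set N := n + 2 * m + 1 with hN
  set l := Nat.log 2 N + 1 with hl
  have hNpos : 1 ≤ N := by omega
  have hNl : N < 2 ^ l := Nat.lt_pow_succ_log_self (by norm_num) N
  set dep0 := min dep (m + 1) with hdep0
  have hd1 : 1 ≤ dep0 := by rw [hdep0]; omega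
  have hd2 : dep0 ≤ dep := min_le_left _ _
  have hd3 : dep0 ≤ m + 1 := min_le_right _ _
  set y : ℝ := √(dep0 : ℝ) with hy
  have hd1r : (1 : ℝ) ≤ dep0 := by exact_mod_cast hd1
  have hy1 : 1 ≤ y := by rw [hy]; exact Real.one_le_sqrt.mpr hd1r
  have hy2 : y ^ 2 = dep0 := Real.sq_sqrt (by linarith)
  set q : ℕ := ⌈y⌉₊ with hq
  have hq1 : y ≤ q := Nat.le_ceil y
  have hq2 : (q : ℝ) ≤ 2 * y := by
    have := Nat.ceil_lt_add_one (a := y) (by linarith)
    linarith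
  have hq3 : q ≤ m + 1 := by
    rw [hq, Nat.ceil_le]
    have h1 : y ≤ dep0 := by nlinarith
    have h2 : (dep0 : ℝ) ≤ ((m + 1 : ℕ) : ℝ) := by exact_mod_cast hd3
    linarith
  have hq4 : 1 ≤ q := by
    rw [hq, Nat.one_le_ceil_iff]
    linarith
  have hq5 : dep0 ≤ q ^ 2 := by
    have h1 : (dep0 : ℝ) ≤ (q : ℝ) ^ 2 := by
      rw [← hy2]
      exact pow_le_pow_left₀ (by linarith) hq1 2
    exact_mod_cast h1
  have hJ1 : 1 ≤ q * (l + 1) := Nat.mul_pos (by omega) (by omega)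
  have hJ2 : q * (l + 1) ≤ 2 ^ (6 * l) := by
    have h1 : q ≤ 2 ^ l := by omega
    have h2 : l + 1 ≤ 2 ^ l := Nat.lt_two_pow_self
    calc q * (l + 1) ≤ 2 ^ l * 2 ^ l := Nat.mul_le_mul h1 h2
      _ = 2 ^ (l + l) := (pow_add 2 l l).symm
      _ ≤ 2 ^ (6 * l) := Nat.pow_le_pow_right (by norm_num) (by omega)
  obtain ⟨D, B, o, hD, hB⟩ := hc n m (q * (l + 1)) hJ1 hJ2
  have hWW : c * N ^ c ≤ (4 * c + 1) * N ^ (4 * c + 1) := by
    refine Nat.mul_le_mul (by omega) (Nat.pow_le_pow_right hNpos (by omega))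
  obtain ⟨B', hB'⟩ := BCircuit.widen hWW B
  refine ⟨D, B', Fin.castLE hWW o, ?_, fun C hC x v hv e => ?_⟩
  · have h1 : (D : ℝ) ≤ c * (l : ℝ) ^ c * (q * (l + 1)) := by exact_mod_cast hD
    have hlr : ((Nat.log 2 N : ℝ) + 1) = (l : ℝ) := by rw [hl]; push_cast; ring
    rw [hlr]
    have hL1 : (1 : ℝ) ≤ (l : ℝ) := by
      rw [hl]
      push_cast
      have : (0 : ℝ) ≤ (Nat.log 2 N : ℝ) := Nat.cast_nonneg _
      linarith
    have hc0 : (0 : ℝ) ≤ c := Nat.cast_nonneg c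
    have hyd : y ≤ √(dep : ℝ) := Real.sqrt_le_sqrt (by exact_mod_cast hd2)
    have h3 : (l : ℝ) ^ (c + 1) ≤ (l : ℝ) ^ (4 * c + 1) := pow_le_pow_right₀ hL1 (by omega)
    have h4 : (q : ℝ) * (l + 1) ≤ 4 * y * l := by
      calc (q : ℝ) * (l + 1) ≤ (2 * y) * (2 * l) := by
            apply mul_le_mul hq2 (by linarith) (by positivity) (by positivity)
        _ = 4 * y * l := by ring
    calc (D : ℝ) ≤ c * (l : ℝ) ^ c * (q * (l + 1)) := h1
      _ ≤ c * (l : ℝ) ^ c * (4 * y * l) := mul_le_mul_of_nonneg_left h4 (by positivity)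
      _ = 4 * c * (l : ℝ) ^ (c + 1) * y := by ring
      _ ≤ 4 * c * (l : ℝ) ^ (4 * c + 1) * √(dep : ℝ) := by
          apply mul_le_mul _ hyd (by linarith) (by positivity)
          exact mul_le_mul_of_nonneg_left h3 (by positivity)
      _ ≤ ((4 * c + 1 : ℕ) : ℝ) * (l : ℝ) ^ (4 * c + 1) * √(dep : ℝ) := by
          apply mul_le_mul_of_nonneg_right _ (Real.sqrt_nonneg _)
          apply mul_le_mul_of_nonneg_right _ (by positivity)
          push_cast
          linarith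
  · have hC0 : DepthLe C dep0 := by
      rcases le_total dep (m + 1) with h1 | h1
      · rw [hdep0, min_eq_left h1]
        exact hC
      · rw [hdep0, min_eq_right h1]
        exact (depthLe_self C).mono (by omega)
    rw [hB', hB C (drifts_depth hC0 hq5 (by omega)) x v hv e]

end Pool.Agent.LibCC89
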