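import Pool.Agent.LibCC89.TrajA

/-!
Second drift lemma: an exponential potential over the cuts bounds the drift by the square root of
the depth of the circuit.
-/

namespace Pool.Agent.LibCC89

open Pool.Agent.LibCC Pool.Agent.LibCCS Pool.Agent.LibCC67 Finset

variable {n m : ℕ}

/-! ### Hyperbolic cosine -/

theorem sinh_le_mul_cosh {t : ℝ} (ht : 0 ≤ t) : Real.sinh t ≤ t * Real.cosh t := by
  have h1 : MonotoneOn (fun t : ℝ => t * Real.cosh t - Real.sinh t) (Set.Ici 0) := by
    apply monotoneOn_of_deriv_nonneg (convex_Ici 0)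
    · fun_prop
    · fun_prop
    · intro x hx
      rw [interior_Ici] at hx
      have h2 : HasDerivAt (fun t : ℝ => t * Real.cosh t - Real.sinh t)
          (1 * Real.cosh x + x * Real.sinh x - Real.cosh x) x :=
        ((hasDerivAt_id x).mul (Real.hasDerivAt_cosh x)).sub (Real.hasDerivAt_sinh x)
      rw [h2.deriv]
      have h3 : 0 ≤ Real.sinh x := Real.sinh_nonneg_iff.mpr (le_of_lt hx)
      have h4 : (0 : ℝ) < x := hx
      nlinarith
  have h2 := h1 (Set.mem_Ici.mpr le_rfl) (Set.mem_Ici.mpr ht) ht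
  simp only [zero_mul, Real.sinh_zero, sub_zero] at h2
  linarith

theorem antitone_exp_cosh : AntitoneOn (fun t : ℝ => Real.exp (-(t ^ 2 / 2)) * Real.cosh t)
    (Set.Ici 0) := by
  apply antitoneOn_of_deriv_nonpos (convex_Ici 0)
  · fun_prop
  · fun_prop
  · intro x hx
    rw [interior_Ici] at hx
    have h0 : HasDerivAt (fun t : ℝ => -(t ^ 2 / 2)) (-x) x := by
      have h := ((hasDerivAt_pow 2 x).div_const 2).neg
      have e : -(((2 : ℕ) : ℝ) * x ^ (2 - 1) / 2) = -x := by norm_num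
      rw [e] at h
      exact h
    have h2 : HasDerivAt (fun t : ℝ => Real.exp (-(t ^ 2 / 2)) * Real.cosh t)
        (Real.exp (-(x ^ 2 / 2)) * (-x) * Real.cosh x +
          Real.exp (-(x ^ 2 / 2)) * Real.sinh x) x :=
      h0.exp.mul (Real.hasDerivAt_cosh x)
    rw [h2.deriv]
    have h3 := sinh_le_mul_cosh (le_of_lt hx)
    have h4 := Real.exp_pos (-(x ^ 2 / 2))
    nlinarith

theorem cosh_le_exp_mul_cosh {A B : ℝ} (h : |B| ≤ |A|) :
    Real.cosh A ≤ Real.exp ((A ^ 2 - B ^ 2) / 2) * Real.cosh B := by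
  have h1 := antitone_exp_cosh (Set.mem_Ici.mpr (abs_nonneg B)) (Set.mem_Ici.mpr (abs_nonneg A)) h
  simp only [sq_abs, Real.cosh_abs] at h1
  have h2 : Real.exp ((A ^ 2 - B ^ 2) / 2) = Real.exp (A ^ 2 / 2) * Real.exp (-(B ^ 2 / 2)) := by
    rw [← Real.exp_add]
    congr 1
    ring
  have h3 : Real.exp (A ^ 2 / 2) * Real.exp (-(A ^ 2 / 2)) = 1 := by
    rw [← Real.exp_add]
    simp
  rw [h2]
  have h4 := mul_le_mul_of_nonneg_left h1 (Real.exp_pos (A ^ 2 / 2)).le
  calc Real.cosh A = Real.exp (A ^ 2 / 2) * Real.exp (-(A ^ 2 / 2)) * Real.cosh A := by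
        rw [h3, one_mul]
    _ = Real.exp (A ^ 2 / 2) * (Real.exp (-(A ^ 2 / 2)) * Real.cosh A) := by ring
    _ ≤ _ := h4
    _ = _ := by ring

/-- The exponential potential of one comparator. -/
theorem exp_gate {θ d s h E : ℝ} (hd : 0 < d) (hlo : -|h| ≤ E) (hup : E ≤ H d h) :
    Real.exp (θ * ((s + E) / 2)) + Real.exp (θ * ((s - E) / 2)) ≤
      Real.exp (θ ^ 2 * d ^ 2 / 2) *
        (Real.exp (θ * ((s + h) / 2)) + Real.exp (θ * ((s - h) / 2))) := by
  have key : ∀ y : ℝ, Real.exp (θ * ((s + y) / 2)) + Real.exp (θ * ((s - y) / 2)) =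
      2 * Real.exp (θ * s / 2) * Real.cosh (θ * y / 2) := by
    intro y
    rw [Real.cosh_eq]
    have e1 : θ * ((s + y) / 2) = θ * s / 2 + θ * y / 2 := by ring
    have e2 : θ * ((s - y) / 2) = θ * s / 2 + -(θ * y / 2) := by ring
    rw [e1, e2, Real.exp_add, Real.exp_add]
    ring
  rw [key E, key h]
  have h1 : Real.cosh (θ * E / 2) ≤ Real.exp (θ ^ 2 * d ^ 2 / 2) * Real.cosh (θ * h / 2) := by
    rcases le_or_gt |E| |h| with hc | hc
    · have h2 : Real.cosh (θ * E / 2) ≤ Real.cosh (θ * h / 2) := by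
        rw [Real.cosh_le_cosh, abs_div, abs_div, abs_mul, abs_mul]
        have := mul_le_mul_of_nonneg_left hc (abs_nonneg θ)
        gcongr
      have h3 : 1 ≤ Real.exp (θ ^ 2 * d ^ 2 / 2) := Real.one_le_exp (by positivity)
      have h4 := Real.cosh_pos (θ * h / 2)
      nlinarith
    · have hE : |h| ≤ E := by
        rcases abs_cases E with ⟨h5, h6⟩ | ⟨h5, h6⟩
        · linarith
        · linarith
      have hE0 : 0 ≤ E := le_trans (abs_nonneg h) hE
      have h2 : |θ * h / 2| ≤ |θ * E / 2| := by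
        rw [abs_div, abs_div, abs_mul, abs_mul]
        have := mul_le_mul_of_nonneg_left hc.le (abs_nonneg θ)
        gcongr
      have h3 := cosh_le_exp_mul_cosh h2
      refine le_trans h3 ?_
      apply mul_le_mul_of_nonneg_right _ (Real.cosh_pos _).le
      apply Real.exp_le_exp.mpr
      have h4 := H_sq_le hd h
      have h5 : E ^ 2 ≤ H d h ^ 2 := by
        apply pow_le_pow_left₀ hE0 hup
      have h6 : 0 ≤ θ ^ 2 := sq_nonneg θ
      have h7 : (θ * E / 2) ^ 2 - (θ * h / 2) ^ 2 = θ ^ 2 * (E ^ 2 - h ^ 2) / 4 := by ring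
      rw [h7]
      have h8 : θ ^ 2 * (E ^ 2 - h ^ 2) ≤ θ ^ 2 * (4 * d ^ 2) :=
        mul_le_mul_of_nonneg_left (by linarith) h6
      linarith
  have h2 := Real.exp_pos (θ * s / 2)
  calc 2 * Real.exp (θ * s / 2) * Real.cosh (θ * E / 2)
      ≤ 2 * Real.exp (θ * s / 2) * (Real.exp (θ ^ 2 * d ^ 2 / 2) * Real.cosh (θ * h / 2)) :=
        mul_le_mul_of_nonneg_left h1 (by positivity)
    _ = _ := by ring

/-- Rank of an arc: `0` for a source, one more than the rank of the comparator otherwise. -/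
def ra (rk : Fin m → ℕ) : Arc n m → ℝ := Sum.elim (fun _ => 0) (fun p => (rk p.1 : ℝ) + 1)

/-- The potential does not grow. -/
theorem potential {C : CompCircuit n m} {e : Arc n m → ℝ} {E : Fin m → ℝ} {d θ K : ℝ}
    (hd : 0 < d) (hK : θ ^ 2 * d ^ 2 / 2 ≤ K) (σ : Bool)
    (hsrc : ∀ i, e (Sum.inl i) = 0)
    (hout : ∀ g, e (Sum.inr (g, σ)) = (Sx C e g + E g) / 2)
    (hout' : ∀ g, e (Sum.inr (g, !σ)) = (Sx C e g - E g) / 2)
    (hlo : ∀ g, -|Dx C e g| ≤ E g) (hup : ∀ g, E g ≤ H d (Dx C e g))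
    {rk : Fin m → ℕ} (hrk : ∀ g b h c, C.inp (g, b) = Sum.inr (h, c) → rk h < rk g) :
    ∀ Gs, Dn C Gs → ∑ a ∈ Av C Gs, Real.exp (θ * e a - K * ra rk a) ≤ n := by
  classical
  have hK0 : 0 ≤ K := le_trans (by positivity) hK
  apply Dn.induction
  · have h1 : Av C ∅ = univ.map ⟨Sum.inl, Sum.inl_injective⟩ := by
      ext a
      rw [mem_Av]
      rcases a with i | ⟨h, c⟩ <;> simp
    rw [h1, sum_map]
    simp [hsrc, ra]
  · rintro Gs g hD hg hin ih ho
    rw [sum_Av_insert hg hD hin ho (fun a => Real.exp (θ * e a - K * ra rk a))]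
    have hra : ∀ b, ra rk (C.inp (g, b)) ≤ rk g := by
      intro b
      rcases hb : C.inp (g, b) with i | ⟨h, c⟩
      · simp [ra]
      · have := hrk g b h c hb
        simp only [ra, Sum.elim_inr]
        exact_mod_cast this
    have h1 := exp_gate (θ := θ) (s := Sx C e g) hd (hlo g) (hup g)
    have e1 : (Sx C e g + Dx C e g) / 2 = e (C.inp (g, false)) := by simp only [Sx, Dx]; ring
    have e2 : (Sx C e g - Dx C e g) / 2 = e (C.inp (g, true)) := by simp only [Sx, Dx]; ring
    rw [← hout g, ← hout' g, e1, e2] at h1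
    have e3 : Real.exp (θ * e (Sum.inr (g, true)) - K * ra (n := n) rk (Sum.inr (g, true))) +
        Real.exp (θ * e (Sum.inr (g, false)) - K * ra (n := n) rk (Sum.inr (g, false))) =
        Real.exp (-(K * (rk g + 1))) *
          (Real.exp (θ * e (Sum.inr (g, σ))) + Real.exp (θ * e (Sum.inr (g, !σ)))) := by
      have hx : ∀ b, Real.exp (θ * e (Sum.inr (g, b)) - K * ra (n := n) rk (Sum.inr (g, b))) =
          Real.exp (-(K * (rk g + 1))) * Real.exp (θ * e (Sum.inr (g, b))) := by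
        intro b
        simp only [ra, Sum.elim_inr]
        rw [← Real.exp_add]
        congr 1
        ring
      rw [hx, hx]
      cases σ
      · simp only [Bool.not_false]
        ring
      · simp only [Bool.not_true]
        ring
    have e4 : Real.exp (-(K * (rk g + 1))) * (Real.exp (θ ^ 2 * d ^ 2 / 2)) ≤
        Real.exp (-(K * rk g)) := by
      rw [← Real.exp_add]
      apply Real.exp_le_exp.mpr
      linarith
    have e5 : ∀ b, Real.exp (-(K * rk g)) * Real.exp (θ * e (C.inp (g, b))) ≤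
        Real.exp (θ * e (C.inp (g, b)) - K * ra rk (C.inp (g, b))) := by
      intro b
      rw [← Real.exp_add]
      apply Real.exp_le_exp.mpr
      have := mul_le_mul_of_nonneg_left (hra b) hK0
      linarith
    have e6 := mul_le_mul_of_nonneg_left h1 (Real.exp_pos (-(K * (rk g + 1)))).le
    have e7 : Real.exp (-(K * (rk g + 1))) * (Real.exp (θ ^ 2 * d ^ 2 / 2) *
        (Real.exp (θ * e (C.inp (g, false))) + Real.exp (θ * e (C.inp (g, true))))) ≤
        Real.exp (-(K * rk g)) *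
        (Real.exp (θ * e (C.inp (g, false))) + Real.exp (θ * e (C.inp (g, true)))) := by
      rw [← mul_assoc]
      apply mul_le_mul_of_nonneg_right e4
      have := Real.exp_pos (θ * e (C.inp (g, false)))
      have := Real.exp_pos (θ * e (C.inp (g, true)))
      linarith
    have e8 := e5 false
    have e9 := e5 true
    rw [mul_add (Real.exp (-(K * rk g)))] at e7
    linarith

theorem upper_depth {C : CompCircuit n m} {e : Arc n m → ℝ} {E : Fin m → ℝ} {d J : ℝ} {dep : ℕ}
    (hd : 0 < d) (σ : Bool) (hsrc : ∀ i, e (Sum.inl i) = 0)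
    (hout : ∀ g, e (Sum.inr (g, σ)) = (Sx C e g + E g) / 2)
    (hout' : ∀ g, e (Sum.inr (g, !σ)) = (Sx C e g - E g) / 2)
    (hlo : ∀ g, -|Dx C e g| ≤ E g) (hup : ∀ g, E g ≤ H d (Dx C e g))
    {rk : Fin m → ℕ} (hrk : ∀ g b h c, C.inp (g, b) = Sum.inr (h, c) → rk h < rk g)
    (hdep : ∀ g, rk g < dep) (hJ0 : 0 < J) (hJ : 2 * dep * Real.log (n + 2) ≤ J ^ 2)
    (a : Arc n m) : e a ≤ d * J := by
  classical
  set l := Real.log (n + 2) with hl
  have hn0 : (0 : ℝ) ≤ n := by positivity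
  have hl0 : 0 < l := Real.log_pos (by linarith)
  set θ := 2 * l / (d * J) with hθ
  have hθ0 : 0 < θ := by positivity
  obtain ⟨Gs, hD, ha⟩ := exists_dn C a
  have h1 := potential (K := θ ^ 2 * d ^ 2 / 2) hd le_rfl σ hsrc hout hout' hlo hup hrk Gs hD
  have h2 : Real.exp (θ * e a - θ ^ 2 * d ^ 2 / 2 * ra rk a) ≤ n :=
    le_trans (single_le_sum (f := fun a => Real.exp (θ * e a - θ ^ 2 * d ^ 2 / 2 * ra rk a))
      (fun _ _ => (Real.exp_pos _).le) ha) h1
  have h3 : θ * e a - θ ^ 2 * d ^ 2 / 2 * ra rk a ≤ l := by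
    rw [hl, Real.le_log_iff_exp_le (by positivity)]
    linarith
  have h4 : ra rk a ≤ dep := by
    rcases a with i | ⟨g, c⟩
    · simp [ra]
    · simp only [ra, Sum.elim_inr]
      exact_mod_cast hdep g
  have h5 : θ ^ 2 * d ^ 2 / 2 * dep ≤ l := by
    have e1 : θ ^ 2 * d ^ 2 / 2 * dep = 2 * dep * l * l / J ^ 2 := by
      rw [hθ]
      field_simp
    rw [e1, div_le_iff₀ (by positivity)]
    have := mul_le_mul_of_nonneg_right hJ hl0.le
    linarith
  have h6 : θ ^ 2 * d ^ 2 / 2 * ra rk a ≤ θ ^ 2 * d ^ 2 / 2 * dep :=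
    mul_le_mul_of_nonneg_left h4 (by positivity)
  have h7 : θ * e a ≤ θ * (d * J) := by
    have e1 : θ * (d * J) = 2 * l := by
      rw [hθ]
      field_simp
    rw [e1]
    linarith
  exact le_of_mul_le_mul_left h7 hθ0

/-- Second drift lemma. If every chain of comparators has at most `dep` members, the drift
constant is `sqrt (2 dep log (n + 2))`. -/
theorem drift_depth {C : CompCircuit n m} {e : Arc n m → ℝ} {E : Fin m → ℝ} {d J : ℝ} {dep : ℕ}
    (hd : 0 < d) (hsrc : ∀ i, e (Sum.inl i) = 0)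
    (hout : ∀ a : Fin m × Bool, e (Sum.inr a) = (Sx C e a.1 + sg a.2 * E a.1) / 2)
    (hE : ∀ g, -|Dx C e g| ≤ E g ∧ E g ≤ H d (Dx C e g))
    {rk : Fin m → ℕ} (hrk : ∀ g b h c, C.inp (g, b) = Sum.inr (h, c) → rk h < rk g)
    (hdep : ∀ g, rk g < dep) (hJ0 : 0 ≤ J) (hJ : 2 * dep * Real.log (n + 2) ≤ J ^ 2)
    (a : Arc n m) : |e a| ≤ d * J := by
  rcases a with i | ⟨g0, c0⟩
  · rw [hsrc i, abs_zero]
    positivity
  have hdep1 : 1 ≤ dep := by have := hdep g0; omega
  have hn0 : (0 : ℝ) ≤ n := by positivity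
  have hl0 : 0 < Real.log ((n : ℝ) + 2) := Real.log_pos (by linarith)
  have hJ1 : 0 < J := by
    rcases eq_or_lt_of_le hJ0 with h | h
    · exfalso
      rw [← h] at hJ
      have h1 : (1 : ℝ) ≤ dep := by exact_mod_cast hdep1
      have h2 : 0 < 2 * (dep : ℝ) * Real.log (n + 2) := by positivity
      linarith
    · exact h
  rw [abs_le]
  constructor
  · have hS : ∀ g, Sx C (fun a => -e a) g = -Sx C e g := fun g => by simp only [Sx]; ring
    have hDD : ∀ g, Dx C (fun a => -e a) g = -Dx C e g := fun g => by simp only [Dx]; ring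
    have hHH : ∀ y, H d (-y) = H d y := fun y => by simp only [H, abs_neg]
    have h1 := upper_depth (C := C) (e := fun a => -e a) (E := E) hd false
      (fun i => by simp [hsrc i])
      (fun g => by rw [hS, hout (g, false)]; simp only [sg, Bool.false_eq_true, if_false]; ring)
      (fun g => by rw [hS, Bool.not_false, hout (g, true)]; simp only [sg, if_true]; ring)
      (fun g => by rw [hDD, abs_neg]; exact (hE g).1)
      (fun g => by rw [hDD, hHH]; exact (hE g).2) hrk hdep hJ1 hJ (Sum.inr (g0, c0))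
    linarith
  · exact upper_depth hd true hsrc
      (fun g => by rw [hout (g, true)]; simp only [sg, if_true]; ring)
      (fun g => by rw [Bool.not_true, hout (g, false)]; simp only [sg, Bool.false_eq_true,
        if_false]; ring)
      (fun g => (hE g).1) (fun g => (hE g).2) hrk hdep hJ1 hJ _

/-- Every chain of comparators of `C` has at most `dep` members: there is a rank function with
values below `dep` which increases along every arc between comparators. -/
def DepthLe (C : CompCircuit n m) (dep : ℕ) : Prop :=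
  ∃ rk : Fin m → ℕ, (∀ g, rk g < dep) ∧
    ∀ g b h c, C.inp (g, b) = Sum.inr (h, c) → rk h < rk g

/-- A comparator circuit with `m` comparators has depth at most `m`. -/
theorem depthLe_self (C : CompCircuit n m) : DepthLe C m := by
  classical
  obtain ⟨ord, hord⟩ := C.acyclic
  refine ⟨fun g => (univ.filter (fun h => ord h < ord g)).card, fun g => ?_,
    fun g b h c hb => ?_⟩
  · have h1 : (univ.filter (fun h => ord h < ord g)) ⊂ (univ : Finset (Fin m)) := by
      rw [Finset.ssubset_iff_of_subset (Finset.filter_subset _ _)]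
      exact ⟨g, mem_univ g, by simp⟩
    have h2 := Finset.card_lt_card h1
    rwa [Finset.card_univ, Fintype.card_fin] at h2
  · have h0 := hord g b h c hb
    apply Finset.card_lt_card
    rw [Finset.ssubset_iff_of_subset]
    · exact ⟨h, by simp [h0], by simp⟩
    · intro x hx
      rw [mem_filter] at hx ⊢
      exact ⟨hx.1, lt_trans hx.2 h0⟩

theorem DepthLe.mono {C : CompCircuit n m} {d d' : ℕ} (h : DepthLe C d) (hd : d ≤ d') :
    DepthLe C d' := by
  obtain ⟨rk, h1, h2⟩ := h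
  exact ⟨rk, fun g => lt_of_lt_of_le (h1 g) hd, h2⟩

/-- The drift bound in terms of the depth. -/
theorem drifts_depth {C : CompCircuit n m} {dep q L : ℕ} (hC : DepthLe C dep)
    (hq : dep ≤ q ^ 2) (hL : n + 2 ≤ 2 ^ L) : Drifts C ((q * (L + 1) : ℕ) : ℝ) := by
  intro d e E hd hs ho hlo hup a
  obtain ⟨rk, h1, h2⟩ := hC
  refine drift_depth hd hs ho (fun g => ⟨hlo g, hup g⟩) h2 h1 (by positivity) ?_ a
  have e1 : Real.log ((n : ℝ) + 2) ≤ L * (7 / 10) := by
    have h3 : ((n : ℝ) + 2) ≤ 2 ^ L := by exact_mod_cast hL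
    have h4 : Real.log ((n : ℝ) + 2) ≤ Real.log (2 ^ L) := Real.log_le_log (by positivity) h3
    rw [Real.log_pow] at h4
    have h5 := Real.log_two_lt_d9
    have h6 : (L : ℝ) * Real.log 2 ≤ L * (7 / 10) :=
      mul_le_mul_of_nonneg_left (by linarith) (by positivity)
    linarith
  have e2 : (dep : ℝ) ≤ (q : ℝ) ^ 2 := by exact_mod_cast hq
  have e3 : (0 : ℝ) ≤ L := by positivity
  have e4 : (0 : ℝ) ≤ Real.log ((n : ℝ) + 2) :=
    Real.log_nonneg (by have : (0 : ℝ) ≤ n := by positivity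
                        linarith)
  push_cast
  calc 2 * (dep : ℝ) * Real.log ((n : ℝ) + 2)
      ≤ 2 * (q : ℝ) ^ 2 * (L * (7 / 10)) := by
        apply mul_le_mul _ e1 e4 (by positivity)
        linarith
    _ ≤ ((q : ℝ) * (L + 1)) ^ 2 := by
        have : (0 : ℝ) ≤ (q : ℝ) ^ 2 := by positivity
        have h7 : 2 * (L * (7 / 10 : ℝ)) ≤ ((L : ℝ) + 1) ^ 2 := by nlinarith
        calc 2 * (q : ℝ) ^ 2 * (L * (7 / 10)) = (q : ℝ) ^ 2 * (2 * (L * (7 / 10))) := by ring
          _ ≤ (q : ℝ) ^ 2 * ((L : ℝ) + 1) ^ 2 := mul_le_mul_of_nonneg_left h7 this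
          _ = _ := by ring

end Pool.Agent.LibCC89
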