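import Pool.Agent.LibCC89.DriftDepth

/-!
Third drift lemma: only one of the two inputs of a comparator has to pay for the growth of the
exponential potential, hence the drift is bounded by the square root of the number of forest
layers.
-/

namespace Pool.Agent.LibCC89

open Pool.Agent.LibCC Pool.Agent.LibCCS Pool.Agent.LibCC67 Finset

variable {n m : ℕ}

theorem sinh_le_mul_exp {t : ℝ} (ht : 0 ≤ t) : Real.sinh t ≤ t * Real.exp t := by
  have h1 := sinh_le_mul_cosh ht
  have h2 : Real.cosh t ≤ Real.exp t := by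
    rw [Real.cosh_eq]
    have : Real.exp (-t) ≤ Real.exp t := Real.exp_le_exp.mpr (by linarith)
    linarith
  exact le_trans h1 (mul_le_mul_of_nonneg_left h2 ht)

theorem one_add_mul_exp_le {t : ℝ} (ht : 0 ≤ t) : (1 + t) * Real.exp (-(t / 2)) ≤ 4 / 3 := by
  have h1 := Real.quadratic_le_exp_of_nonneg (show 0 ≤ t / 2 by linarith)
  have h2 : 1 + t ≤ 4 / 3 * Real.exp (t / 2) := by nlinarith [sq_nonneg (t - 1)]
  have h3 : Real.exp (t / 2) * Real.exp (-(t / 2)) = 1 := by rw [← Real.exp_add]; simp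
  have h4 := mul_le_mul_of_nonneg_right h2 (Real.exp_pos (-(t / 2))).le
  rw [mul_assoc, h3] at h4
  linarith

/-- The numerical inequality behind `exp_gate_one`. -/
theorem log_mul_exp_le {t u : ℝ} (ht : 0 ≤ t) (hu : u ≤ 1 / 2) :
    Real.log (1 + Real.exp (-t)) * (t + Real.log (1 + Real.exp (-t))) *
      Real.exp (u * (t + Real.log (1 + Real.exp (-t)))) ≤ 2 := by
  set l := Real.log (1 + Real.exp (-t)) with hl
  have hl0 : 0 ≤ l := Real.log_nonneg (by have := Real.exp_pos (-t); linarith)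
  have hl1 : l ≤ Real.exp (-t) := log_one_add_exp_le t
  have hl2 : Real.exp (-t) ≤ 1 := Real.exp_le_one_iff.mpr (by linarith)
  have h1 : Real.exp (u * (t + l)) ≤ Real.exp ((t + l) / 2) := by
    apply Real.exp_le_exp.mpr
    have := mul_le_mul_of_nonneg_right hu (show 0 ≤ t + l by linarith)
    linarith
  have h2 : Real.exp (l / 2) ≤ 3 / 2 := by
    have e1 : Real.exp (l / 2) ^ 2 = 1 + Real.exp (-t) := by
      rw [← Real.exp_nat_mul]
      have : ((2 : ℕ) : ℝ) * (l / 2) = l := by push_cast; ring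
      rw [this, hl, Real.exp_log (by positivity)]
    have e2 := Real.exp_pos (l / 2)
    by_contra hc
    rw [not_le] at hc
    nlinarith
  have h3 : Real.exp ((t + l) / 2) = Real.exp (t / 2) * Real.exp (l / 2) := by
    rw [← Real.exp_add]
    congr 1
    ring
  have h4 : Real.exp (-t) * Real.exp (t / 2) = Real.exp (-(t / 2)) := by
    rw [← Real.exp_add]
    congr 1
    ring
  have h5 := one_add_mul_exp_le ht
  have h6 := Real.exp_pos (-t)
  have h7 := Real.exp_pos (t / 2)
  have h8 := Real.exp_pos (l / 2)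
  calc l * (t + l) * Real.exp (u * (t + l))
      ≤ l * (t + l) * (Real.exp (t / 2) * Real.exp (l / 2)) := by
        rw [← h3]
        exact mul_le_mul_of_nonneg_left h1 (by positivity)
    _ ≤ Real.exp (-t) * (1 + t) * (Real.exp (t / 2) * (3 / 2)) := by
        apply mul_le_mul
        · apply mul_le_mul hl1 (by linarith) (by linarith) h6.le
        · exact mul_le_mul_of_nonneg_left h2 h7.le
        · positivity
        · positivity
    _ = 3 / 2 * ((1 + t) * (Real.exp (-t) * Real.exp (t / 2))) := by ring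
    _ = 3 / 2 * ((1 + t) * Real.exp (-(t / 2))) := by rw [h4]
    _ ≤ 3 / 2 * (4 / 3) := by linarith
    _ = 2 := by norm_num

/-- The growth of the hyperbolic cosine, multiplied by the exponential of the difference. -/
theorem cosh_growth {θ d h : ℝ} (hd : 0 < d) (hθ : 0 ≤ θ) (hθd : θ * d ≤ 1 / 2) (hh : 0 ≤ h) :
    2 * (Real.cosh (θ * H d h / 2) - Real.cosh (θ * h / 2)) * Real.exp (θ * h / 2) ≤
      2 * θ ^ 2 * d ^ 2 := by
  set t := h / d with ht
  have ht0 : 0 ≤ t := by positivity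
  have h1 : h = d * t := by rw [ht]; field_simp
  set l := Real.log (1 + Real.exp (-t)) with hl
  have hl0 : 0 ≤ l := Real.log_nonneg (by have := Real.exp_pos (-t); linarith)
  have hH : H d h = h + 2 * d * l := by rw [H, abs_of_nonneg hh]
  have h2 : Real.cosh (θ * H d h / 2) - Real.cosh (θ * h / 2) =
      2 * Real.sinh (θ * (h + d * l) / 2) * Real.sinh (θ * (d * l) / 2) := by
    have e1 : θ * H d h / 2 = θ * (h + d * l) / 2 + θ * (d * l) / 2 := by rw [hH]; ring
    have e2 : θ * h / 2 = θ * (h + d * l) / 2 - θ * (d * l) / 2 := by ring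
    rw [e1, e2, Real.cosh_add, Real.cosh_sub]
    ring
  have h3 : Real.sinh (θ * (h + d * l) / 2) ≤
      θ * (h + d * l) / 2 * Real.exp (θ * (h + d * l) / 2) := sinh_le_mul_exp (by positivity)
  have h4 : Real.sinh (θ * (d * l) / 2) ≤ θ * (d * l) / 2 * Real.exp (θ * (d * l) / 2) :=
    sinh_le_mul_exp (by positivity)
  have h5 : 0 ≤ Real.sinh (θ * (d * l) / 2) := Real.sinh_nonneg_iff.mpr (by positivity)
  have h6 : Real.sinh (θ * (h + d * l) / 2) * Real.sinh (θ * (d * l) / 2) ≤
      (θ * (h + d * l) / 2 * Real.exp (θ * (h + d * l) / 2)) *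
        (θ * (d * l) / 2 * Real.exp (θ * (d * l) / 2)) := by
    apply mul_le_mul h3 h4 h5
    have := Real.exp_pos (θ * (h + d * l) / 2)
    positivity
  have h7 := log_mul_exp_le (u := θ * d) ht0 hθd
  rw [← hl] at h7
  have h8 : Real.exp (θ * (h + d * l) / 2) * Real.exp (θ * (d * l) / 2) * Real.exp (θ * h / 2) =
      Real.exp (θ * d * (t + l)) := by
    rw [← Real.exp_add, ← Real.exp_add]
    congr 1
    rw [h1]
    ring
  have h9 := Real.exp_pos (θ * h / 2)
  rw [h2]
  calc 2 * (2 * Real.sinh (θ * (h + d * l) / 2) * Real.sinh (θ * (d * l) / 2)) *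
        Real.exp (θ * h / 2)
      = 4 * (Real.sinh (θ * (h + d * l) / 2) * Real.sinh (θ * (d * l) / 2)) *
        Real.exp (θ * h / 2) := by ring
    _ ≤ 4 * ((θ * (h + d * l) / 2 * Real.exp (θ * (h + d * l) / 2)) *
        (θ * (d * l) / 2 * Real.exp (θ * (d * l) / 2))) * Real.exp (θ * h / 2) := by
        apply mul_le_mul_of_nonneg_right _ h9.le
        linarith
    _ = θ ^ 2 * d * (h + d * l) * l * (Real.exp (θ * (h + d * l) / 2) *
        Real.exp (θ * (d * l) / 2) * Real.exp (θ * h / 2)) := by ring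
    _ = θ ^ 2 * d ^ 2 * (l * (t + l) * Real.exp (θ * d * (t + l))) := by
        rw [h8, h1]
        ring
    _ ≤ θ ^ 2 * d ^ 2 * 2 := mul_le_mul_of_nonneg_left h7 (by positivity)
    _ = _ := by ring

/-- The exponential potential of one comparator: one input pays. -/
theorem exp_gate_one {θ d s h E : ℝ} (hd : 0 < d) (hθ : 0 ≤ θ) (hθd : θ * d ≤ 1 / 2)
    (hlo : -|h| ≤ E) (hup : E ≤ H d h) :
    Real.exp (θ * ((s + E) / 2)) + Real.exp (θ * ((s - E) / 2)) ≤
      Real.exp (θ * ((s + h) / 2)) +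
        Real.exp (2 * θ ^ 2 * d ^ 2) * Real.exp (θ * ((s - h) / 2)) := by
  have key : ∀ y : ℝ, Real.exp (θ * ((s + y) / 2)) + Real.exp (θ * ((s - y) / 2)) =
      2 * Real.exp (θ * s / 2) * Real.cosh (θ * y / 2) := by
    intro y
    rw [Real.cosh_eq]
    have e1 : θ * ((s + y) / 2) = θ * s / 2 + θ * y / 2 := by ring
    have e2 : θ * ((s - y) / 2) = θ * s / 2 + -(θ * y / 2) := by ring
    rw [e1, e2, Real.exp_add, Real.exp_add]
    ring
  have hHpos : 0 ≤ H d h := le_trans (abs_nonneg h) (H_ge hd.le h)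
  have hE : |E| ≤ H d h := by
    rw [abs_le]
    have := H_ge hd.le h
    constructor <;> linarith
  have h1 : Real.cosh (θ * E / 2) ≤ Real.cosh (θ * H d |h| / 2) := by
    have e1 : H d |h| = H d h := by simp only [H, abs_abs]
    rw [e1, Real.cosh_le_cosh, abs_div, abs_div, abs_mul, abs_mul, abs_of_nonneg hHpos]
    have := mul_le_mul_of_nonneg_left hE (abs_nonneg θ)
    gcongr
  have h2 := cosh_growth hd hθ hθd (abs_nonneg h)
  have h3 : Real.cosh (θ * |h| / 2) = Real.cosh (θ * h / 2) := by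
    rcases abs_cases h with ⟨h4, _⟩ | ⟨h4, _⟩
    · rw [h4]
    · rw [h4]
      have : θ * -h / 2 = -(θ * h / 2) := by ring
      rw [this, Real.cosh_neg]
  rw [h3] at h2
  have h4 : 2 * θ ^ 2 * d ^ 2 ≤ Real.exp (2 * θ ^ 2 * d ^ 2) - 1 := by
    have := Real.add_one_le_exp (2 * θ ^ 2 * d ^ 2)
    linarith
  have h5 : Real.exp (θ * s / 2) * Real.exp (-(θ * |h| / 2)) ≤
      Real.exp (θ * ((s - h) / 2)) := by
    rw [← Real.exp_add]
    apply Real.exp_le_exp.mpr
    have := mul_le_mul_of_nonneg_left (le_abs_self h) hθ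
    linarith
  have h6 : 2 * (Real.cosh (θ * E / 2) - Real.cosh (θ * h / 2)) ≤
      (Real.exp (2 * θ ^ 2 * d ^ 2) - 1) * Real.exp (-(θ * |h| / 2)) := by
    have e1 : Real.exp (θ * |h| / 2) * Real.exp (-(θ * |h| / 2)) = 1 := by
      rw [← Real.exp_add]; simp
    have e2 := Real.exp_pos (-(θ * |h| / 2))
    have e3 := mul_le_mul_of_nonneg_right (le_trans h2 h4) e2.le
    rw [mul_assoc, e1, mul_one] at e3
    linarith
  have h7 := Real.exp_pos (θ * s / 2)
  have h8 := mul_le_mul_of_nonneg_left h6 h7.le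
  have h9 : Real.exp (θ * s / 2) * ((Real.exp (2 * θ ^ 2 * d ^ 2) - 1) *
      Real.exp (-(θ * |h| / 2))) ≤
      (Real.exp (2 * θ ^ 2 * d ^ 2) - 1) * Real.exp (θ * ((s - h) / 2)) := by
    have e1 : 0 ≤ Real.exp (2 * θ ^ 2 * d ^ 2) - 1 := by
      have : 0 ≤ 2 * θ ^ 2 * d ^ 2 := by positivity
      linarith
    have e2 := mul_le_mul_of_nonneg_left h5 e1
    linarith
  have k1 := key E
  have k2 := key h
  nlinarith

/-- The potential does not grow. -/
theorem potential_one {C : CompCircuit n m} {e : Arc n m → ℝ} {E : Fin m → ℝ} {d θ K : ℝ}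
    (hd : 0 < d) (hθ : 0 ≤ θ) (hθd : θ * d ≤ 1 / 2) (hK : 2 * θ ^ 2 * d ^ 2 = K) (σ : Bool)
    (hsrc : ∀ i, e (Sum.inl i) = 0)
    (hout : ∀ g, e (Sum.inr (g, σ)) = (Sx C e g + E g) / 2)
    (hout' : ∀ g, e (Sum.inr (g, !σ)) = (Sx C e g - E g) / 2)
    (hlo : ∀ g, -|Dx C e g| ≤ E g) (hup : ∀ g, E g ≤ H d (Dx C e g))
    {rk : Fin m → ℕ} (hrk : ∀ g b h c, C.inp (g, b) = Sum.inr (h, c) → rk h ≤ rk g)
    (hone : ∀ g, ∃ b, ∀ h c, C.inp (g, b) = Sum.inr (h, c) → rk h < rk g) :
    ∀ Gs, Dn C Gs → ∑ a ∈ Av C Gs, Real.exp (θ * e a - K * ra rk a) ≤ n := by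
  classical
  have hK0 : 0 ≤ K := by rw [← hK]; positivity
  apply Dn.induction
  · have h1 : Av C ∅ = univ.map ⟨Sum.inl, Sum.inl_injective⟩ := by
      ext a
      rw [mem_Av]
      rcases a with i | ⟨h, c⟩ <;> simp
    rw [h1, sum_map]
    simp [hsrc, ra]
  · rintro Gs g hD hg hin ih ho
    rw [sum_Av_insert hg hD hin ho (fun a => Real.exp (θ * e a - K * ra rk a))]
    have hra : ∀ b, ra rk (C.inp (g, b)) ≤ rk g + 1 := by
      intro b
      rcases hb : C.inp (g, b) with i | ⟨h, c⟩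
      · simp only [ra, Sum.elim_inl]
        positivity
      · have := hrk g b h c hb
        simp only [ra, Sum.elim_inr]
        have h2 : ((rk h : ℕ) : ℝ) ≤ rk g := by exact_mod_cast this
        linarith
    obtain ⟨b0, hb0⟩ := hone g
    have hra0 : ra rk (C.inp (g, b0)) ≤ rk g := by
      rcases hb : C.inp (g, b0) with i | ⟨h, c⟩
      · simp [ra]
      · have := hb0 h c hb
        simp only [ra, Sum.elim_inr]
        exact_mod_cast this
    have e1 : (Sx C e g + Dx C e g) / 2 = e (C.inp (g, false)) := by simp only [Sx, Dx]; ring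
    have e2 : (Sx C e g - Dx C e g) / 2 = e (C.inp (g, true)) := by simp only [Sx, Dx]; ring
    have hgate : Real.exp (θ * e (Sum.inr (g, σ))) + Real.exp (θ * e (Sum.inr (g, !σ))) ≤
        Real.exp (θ * e (C.inp (g, !b0))) + Real.exp K * Real.exp (θ * e (C.inp (g, b0))) := by
      cases b0
      · have h1 := exp_gate_one (θ := θ) (s := Sx C e g) (h := -Dx C e g) (E := E g) hd hθ hθd
          (by rw [abs_neg]; exact hlo g)
          (by have : H d (-Dx C e g) = H d (Dx C e g) := by simp only [H, abs_neg]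
              rw [this]; exact hup g)
        rw [← hout g, ← hout' g, hK] at h1
        have e3 : (Sx C e g + -Dx C e g) / 2 = e (C.inp (g, true)) := by
          simp only [Sx, Dx]; ring
        have e4 : (Sx C e g - -Dx C e g) / 2 = e (C.inp (g, false)) := by
          simp only [Sx, Dx]; ring
        rw [e3, e4] at h1
        simpa using h1
      · have h1 := exp_gate_one (θ := θ) (s := Sx C e g) (h := Dx C e g) (E := E g) hd hθ hθd
          (hlo g) (hup g)
        rw [← hout g, ← hout' g, hK, e1, e2] at h1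
        simpa using h1
    have e3 : Real.exp (θ * e (Sum.inr (g, true)) - K * ra (n := n) rk (Sum.inr (g, true))) +
        Real.exp (θ * e (Sum.inr (g, false)) - K * ra (n := n) rk (Sum.inr (g, false))) =
        Real.exp (-(K * (rk g + 1))) *
          (Real.exp (θ * e (Sum.inr (g, σ))) + Real.exp (θ * e (Sum.inr (g, !σ)))) := by
      have hx : ∀ b, Real.exp (θ * e (Sum.inr (g, b)) - K * ra (n := n) rk (Sum.inr (g, b))) =
          Real.exp (-(K * (rk g + 1))) * Real.exp (θ * e (Sum.inr (g, b))) := by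
        intro b
        simp only [ra, Sum.elim_inr]
        rw [← Real.exp_add]
        congr 1
        ring
      rw [hx, hx]
      cases σ
      · simp only [Bool.not_false]
        ring
      · simp only [Bool.not_true]
        ring
    have e5 : Real.exp (-(K * (rk g + 1))) * Real.exp (θ * e (C.inp (g, !b0))) ≤
        Real.exp (θ * e (C.inp (g, !b0)) - K * ra rk (C.inp (g, !b0))) := by
      rw [← Real.exp_add]
      apply Real.exp_le_exp.mpr
      have := mul_le_mul_of_nonneg_left (hra (!b0)) hK0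
      linarith
    have e6 : Real.exp (-(K * (rk g + 1))) * (Real.exp K * Real.exp (θ * e (C.inp (g, b0)))) ≤
        Real.exp (θ * e (C.inp (g, b0)) - K * ra rk (C.inp (g, b0))) := by
      rw [← Real.exp_add, ← Real.exp_add]
      apply Real.exp_le_exp.mpr
      have := mul_le_mul_of_nonneg_left hra0 hK0
      linarith
    have e7 := mul_le_mul_of_nonneg_left hgate (Real.exp_pos (-(K * (rk g + 1)))).le
    have e8 : Real.exp (θ * e (C.inp (g, !b0)) - K * ra rk (C.inp (g, !b0))) +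
        Real.exp (θ * e (C.inp (g, b0)) - K * ra rk (C.inp (g, b0))) =
        Real.exp (θ * e (C.inp (g, false)) - K * ra rk (C.inp (g, false))) +
        Real.exp (θ * e (C.inp (g, true)) - K * ra rk (C.inp (g, true))) := by
      cases b0
      · simp only [Bool.not_false]; ring
      · simp only [Bool.not_true]
    rw [mul_add] at e7
    linarith

theorem upper_forest {C : CompCircuit n m} {e : Arc n m → ℝ} {E : Fin m → ℝ} {d J : ℝ} {s : ℕ}
    (hd : 0 < d) (σ : Bool) (hsrc : ∀ i, e (Sum.inl i) = 0)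
    (hout : ∀ g, e (Sum.inr (g, σ)) = (Sx C e g + E g) / 2)
    (hout' : ∀ g, e (Sum.inr (g, !σ)) = (Sx C e g - E g) / 2)
    (hlo : ∀ g, -|Dx C e g| ≤ E g) (hup : ∀ g, E g ≤ H d (Dx C e g))
    {rk : Fin m → ℕ} (hrk : ∀ g b h c, C.inp (g, b) = Sum.inr (h, c) → rk h ≤ rk g)
    (hone : ∀ g, ∃ b, ∀ h c, C.inp (g, b) = Sum.inr (h, c) → rk h < rk g)
    (hs : ∀ g, rk g < s) (hJ0 : 4 * Real.log (n + 2) ≤ J)
    (hJ : 8 * s * Real.log (n + 2) ≤ J ^ 2)
    (a : Arc n m) : e a ≤ d * J := by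
  classical
  set l := Real.log (n + 2) with hl
  have hn0 : (0 : ℝ) ≤ n := by positivity
  have hl0 : 0 < l := Real.log_pos (by linarith)
  have hJpos : 0 < J := by linarith
  set θ := 2 * l / (d * J) with hθ
  have hθ0 : 0 < θ := by positivity
  have hθd : θ * d ≤ 1 / 2 := by
    have e1 : θ * d = 2 * l / J := by
      rw [hθ]
      field_simp
    rw [e1, div_le_iff₀ hJpos]
    linarith
  obtain ⟨Gs, hD, ha⟩ := exists_dn C a
  have h1 := potential_one (K := 2 * θ ^ 2 * d ^ 2) hd hθ0.le hθd rfl σ hsrc hout hout' hlo hup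
    hrk hone Gs hD
  have h2 : Real.exp (θ * e a - 2 * θ ^ 2 * d ^ 2 * ra rk a) ≤ n :=
    le_trans (single_le_sum (f := fun a => Real.exp (θ * e a - 2 * θ ^ 2 * d ^ 2 * ra rk a))
      (fun _ _ => (Real.exp_pos _).le) ha) h1
  have h3 : θ * e a - 2 * θ ^ 2 * d ^ 2 * ra rk a ≤ l := by
    rw [hl, Real.le_log_iff_exp_le (by positivity)]
    linarith
  have h4 : ra rk a ≤ s := by
    rcases a with i | ⟨g, c⟩
    · simp [ra]
    · simp only [ra, Sum.elim_inr]
      exact_mod_cast hs g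
  have h5 : 2 * θ ^ 2 * d ^ 2 * s ≤ l := by
    have e1 : 2 * θ ^ 2 * d ^ 2 * s = 8 * s * l * l / J ^ 2 := by
      rw [hθ]
      field_simp
      ring
    rw [e1, div_le_iff₀ (by positivity)]
    have := mul_le_mul_of_nonneg_right hJ hl0.le
    linarith
  have h6 : 2 * θ ^ 2 * d ^ 2 * ra rk a ≤ 2 * θ ^ 2 * d ^ 2 * s :=
    mul_le_mul_of_nonneg_left h4 (by positivity)
  have h7 : θ * e a ≤ θ * (d * J) := by
    have e1 : θ * (d * J) = 2 * l := by
      rw [hθ]
      field_simp
    rw [e1]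
    linarith
  exact le_of_mul_le_mul_left h7 hθ0

/-- Third drift lemma. -/
theorem drift_forest {C : CompCircuit n m} {e : Arc n m → ℝ} {E : Fin m → ℝ} {d J : ℝ} {s : ℕ}
    (hd : 0 < d) (hsrc : ∀ i, e (Sum.inl i) = 0)
    (hout : ∀ a : Fin m × Bool, e (Sum.inr a) = (Sx C e a.1 + sg a.2 * E a.1) / 2)
    (hE : ∀ g, -|Dx C e g| ≤ E g ∧ E g ≤ H d (Dx C e g))
    {rk : Fin m → ℕ} (hrk : ∀ g b h c, C.inp (g, b) = Sum.inr (h, c) → rk h ≤ rk g)
    (hone : ∀ g, ∃ b, ∀ h c, C.inp (g, b) = Sum.inr (h, c) → rk h < rk g)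
    (hs : ∀ g, rk g < s) (hJ0 : 4 * Real.log (n + 2) ≤ J)
    (hJ : 8 * s * Real.log (n + 2) ≤ J ^ 2)
    (a : Arc n m) : |e a| ≤ d * J := by
  have hn0 : (0 : ℝ) ≤ n := by positivity
  have hl0 : 0 < Real.log ((n : ℝ) + 2) := Real.log_pos (by linarith)
  rcases a with i | ⟨g0, c0⟩
  · rw [hsrc i, abs_zero]
    have : 0 < J := by linarith
    positivity
  rw [abs_le]
  constructor
  · have hS : ∀ g, Sx C (fun a => -e a) g = -Sx C e g := fun g => by simp only [Sx]; ring
    have hDD : ∀ g, Dx C (fun a => -e a) g = -Dx C e g := fun g => by simp only [Dx]; ring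
    have hHH : ∀ y, H d (-y) = H d y := fun y => by simp only [H, abs_neg]
    have h1 := upper_forest (C := C) (e := fun a => -e a) (E := E) hd false
      (fun i => by simp [hsrc i])
      (fun g => by rw [hS, hout (g, false)]; simp only [sg, Bool.false_eq_true, if_false]; ring)
      (fun g => by rw [hS, Bool.not_false, hout (g, true)]; simp only [sg, if_true]; ring)
      (fun g => by rw [hDD, abs_neg]; exact (hE g).1)
      (fun g => by rw [hDD, hHH]; exact (hE g).2) hrk hone hs hJ0 hJ (Sum.inr (g0, c0))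
    linarith
  · exact upper_forest hd true hsrc
      (fun g => by rw [hout (g, true)]; simp only [sg, if_true]; ring)
      (fun g => by rw [Bool.not_true, hout (g, false)]; simp only [sg, Bool.false_eq_true,
        if_false]; ring)
      (fun g => (hE g).1) (fun g => (hE g).2) hrk hone hs hJ0 hJ _

/-- The comparators of `C` fall into `s` consecutive layers, each of which is a forest: every
comparator has an input port which is fed by a source or by an earlier layer. -/
def ForestLe (C : CompCircuit n m) (s : ℕ) : Prop :=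
  ∃ rk : Fin m → ℕ, (∀ g, rk g < s) ∧
    (∀ g b h c, C.inp (g, b) = Sum.inr (h, c) → rk h ≤ rk g) ∧
    ∀ g, ∃ b, ∀ h c, C.inp (g, b) = Sum.inr (h, c) → rk h < rk g

theorem DepthLe.forestLe {C : CompCircuit n m} {s : ℕ} (h : DepthLe C s) : ForestLe C s := by
  obtain ⟨rk, h1, h2⟩ := h
  exact ⟨rk, h1, fun g b h c hh => (h2 g b h c hh).le, fun g => ⟨true, fun h c hh => h2 g _ h c hh⟩⟩

theorem ForestLe.mono {C : CompCircuit n m} {s s' : ℕ} (h : ForestLe C s) (hs : s ≤ s') :
    ForestLe C s' := by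
  obtain ⟨rk, h1, h2⟩ := h
  exact ⟨rk, fun g => lt_of_lt_of_le (h1 g) hs, h2⟩

/-- The drift bound in terms of the number of forest layers. -/
theorem drifts_forest {C : CompCircuit n m} {s q L : ℕ} (hC : ForestLe C s) (hq1 : 1 ≤ q)
    (hq : s ≤ q ^ 2) (hL : n + 2 ≤ 2 ^ L) : Drifts C ((3 * q * (L + 1) : ℕ) : ℝ) := by
  intro d e E hd hs ho hlo hup a
  obtain ⟨rk, h1, h2, h3⟩ := hC
  have e1 : Real.log ((n : ℝ) + 2) ≤ L * (7 / 10) := by
    have h3 : ((n : ℝ) + 2) ≤ 2 ^ L := by exact_mod_cast hL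
    have h4 : Real.log ((n : ℝ) + 2) ≤ Real.log (2 ^ L) := Real.log_le_log (by positivity) h3
    rw [Real.log_pow] at h4
    have h5 := Real.log_two_lt_d9
    have h6 : (L : ℝ) * Real.log 2 ≤ L * (7 / 10) :=
      mul_le_mul_of_nonneg_left (by linarith) (by positivity)
    linarith
  have e2 : (s : ℝ) ≤ (q : ℝ) ^ 2 := by exact_mod_cast hq
  have e3 : (0 : ℝ) ≤ L := by positivity
  have e4 : (0 : ℝ) ≤ Real.log ((n : ℝ) + 2) :=
    Real.log_nonneg (by have : (0 : ℝ) ≤ n := by positivity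
                        linarith)
  have e5 : (1 : ℝ) ≤ q := by exact_mod_cast hq1
  refine drift_forest hd hs ho (fun g => ⟨hlo g, hup g⟩) h2 h3 h1 ?_ ?_ a
  · push_cast
    calc 4 * Real.log ((n : ℝ) + 2) ≤ 4 * (L * (7 / 10)) := by linarith
      _ ≤ 3 * 1 * ((L : ℝ) + 1) := by linarith
      _ ≤ 3 * (q : ℝ) * ((L : ℝ) + 1) := by
        apply mul_le_mul_of_nonneg_right _ (by positivity)
        linarith
  · push_cast
    calc 8 * (s : ℝ) * Real.log ((n : ℝ) + 2)
        ≤ 8 * (q : ℝ) ^ 2 * (L * (7 / 10)) := by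
          apply mul_le_mul _ e1 e4 (by positivity)
          linarith
      _ ≤ (3 * (q : ℝ) * (L + 1)) ^ 2 := by
          have : (0 : ℝ) ≤ (q : ℝ) ^ 2 := by positivity
          have h7 : 8 * (L * (7 / 10 : ℝ)) ≤ 9 * ((L : ℝ) + 1) ^ 2 := by nlinarith
          calc 8 * (q : ℝ) ^ 2 * (L * (7 / 10)) = (q : ℝ) ^ 2 * (8 * (L * (7 / 10))) := by ring
            _ ≤ (q : ℝ) ^ 2 * (9 * ((L : ℝ) + 1) ^ 2) := mul_le_mul_of_nonneg_left h7 this
            _ = _ := by ring

end Pool.Agent.LibCC89
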