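import Pool.Agent.LibCC89.Solve
import Pool.Agent.LibCCV.Defs

/-!
The integer machine that follows the states of a smoothed comparator network: definitions,
depth and size. The tables `zt` (half slopes) and `wt` (half offsets) are arbitrary.
-/

namespace Pool.Agent.LibCC89

open Pool.Agent.LibCC Pool.Agent.LibCCV

variable {n m : ℕ}

/-- A word read as a bit. -/
def tb (z : ℤ) : ℤ := if z = 1 then 1 else 0

theorem tb_b2i (b : Bool) : tb (b2i b) = b2i b := by cases b <;> simp [tb]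

theorem tb_cases (z : ℤ) : tb z = 0 ∨ tb z = 1 := by
  unfold tb
  by_cases h : z = 1
  · right; rw [if_pos h]
  · left; rw [if_neg h]

theorem abs_tb_mul_le (z w : ℤ) : |tb z * w| ≤ |w| := by
  rcases tb_cases z with h | h <;> rw [h] <;> simp

/-- Sign of an outgoing arc. -/
def sgz (c : Bool) : ℤ := if c then 1 else -1

theorem abs_sgz_mul (c : Bool) (z : ℤ) : |sgz c * z| = |z| := by
  cases c <;> simp [sgz]

/-! ### The parts of a step -/

/-- The word on the arc that enters the port `p`. -/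
def selZ (B : ℤ) (u : Bit n m → ℤ) (s : Arc n m → ℤ) (p : Fin m × Bool) : ℤ :=
  ∑ e, tb (u (.link p e)) * cl B (s e)

/-- Difference at a comparator. -/
def difZ (B : ℤ) (u : Bit n m → ℤ) (s : Arc n m → ℤ) (g : Fin m) : ℤ :=
  selZ B u s (g, false) - selZ B u s (g, true)

/-- Entry of the matrix, scale `2 R'`. -/
def matE (R' : ℤ) (u : Bit n m → ℤ) (z : Fin m → ℤ) (e f : Arc n m) : ℤ :=
  match e with
  | Sum.inl _ => 0
  | Sum.inr a => tb (u (.link (a.1, false) f)) * (R' + sgz a.2 * cl R' (z a.1)) +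
        tb (u (.link (a.1, true) f)) * (R' - sgz a.2 * cl R' (z a.1))

/-- Entry of the vector. -/
def vecE (Y' A : ℤ) (u : Bit n m → ℤ) (w : Fin m → ℤ) (e : Arc n m) : ℤ :=
  match e with
  | Sum.inl i => tb (u (.src i)) * A
  | Sum.inr a => sgz a.2 * cl Y' (w a.1)

/-- The values of the arcs computed from slopes and offsets. -/
def lin (R' Y Y' : ℤ) (J : ℕ) (A : ℤ) (u : Bit n m → ℤ) (z w : Fin m → ℤ) : Arc n m → ℤ :=
  solve (2 * R') Y J (fun p => matE R' u z p.1 p.2) (vecE Y' A u w)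

/-- New differences from the anchor `b` and the old differences `c`. -/
def inD (R' Y Y' : ℤ) (J : ℕ) (zt : ℤ → ℤ) (wt : ℤ → ℤ → ℤ) (A : ℤ) (u : Bit n m → ℤ)
    (b c : Fin m → ℤ) : Fin m → ℤ :=
  difZ Y u (lin R' Y Y' J A u (fun g => zt (b g)) (fun g => wt (b g) (c g)))

/-- One step: `K` inner steps with the same anchor. -/
def outD (R' Y Y' : ℤ) (J K : ℕ) (zt : ℤ → ℤ) (wt : ℤ → ℤ → ℤ) (A : ℤ) (u : Bit n m → ℤ)
    (b : Fin m → ℤ) : Fin m → ℤ :=
  (inD R' Y Y' J zt wt A u b)^[K] b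

/-- The differences after `j` steps with the tables `zt j`, `wt j` and the amplitudes `A j`. -/
def trajD (R' Y Y' : ℤ) (J K : ℕ) (zt : ℕ → ℤ → ℤ) (wt : ℕ → ℤ → ℤ → ℤ) (A : ℕ → ℤ)
    (u : Bit n m → ℤ) : ℕ → Fin m → ℤ
  | 0 => fun _ => 0
  | j + 1 => outD R' Y Y' J K (zt j) (wt j) (A j) u (trajD R' Y Y' J K zt wt A u j)

/-- The values of the arcs at the end. -/
def finX (R' Y Y' : ℤ) (J K : ℕ) (zt : ℕ → ℤ → ℤ) (wt : ℕ → ℤ → ℤ → ℤ) (A : ℕ → ℤ) (H : ℕ)
    (u : Bit n m → ℤ) : Arc n m → ℤ :=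
  let b := trajD R' Y Y' J K zt wt A u H
  lin R' Y Y' J (A H) u (fun g => zt H (b g)) (fun g => wt H (b g) (b g))

/-- The output cell. -/
def outZ (R' : ℤ) (u : Bit n m → ℤ) (y : Arc n m → ℤ) : ℤ :=
  ∑ e, tb (u (.goal e)) * (if R' ≤ y e then 1 else 0)

/-! ### The same as stages of cells -/

/-- Anchor, slopes and offsets. -/
def stB (R' Y' : ℤ) (zt : ℤ → ℤ) (wt : ℤ → ℤ → ℤ) (t : Fin m ⊕ Fin m → ℤ) :
    Fin m ⊕ (Fin m ⊕ Fin m) → ℤ
  | Sum.inl g => t (Sum.inl g)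
  | Sum.inr (Sum.inl g) => cl R' (zt (t (Sum.inl g)))
  | Sum.inr (Sum.inr g) => cl Y' (wt (t (Sum.inl g)) (t (Sum.inr g)))

/-- Anchor and linear system. -/
def stC (R' Y' A : ℤ) (u : Bit n m → ℤ) (t : Fin m ⊕ (Fin m ⊕ Fin m) → ℤ) :
    Fin m ⊕ ((Arc n m × Arc n m) ⊕ Arc n m) → ℤ
  | Sum.inl g => t (Sum.inl g)
  | Sum.inr (Sum.inl p) => matE R' u (fun g => t (Sum.inr (Sum.inl g))) p.1 p.2
  | Sum.inr (Sum.inr e) => vecE Y' A u (fun g => t (Sum.inr (Sum.inr g))) e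

/-- Anchor and new differences. -/
def stD (Y : ℤ) (u : Bit n m → ℤ) (t : Fin m ⊕ ((Arc n m × Arc n m) ⊕ Arc n m) → ℤ) :
    Fin m ⊕ Fin m → ℤ
  | Sum.inl g => t (Sum.inl g)
  | Sum.inr g => difZ Y u (fun e => t (Sum.inr (Sum.inr e))) g

/-- The new anchor. -/
def stR (t : Fin m ⊕ Fin m → ℤ) : Fin m ⊕ Fin m → ℤ
  | Sum.inl g => t (Sum.inr g)
  | Sum.inr g => t (Sum.inr g)

theorem cl_cl {B : ℤ} (hB : 0 ≤ B) (z : ℤ) : cl B (cl B z) = cl B z := cl_eq (abs_cl_le hB z)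

theorem matE_cl {R' : ℤ} (hR : 0 ≤ R') (u : Bit n m → ℤ) (z : Fin m → ℤ) (e f : Arc n m) :
    matE R' u (fun g => cl R' (z g)) e f = matE R' u z e f := by
  rcases e with i | a
  · rfl
  · simp only [matE, cl_cl hR]

theorem vecE_cl {Y' : ℤ} (hY : 0 ≤ Y') (A : ℤ) (u : Bit n m → ℤ) (w : Fin m → ℤ)
    (e : Arc n m) : vecE Y' A u (fun g => cl Y' (w g)) e = vecE Y' A u w e := by
  rcases e with i | a
  · rfl
  · simp only [vecE, cl_cl hY]

/-- The part of the state after the solver. -/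
theorem stages_eq {R' Y Y' : ℤ} (hR : 0 ≤ R') (hY : 0 ≤ Y') (J : ℕ) (zt : ℤ → ℤ)
    (wt : ℤ → ℤ → ℤ) (A : ℤ) (u : Bit n m → ℤ) (t : Fin m ⊕ Fin m → ℤ) :
    (solS (2 * R') Y)^[J] (stC R' Y' A u (stB R' Y' zt wt t)) =
      Sum.elim (fun g => t (Sum.inl g)) (Sum.elim
        ((solStep (2 * R') Y)^[J] (fun p => matE R' u (fun g => zt (t (Sum.inl g))) p.1 p.2,
          vecE Y' A u (fun g => wt (t (Sum.inl g)) (t (Sum.inr g))))).1
        (lin R' Y Y' J A u (fun g => zt (t (Sum.inl g)))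
          (fun g => wt (t (Sum.inl g)) (t (Sum.inr g))))) := by
  have e1 : (fun q => stC R' Y' A u (stB R' Y' zt wt t) (Sum.inr (Sum.inl q))) =
      fun p : Arc n m × Arc n m => matE R' u (fun g => zt (t (Sum.inl g))) p.1 p.2 := by
    funext p
    have h1 : stC R' Y' A u (stB R' Y' zt wt t) (Sum.inr (Sum.inl p)) =
        matE R' u (fun g => cl R' (zt (t (Sum.inl g)))) p.1 p.2 := rfl
    rw [h1, matE_cl hR]
  have e2 : (fun h => stC R' Y' A u (stB R' Y' zt wt t) (Sum.inr (Sum.inr h))) =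
      vecE Y' A u (fun g => wt (t (Sum.inl g)) (t (Sum.inr g))) := by
    funext e
    have h1 : stC R' Y' A u (stB R' Y' zt wt t) (Sum.inr (Sum.inr e)) =
        vecE Y' A u (fun g => cl Y' (wt (t (Sum.inl g)) (t (Sum.inr g)))) e := rfl
    rw [h1, vecE_cl hY]
  have e3 : (fun r => stC R' Y' A u (stB R' Y' zt wt t) (Sum.inl r)) =
      fun g => t (Sum.inl g) := rfl
  rw [solS_iterate, e1, e2, e3]
  unfold lin solve
  exact rfl

/-! ### Depth and size -/

/-- Sizes. -/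
structure Sizes (n m : ℕ) (R' Y Y' : ℤ) (J L Q : ℕ) : Prop where
  hL : 1 ≤ L
  hR : 0 < R'
  hY' : 0 ≤ Y'
  hYY : Y' ≤ Y
  hRY : 2 * R' ≤ Y
  hJ : Fintype.card (Arc n m) ≤ 2 ^ J
  hB : 8 * ((Fintype.card (Arc n m) : ℤ) + 1) * R' * (Y + 1) < 2 ^ L
  hQ : Fintype.card (Fin m ⊕ ((Arc n m × Arc n m) ⊕ Arc n m)) * 2 ^ (J + 2) ≤ Q
  hQ2 : Fintype.card (Fin m ⊕ (Fin m ⊕ Fin m)) * 2 ^ (J + 2) ≤ Q
  hQ1 : 2 ^ (J + 2) ≤ Q

namespace Sizes

variable {R' Y Y' : ℤ} {J L Q : ℕ} {Z : Type}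

theorem bounds (h : Sizes n m R' Y Y' J L Q) :
    (0 : ℤ) ≤ Fintype.card (Arc n m) ∧ 0 ≤ Y ∧ 1 ≤ R' ∧
    (Fintype.card (Arc n m) : ℤ) * Y < 2 ^ L ∧
    2 * ((Fintype.card (Arc n m) : ℤ) * Y) < 2 ^ L ∧
    Y + (Fintype.card (Arc n m) : ℤ) * (2 * R' * Y) < 2 ^ L ∧
    4 * Y < 2 ^ L ∧ 8 * R' < 2 ^ L ∧ (Fintype.card (Arc n m) : ℤ) < 2 ^ L ∧ (8 : ℤ) < 2 ^ L := by
  have h1 := h.hB
  have hR := h.hR
  have hRY := h.hRY
  set N : ℤ := (Fintype.card (Arc n m) : ℤ) with hN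
  have hN0 : 0 ≤ N := by positivity
  have hR1 : 1 ≤ R' := by omega
  have hY0 : 0 ≤ Y := by linarith
  have hNY : 0 ≤ N * Y := mul_nonneg hN0 hY0
  have e1 : N * Y ≤ R' * (N * Y) := by nlinarith
  have e2 : Y ≤ R' * Y := by nlinarith
  have e3 : N ≤ R' * N := by nlinarith
  have e0 : 8 * (N + 1) * R' * (Y + 1) =
    8 * (R' * (N * Y)) + 8 * (R' * Y) + 8 * (R' * N) + 8 * R' := by ring
  have e5 : N * (2 * R' * Y) = 2 * (R' * (N * Y)) := by ring
  rw [e0] at h1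
  have f1 : 0 ≤ R' * (N * Y) := by positivity
  have f2 : 0 ≤ R' * Y := by positivity
  have f3 : 0 ≤ R' * N := by positivity
  refine ⟨hN0, hY0, hR1, ?_, ?_, ?_, ?_, ?_, ?_, ?_⟩ <;> linarith

theorem abs_sel_le (h : Sizes n m R' Y Y' J L Q) (u : Bit n m → ℤ) (s : Arc n m → ℤ)
    (p : Fin m × Bool) : |selZ Y u s p| ≤ (Fintype.card (Arc n m) : ℤ) * Y := by
  obtain ⟨hN0, hY0, hR1, b1, -⟩ := h.bounds
  calc |selZ Y u s p| ≤ ∑ e, |tb (u (.link p e)) * cl Y (s e)| := Finset.abs_sum_le_sum_abs _ _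
    _ ≤ ∑ _e : Arc n m, Y := by
          refine Finset.sum_le_sum (fun e _ => ?_)
          exact le_trans (abs_tb_mul_le _ _) (abs_cl_le hY0 _)
    _ = _ := by rw [Finset.sum_const, Finset.card_univ, nsmul_eq_mul]

theorem ifd_sel (h : Sizes n m R' Y Y' J L Q) (bi : Bit n m → Z) (si : Arc n m → Z)
    (p : Fin m × Bool) :
    IFD L J (fun y : Z → ℤ => selZ Y (fun a => y (bi a)) (fun e => y (si e)) p) := by
  obtain ⟨hN0, hY0, hR1, b1, -⟩ := h.bounds
  have hb : ∀ (y : Z → ℤ), ∑ e, |tb (y (bi (.link p e))) * cl Y (y (si e))| < 2 ^ L := by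
    intro y
    refine lt_of_le_of_lt ?_ b1
    calc ∑ e, |tb (y (bi (.link p e))) * cl Y (y (si e))| ≤ ∑ _e : Arc n m, Y := by
          refine Finset.sum_le_sum (fun e _ => ?_)
          exact le_trans (abs_tb_mul_le _ _) (abs_cl_le hY0 _)
      _ = _ := by rw [Finset.sum_const, Finset.card_univ, nsmul_eq_mul]
  have h1 := IFD.sum (L := L) (k := 0) J h.hJ
    (fun e (y : Z → ℤ) => tb (y (bi (.link p e))) * cl Y (y (si e)))
    (fun e => IFD.op _ _ (fun u v => tb u * cl Y v) (fun y _ => by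
      refine lt_of_le_of_lt ?_ (hb y)
      exact Finset.single_le_sum (f := fun e => |tb (y (bi (.link p e))) * cl Y (y (si e))|)
        (fun i _ => abs_nonneg _) (Finset.mem_univ e)))
    (fun y _ => hb y)
  rw [zero_add] at h1
  exact h1

theorem ifd_dif (h : Sizes n m R' Y Y' J L Q) (bi : Bit n m → Z) (si : Arc n m → Z)
    (g : Fin m) :
    IFD L (J + 1) (fun y : Z → ℤ => difZ Y (fun a => y (bi a)) (fun e => y (si e)) g) := by
  obtain ⟨hN0, hY0, hR1, b1, b2, -⟩ := h.bounds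
  refine IFD.map2 (fun u v => u - v) (h.ifd_sel bi si (g, false)) (h.ifd_sel bi si (g, true)) ?_
  intro y hy
  have h1 := h.abs_sel_le (fun a => y (bi a)) (fun e => y (si e)) (g, false)
  have h2 := h.abs_sel_le (fun a => y (bi a)) (fun e => y (si e)) (g, true)
  have h3 := abs_sub (selZ Y (fun a => y (bi a)) (fun e => y (si e)) (g, false))
    (selZ Y (fun a => y (bi a)) (fun e => y (si e)) (g, true))
  exact lt_of_le_of_lt h3 (by linarith)

theorem ifd_mat (h : Sizes n m R' Y Y' J L Q) (bi : Bit n m → Z) (zi : Fin m → Z)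
    (e f : Arc n m) :
    IFD L 1 (fun y : Z → ℤ => matE R' (fun a => y (bi a)) (fun g => y (zi g)) e f) := by
  obtain ⟨hN0, hY0, hR1, b1, b2, b4, b5, b6, b7, b8⟩ := h.bounds
  have hR0 : 0 ≤ R' := by linarith
  rcases e with i | a
  · exact IFD.const 1 (z := 0) (by rw [abs_zero]; positivity)
  · have hb1 : ∀ z : ℤ, |R' + sgz a.2 * cl R' z| ≤ 2 * R' := by
      intro z
      have h1 := abs_cl_le hR0 z
      have h2 := abs_sgz_mul a.2 (cl R' z)
      have h3 := abs_add_le R' (sgz a.2 * cl R' z)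
      rw [abs_of_nonneg hR0] at h3
      linarith
    have hb2 : ∀ z : ℤ, |R' - sgz a.2 * cl R' z| ≤ 2 * R' := by
      intro z
      have h1 := abs_cl_le hR0 z
      have h2 := abs_sgz_mul a.2 (cl R' z)
      have h3 := abs_sub R' (sgz a.2 * cl R' z)
      rw [abs_of_nonneg hR0] at h3
      linarith
    have h1 : IFD L 0 (fun y : Z → ℤ => tb (y (bi (.link (a.1, false) f))) *
        (R' + sgz a.2 * cl R' (y (zi a.1)))) :=
      IFD.op _ _ (fun u v => tb u * (R' + sgz a.2 * cl R' v)) (fun y _ => by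
        have h1 := abs_tb_mul_le (y (bi (.link (a.1, false) f)))
          (R' + sgz a.2 * cl R' (y (zi a.1)))
        have h2 := hb1 (y (zi a.1))
        linarith)
    have h2 : IFD L 0 (fun y : Z → ℤ => tb (y (bi (.link (a.1, true) f))) *
        (R' - sgz a.2 * cl R' (y (zi a.1)))) :=
      IFD.op _ _ (fun u v => tb u * (R' - sgz a.2 * cl R' v)) (fun y _ => by
        have h1 := abs_tb_mul_le (y (bi (.link (a.1, true) f)))
          (R' - sgz a.2 * cl R' (y (zi a.1)))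
        have h2 := hb2 (y (zi a.1))
        linarith)
    exact IFD.map2 (fun u v => u + v) h1 h2 (fun y _ => by
      have h1 := abs_tb_mul_le (y (bi (.link (a.1, false) f)))
        (R' + sgz a.2 * cl R' (y (zi a.1)))
      have h2 := hb1 (y (zi a.1))
      have h3 := abs_tb_mul_le (y (bi (.link (a.1, true) f)))
        (R' - sgz a.2 * cl R' (y (zi a.1)))
      have h4 := hb2 (y (zi a.1))
      have h5 := abs_add_le (tb (y (bi (.link (a.1, false) f))) *
        (R' + sgz a.2 * cl R' (y (zi a.1)))) (tb (y (bi (.link (a.1, true) f))) *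
        (R' - sgz a.2 * cl R' (y (zi a.1))))
      linarith)

theorem ifd_vec (h : Sizes n m R' Y Y' J L Q) {A : ℤ} (hA : |A| ≤ 2 * R')
    (bi : Bit n m → Z) (wi : Fin m → Z) (e : Arc n m) :
    IFD L 1 (fun y : Z → ℤ => vecE Y' A (fun a => y (bi a)) (fun g => y (wi g)) e) := by
  obtain ⟨hN0, hY0, hR1, b1, b2, b4, b5, b6, b7, b8⟩ := h.bounds
  have hYY := h.hYY
  rcases e with i | a
  · exact (IFD.op (bi (.src i)) (bi (.src i)) (fun u _ => tb u * A) (fun y _ => by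
      have := abs_tb_mul_le (y (bi (.src i))) A
      linarith)).mono (Nat.zero_le 1)
  · exact (IFD.op (wi a.1) (wi a.1) (fun u _ => sgz a.2 * cl Y' u) (fun y _ => by
      have h2 := abs_sgz_mul a.2 (cl Y' (y (wi a.1)))
      have h3 := abs_cl_le h.hY' (y (wi a.1))
      linarith)).mono (Nat.zero_le 1)

theorem ifd_out (h : Sizes n m R' Y Y' J L Q) (bi : Bit n m → Z) (yi : Arc n m → Z) :
    IFD L J (fun y : Z → ℤ => outZ R' (fun a => y (bi a)) (fun e => y (yi e))) := by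
  obtain ⟨hN0, hY0, hR1, b1, b2, b4, b5, b6, b7, b8⟩ := h.bounds
  have hi : ∀ z : ℤ, |if R' ≤ z then (1 : ℤ) else 0| ≤ 1 := by
    intro z
    split_ifs <;> simp
  have hb : ∀ (y : Z → ℤ), ∑ e, |tb (y (bi (.goal e))) *
      (if R' ≤ y (yi e) then (1 : ℤ) else 0)| < 2 ^ L := by
    intro y
    refine lt_of_le_of_lt ?_ b7
    calc ∑ e, |tb (y (bi (.goal e))) * (if R' ≤ y (yi e) then (1 : ℤ) else 0)|
        ≤ ∑ _e : Arc n m, (1 : ℤ) := by
          refine Finset.sum_le_sum (fun e _ => ?_)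
          exact le_trans (abs_tb_mul_le _ _) (hi _)
      _ = _ := by rw [Finset.sum_const, Finset.card_univ, nsmul_eq_mul, mul_one]
  have h1 := IFD.sum (L := L) (k := 0) J h.hJ
    (fun e (y : Z → ℤ) => tb (y (bi (.goal e))) * (if R' ≤ y (yi e) then (1 : ℤ) else 0))
    (fun e => IFD.op _ _ (fun u v => tb u * (if R' ≤ v then (1 : ℤ) else 0)) (fun y _ => by
      refine lt_of_le_of_lt ?_ (hb y)
      exact Finset.single_le_sum (f := fun e => |tb (y (bi (.goal e))) *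
        (if R' ≤ y (yi e) then (1 : ℤ) else 0)|)
        (fun i _ => abs_nonneg _) (Finset.mem_univ e)))
    (fun y _ => hb y)
  rw [zero_add] at h1
  exact h1

/-- The linear system is solved in `J * (J + 3) + 3` levels. -/
theorem ilev_lin (h : Sizes n m R' Y Y' J L Q) {A : ℤ} (hA : |A| ≤ 2 * R')
    (zt : ℤ → ℤ) (wt : ℤ → ℤ → ℤ) {d : ℕ} {f : (Bit n m → Bool) → Fin m ⊕ Fin m → ℤ}
    (hf : ILev (Bit n m) Q L d (Fin m ⊕ Fin m) f) :
    ILev (Bit n m) Q L (d + (J * (J + 3) + 3)) (Fin m ⊕ ((Arc n m × Arc n m) ⊕ Arc n m))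
      (fun x => (solS (2 * R') Y)^[J] (stC R' Y' A (fun a => b2i (x a))
        (stB R' Y' zt wt (f x)))) := by
  obtain ⟨hN0, hY0, hR1, b1, b2, b4, b5, b6, b7, b8⟩ := h.bounds
  have hL := h.hL
  have hYY := h.hYY
  have hRY := h.hRY
  have hR0 : 0 ≤ R' := by linarith
  have hcQ : ∀ (c c' k : ℕ), c' * 2 ^ (J + 2) ≤ Q → c ≤ c' → k ≤ J + 2 → c * 2 ^ k ≤ Q :=
    fun c c' k hQ hc hk =>
      le_trans (Nat.mul_le_mul hc (Nat.pow_le_pow_right (by norm_num) hk)) hQ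
  -- slopes and offsets
  have s2 := ILev.formula (k := 0) hL
    (fun (t : Fin m ⊕ (Fin m ⊕ Fin m)) (y : Bit n m ⊕ (Fin m ⊕ Fin m) → ℤ) =>
      stB R' Y' zt wt (fun b => y (Sum.inr b)) t)
    (by
      rintro (g | g | g)
      · exact IFD.var _ (Sum.inr (Sum.inl g))
      · exact IFD.op (Sum.inr (Sum.inl g)) (Sum.inr (Sum.inl g)) (fun u _ => cl R' (zt u))
          (fun y _ => by
            have := abs_cl_le hR0 (zt (y (Sum.inr (Sum.inl g))))
            linarith)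
      · exact IFD.op (Sum.inr (Sum.inl g)) (Sum.inr (Sum.inr g)) (fun u v => cl Y' (wt u v))
          (fun y _ => by
            have := abs_cl_le h.hY' (wt (y (Sum.inr (Sum.inl g))) (y (Sum.inr (Sum.inr g))))
            linarith))
    (hcQ _ _ _ h.hQ2 le_rfl (by omega)) hf
  -- linear system
  have s3 := ILev.formula (k := 1) hL
    (fun (t : Fin m ⊕ ((Arc n m × Arc n m) ⊕ Arc n m))
      (y : Bit n m ⊕ (Fin m ⊕ (Fin m ⊕ Fin m)) → ℤ) =>
      stC R' Y' A (fun a => y (Sum.inl a)) (fun b => y (Sum.inr b)) t)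
    (by
      rintro (r | q | e)
      · exact IFD.var _ (Sum.inr (Sum.inl r))
      · exact h.ifd_mat Sum.inl (fun g => Sum.inr (Sum.inr (Sum.inl g))) q.1 q.2
      · exact h.ifd_vec hA Sum.inl (fun g => Sum.inr (Sum.inr (Sum.inr g))) e)
    (hcQ _ _ _ h.hQ le_rfl (by omega)) s2
  -- solver
  have s4 := ilev_solS_iter (j := J) hL h.hJ (R := 2 * R') (Y := Y) (by linarith) hRY
    (by linarith) (hcQ _ _ _ h.hQ le_rfl (by omega)) J s3
  have e : d + 0 + 1 + 1 + 1 + J * (J + 3) = d + (J * (J + 3) + 3) := by ring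
  rw [e] at s4
  exact s4

/-- Cells of one inner step. -/
theorem ilev_in (h : Sizes n m R' Y Y' J L Q) {A : ℤ} (hA : |A| ≤ 2 * R')
    (zt : ℤ → ℤ) (wt : ℤ → ℤ → ℤ) {d : ℕ} {f : (Bit n m → Bool) → Fin m ⊕ Fin m → ℤ}
    (hf : ILev (Bit n m) Q L d (Fin m ⊕ Fin m) f) :
    ILev (Bit n m) Q L (d + (J * (J + 3) + J + 5)) (Fin m ⊕ Fin m)
      (fun x => Sum.elim (fun g => f x (Sum.inl g)) (inD R' Y Y' J zt wt A (fun a => b2i (x a))
        (fun g => f x (Sum.inl g)) (fun g => f x (Sum.inr g)))) := by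
  have hR0 : 0 ≤ R' := h.hR.le
  have hcQ : ∀ (c c' k : ℕ), c' * 2 ^ (J + 2) ≤ Q → c ≤ c' → k ≤ J + 2 → c * 2 ^ k ≤ Q :=
    fun c c' k hQ hc hk =>
      le_trans (Nat.mul_le_mul hc (Nat.pow_le_pow_right (by norm_num) hk)) hQ
  have c1 : Fintype.card (Fin m ⊕ Fin m) ≤ Fintype.card (Fin m ⊕ (Fin m ⊕ Fin m)) := by
    rw [Fintype.card_sum, Fintype.card_sum, Fintype.card_sum]
    omega
  have s4 := h.ilev_lin hA zt wt hf
  have s5 := ILev.formula (k := J + 1) h.hL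
    (fun (t : Fin m ⊕ Fin m)
      (y : Bit n m ⊕ (Fin m ⊕ ((Arc n m × Arc n m) ⊕ Arc n m)) → ℤ) =>
      stD Y (fun a => y (Sum.inl a)) (fun b => y (Sum.inr b)) t)
    (by
      rintro (g | g)
      · exact IFD.var _ (Sum.inr (Sum.inl g))
      · exact h.ifd_dif Sum.inl (fun e => Sum.inr (Sum.inr (Sum.inr e))) g)
    (hcQ _ _ _ h.hQ2 c1 (by omega)) s4
  have e : d + (J * (J + 3) + 3) + (J + 1) + 1 = d + (J * (J + 3) + J + 5) := by ring
  rw [e] at s5
  refine s5.congr (fun x t => ?_)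
  change _ = stD Y (fun a => b2i (x a)) ((solS (2 * R') Y)^[J] (stC R' Y' A
    (fun a => b2i (x a)) (stB R' Y' zt wt (f x)))) t
  rw [stages_eq hR0 h.hY']
  rcases t with g | g <;> rfl

/-- Cells of `K` inner steps. -/
theorem ilev_inK (h : Sizes n m R' Y Y' J L Q) {A : ℤ} (hA : |A| ≤ 2 * R')
    (zt : ℤ → ℤ) (wt : ℤ → ℤ → ℤ) (K : ℕ) {d : ℕ}
    {f : (Bit n m → Bool) → Fin m ⊕ Fin m → ℤ}
    (hf : ILev (Bit n m) Q L d (Fin m ⊕ Fin m) f) :
    ILev (Bit n m) Q L (d + K * (J * (J + 3) + J + 5)) (Fin m ⊕ Fin m)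
      (fun x => Sum.elim (fun g => f x (Sum.inl g))
        ((inD R' Y Y' J zt wt A (fun a => b2i (x a)) (fun g => f x (Sum.inl g)))^[K]
          (fun g => f x (Sum.inr g)))) := by
  induction K with
  | zero =>
    rw [Nat.zero_mul, add_zero]
    refine hf.congr (fun x t => ?_)
    rcases t with g | g <;> rfl
  | succ K ih =>
    have h1 := h.ilev_in hA zt wt ih
    have e : d + K * (J * (J + 3) + J + 5) + (J * (J + 3) + J + 5) =
        d + (K + 1) * (J * (J + 3) + J + 5) := by ring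
    rw [e] at h1
    refine h1.congr (fun x t => ?_)
    rcases t with g | g
    · rfl
    · simp only [Sum.elim_inr, Sum.elim_inl]
      rw [Function.iterate_succ_apply']

/-- Cells of one step. -/
theorem ilev_out (h : Sizes n m R' Y Y' J L Q) {A : ℤ} (hA : |A| ≤ 2 * R')
    (zt : ℤ → ℤ) (wt : ℤ → ℤ → ℤ) (K : ℕ) {d : ℕ}
    {f : (Bit n m → Bool) → Fin m ⊕ Fin m → ℤ}
    (hf : ILev (Bit n m) Q L d (Fin m ⊕ Fin m) f) :
    ILev (Bit n m) Q L (d + (K * (J * (J + 3) + J + 5) + 1)) (Fin m ⊕ Fin m)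
      (fun x => Sum.elim (fun g => f x (Sum.inr g))
        (outD R' Y Y' J K zt wt A (fun a => b2i (x a)) (fun g => f x (Sum.inr g)))) := by
  have c1 : Fintype.card (Fin m ⊕ Fin m) * 2 ^ 0 ≤ Q := by
    refine le_trans (Nat.mul_le_mul ?_ (Nat.pow_le_pow_right (by norm_num)
      (show 0 ≤ J + 2 by omega))) h.hQ2
    rw [Fintype.card_sum, Fintype.card_sum, Fintype.card_sum]
    omega
  have s1 := ILev.formula (k := 0) h.hL
    (fun (t : Fin m ⊕ Fin m) (y : Bit n m ⊕ (Fin m ⊕ Fin m) → ℤ) =>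
      stR (fun b => y (Sum.inr b)) t)
    (by
      rintro (g | g)
      · exact IFD.var _ (Sum.inr (Sum.inr g))
      · exact IFD.var _ (Sum.inr (Sum.inr g)))
    c1 hf
  have s2 := h.ilev_inK hA zt wt K s1
  have e : d + 0 + 1 + K * (J * (J + 3) + J + 5) = d + (K * (J * (J + 3) + J + 5) + 1) := by ring
  rw [e] at s2
  refine s2.congr (fun x t => ?_)
  rcases t with g | g <;> rfl

/-- The whole machine. -/
theorem ilev_traj (h : Sizes n m R' Y Y' J L Q) {A : ℕ → ℤ} (hA : ∀ j, |A j| ≤ 2 * R')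
    (zt : ℕ → ℤ → ℤ) (wt : ℕ → ℤ → ℤ → ℤ) (K j : ℕ) :
    ILev (Bit n m) Q L (1 + j * (K * (J * (J + 3) + J + 5) + 1)) (Fin m ⊕ Fin m)
      (fun x => Sum.elim
        (fun g => if j = 0 then 0 else
          trajD R' Y Y' J K zt wt A (fun a => b2i (x a)) (j - 1) g)
        (trajD R' Y Y' J K zt wt A (fun a => b2i (x a)) j)) := by
  obtain ⟨hN0, hY0, hR1, b1, b2, b4, b5, b6, b7, b8⟩ := h.bounds
  induction j with
  | zero =>
    have c1 : Fintype.card (Fin m ⊕ Fin m) ≤ Q := by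
      refine le_trans ?_ h.hQ2
      refine le_trans ?_ (Nat.le_mul_of_pos_right _ (by positivity))
      rw [Fintype.card_sum, Fintype.card_sum, Fintype.card_sum]
      omega
    have h1 := ILev.init (α := Bit n m) (γ := Fin m ⊕ Fin m) (Q := Q) h.hL c1
      (fun _ => ICell.const 0) (fun x c => by
        change |(0 : ℤ)| < _
        rw [abs_zero]
        positivity)
    have e : 1 + 0 * (K * (J * (J + 3) + J + 5) + 1) = 1 := by ring
    rw [e]
    refine h1.congr (fun x t => ?_)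
    rcases t with g | g <;> rfl
  | succ j ih =>
    have h1 := h.ilev_out (hA j) (zt j) (wt j) K ih
    have e : 1 + j * (K * (J * (J + 3) + J + 5) + 1) + (K * (J * (J + 3) + J + 5) + 1) =
        1 + (j + 1) * (K * (J * (J + 3) + J + 5) + 1) := by ring
    rw [e] at h1
    refine h1.congr (fun x t => ?_)
    rcases t with g | g
    · simp only [Sum.elim_inl, Sum.elim_inr, Nat.add_sub_cancel]
      rw [if_neg (Nat.succ_ne_zero j)]
    · rfl

/-- The output cell of the machine. -/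
theorem ilev_final (h : Sizes n m R' Y Y' J L Q) {A : ℕ → ℤ} (hA : ∀ j, |A j| ≤ 2 * R')
    (zt : ℕ → ℤ → ℤ) (wt : ℕ → ℤ → ℤ → ℤ) (K H : ℕ) :
    ILev (Bit n m) Q L (H * (K * (J * (J + 3) + J + 5) + 1) + (J * (J + 3) + J + 6)) Unit
      (fun x _ => outZ R' (fun a => b2i (x a))
        (finX R' Y Y' J K zt wt A H (fun a => b2i (x a)))) := by
  have hR0 : 0 ≤ R' := h.hR.le
  have s1 := h.ilev_traj hA zt wt K H
  have c1 : Fintype.card (Fin m ⊕ Fin m) * 2 ^ 0 ≤ Q := by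
    refine le_trans (Nat.mul_le_mul ?_ (Nat.pow_le_pow_right (by norm_num)
      (show 0 ≤ J + 2 by omega))) h.hQ2
    rw [Fintype.card_sum, Fintype.card_sum, Fintype.card_sum]
    omega
  have s2 := ILev.formula (k := 0) h.hL
    (fun (t : Fin m ⊕ Fin m) (y : Bit n m ⊕ (Fin m ⊕ Fin m) → ℤ) =>
      stR (fun b => y (Sum.inr b)) t)
    (by
      rintro (g | g)
      · exact IFD.var _ (Sum.inr (Sum.inr g))
      · exact IFD.var _ (Sum.inr (Sum.inr g)))
    c1 s1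
  have s3 := h.ilev_lin (hA H) (zt H) (wt H) s2
  have s4 := ILev.formula (k := J) h.hL
    (fun (_ : Unit) (y : Bit n m ⊕ (Fin m ⊕ ((Arc n m × Arc n m) ⊕ Arc n m)) → ℤ) =>
      outZ R' (fun a => y (Sum.inl a)) (fun e => y (Sum.inr (Sum.inr (Sum.inr e)))))
    (fun _ => h.ifd_out Sum.inl (fun e => Sum.inr (Sum.inr (Sum.inr e))))
    (by
      rw [Fintype.card_unit, one_mul]
      exact le_trans (Nat.pow_le_pow_right (by norm_num) (by omega)) h.hQ1) s3
  have e : 1 + H * (K * (J * (J + 3) + J + 5) + 1) + 0 + 1 + (J * (J + 3) + 3) + J + 1 =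
      H * (K * (J * (J + 3) + J + 5) + 1) + (J * (J + 3) + J + 6) := by ring
  rw [e] at s4
  refine s4.congr (fun x t => ?_)
  change _ = outZ R' (fun a => b2i (x a)) (fun e => (solS (2 * R') Y)^[J] (stC R' Y' (A H)
    (fun a => b2i (x a)) (stB R' Y' (zt H) (wt H) (stR (Sum.elim _ _)))) (Sum.inr (Sum.inr e)))
  rw [stages_eq hR0 h.hY']
  rfl

/-- The machine as a circuit. -/
theorem circuit (h : Sizes n m R' Y Y' J L Q) {A : ℕ → ℤ} (hA : ∀ j, |A j| ≤ 2 * R')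
    (zt : ℕ → ℤ → ℤ) (wt : ℕ → ℤ → ℤ → ℤ) (K H : ℕ) :
    ∃ (B : BCircuit (Bit n m) (Q * 2 ^ (3 * L + 6))) (o : Fin (Q * 2 ^ (3 * L + 6))),
      ∀ x, B.level x ((H * (K * (J * (J + 3) + J + 5) + 1) + (J * (J + 3) + J + 6)) *
        (2 * L + 6)) o = decide (outZ R' (fun a => b2i (x a))
        (finX R' Y Y' J K zt wt A H (fun a => b2i (x a))) = 1) :=
  (h.ilev_final hA zt wt K H).toCircuit h.hL ()

end Sizes

end Pool.Agent.LibCC89
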