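import Pool.Agent.LibCC89.Mach
import Pool.Agent.LibCC67.Chord
import Pool.Agent.LibCCS.RealA

/-!
Correctness of the integer machine.
-/

namespace Pool.Agent.LibCC89

open Pool.Agent.LibCC Pool.Agent.LibCCV Pool.Agent.LibCCS Pool.Agent.LibCC67 Finset

variable {n m : ℕ}

/-! ### Bounds -/

theorem one_sub_tanh_le {s : ℝ} : 1 - Real.tanh s ≤ 2 * Real.exp (-(2 * s)) := by
  have h1 : 0 < Real.cosh s := Real.cosh_pos s
  have h2 : 1 - Real.tanh s = Real.exp (-s) / Real.cosh s := by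
    rw [Real.tanh_eq_sinh_div_cosh, eq_div_iff h1.ne', sub_mul, div_mul_cancel₀ _ h1.ne', one_mul,
      Real.cosh_sub_sinh]
  rw [h2, div_le_iff₀ h1]
  have h3 : Real.exp s / 2 ≤ Real.cosh s := by
    rw [Real.cosh_eq]
    have := Real.exp_pos (-s)
    linarith
  have h4 : Real.exp (-s) = Real.exp (-(2 * s)) * Real.exp s := by
    rw [← Real.exp_add]
    congr 1
    ring
  have h5 := Real.exp_pos (-(2 * s))
  calc Real.exp (-s) = 2 * Real.exp (-(2 * s)) * (Real.exp s / 2) := by rw [h4]; ring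
    _ ≤ 2 * Real.exp (-(2 * s)) * Real.cosh s :=
        mul_le_mul_of_nonneg_left h3 (by positivity)

/-- The tangent at `y` passes close to `0`. -/
theorem tangent_le {p : ℝ} (hp : 0 < p) (y : ℝ) :
    0 ≤ H p y - T p y * y ∧ H p y - T p y * y ≤ 12 / 5 * p := by
  constructor
  · have h1 := H_ge hp.le y
    have h2 := abs_T_le p y
    have h3 : T p y * y ≤ |y| := by
      calc T p y * y ≤ |T p y * y| := le_abs_self _
        _ = |T p y| * |y| := abs_mul _ _
        _ ≤ 1 * |y| := mul_le_mul_of_nonneg_right h2 (abs_nonneg _)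
        _ = |y| := one_mul _
    linarith
  · have h1 : T p y * y = |y| * Real.tanh (|y| / (2 * p)) := by
      unfold T
      rcases le_total 0 y with h | h
      · rw [abs_of_nonneg h]; ring
      · rw [abs_of_nonpos h, neg_div, Real.tanh_neg]; ring
    have h2 := one_sub_tanh_le (s := |y| / (2 * p))
    have h3 : 2 * (|y| / (2 * p)) = |y| / p := by field_simp
    rw [h3] at h2
    have h4 := mul_exp_neg_le (|y| / p)
    have h5 : |y| * (1 - Real.tanh (|y| / (2 * p))) ≤ p := by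
      calc |y| * (1 - Real.tanh (|y| / (2 * p))) ≤ |y| * (2 * Real.exp (-(|y| / p))) :=
            mul_le_mul_of_nonneg_left h2 (abs_nonneg _)
        _ = 2 * p * (|y| / p * Real.exp (-(|y| / p))) := by field_simp
        _ ≤ 2 * p * (1 / 2) := mul_le_mul_of_nonneg_left h4 (by positivity)
        _ = p := by ring
    have h6 := H_le hp y
    rw [h1]
    linarith

theorem phi_bound {p y z : ℝ} (hp : 0 < p) (hz : |z - y| ≤ 3 / 10 * p) :
    |H p z - T p y * z| ≤ 5 / 2 * p := by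
  have h1 := H_window hp (y := y) (z := y) (z' := z) (by rw [sub_self, abs_zero]; positivity) hz
  obtain ⟨h2, h3⟩ := tangent_le hp y
  have h4 : 1 / 5 * (1 - T p y ^ 2) * |z - y| ≤ 3 / 50 * p := by
    have h5 : 1 - T p y ^ 2 ≤ 1 := by nlinarith [sq_nonneg (T p y)]
    have h6 : 0 ≤ 1 - T p y ^ 2 := by
      have := abs_T_le p y
      rw [abs_le] at this
      nlinarith
    calc 1 / 5 * (1 - T p y ^ 2) * |z - y| ≤ 1 / 5 * 1 * (3 / 10 * p) := by
          apply mul_le_mul _ hz (abs_nonneg _) (by norm_num)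
          linarith
      _ = 3 / 50 * p := by ring
  have h7 := abs_le.1 (h1.trans h4)
  rw [abs_le]
  constructor <;> linarith [h7.1, h7.2]

/-- Bound of a network state in the sup norm. -/
theorem sup_bound {C : CompCircuit n m} {κ : Arc n m → ℝ} {Q : Fin m → ℝ} {x : Arc n m → ℝ}
    (hx : IsX C (fun _ => false) κ Q x) {β κm : ℝ} (hβ : 0 ≤ β)
    (hQ : ∀ g, |Q g| ≤ |Dx C x g| + 2 * β) (hs : ∀ i, |κ (Sum.inl i)| ≤ κm) (e : Arc n m) :
    |x e| ≤ κm + m * β := by
  have h1 := chain_bound C (fun _ => false) (fun e => |x e|) (fun _ => β) (fun _ => hβ) (δ := κm)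
    (fun i => by simp only [hx.src]; exact hs i) (fun a h => by simp at h) (fun a _ => by
      change |x (Sum.inr a)| ≤ max |x (C.inp (a.1, false))| |x (C.inp (a.1, true))| + β
      rw [hx.opn a rfl]
      have h2 := hQ a.1
      have h3 : |Sx C x a.1 + sg a.2 * Q a.1| ≤ |Sx C x a.1| + |Q a.1| := by
        refine le_trans (abs_add_le _ _) ?_
        have : |sg a.2 * Q a.1| = |Q a.1| := by
          unfold sg
          cases a.2 <;> simp
        rw [this]
      have h4 : |Sx C x a.1| + |Dx C x a.1| ≤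
          2 * max |x (C.inp (a.1, false))| |x (C.inp (a.1, true))| := by
        unfold Sx Dx
        have a1 := le_max_left |x (C.inp (a.1, false))| |x (C.inp (a.1, true))|
        have a2 := le_max_right |x (C.inp (a.1, false))| |x (C.inp (a.1, true))|
        set M := max |x (C.inp (a.1, false))| |x (C.inp (a.1, true))|
        obtain ⟨b1, b2⟩ := abs_le.1 a1
        obtain ⟨b3, b4⟩ := abs_le.1 a2
        rcases abs_cases (x (C.inp (a.1, false)) + x (C.inp (a.1, true))) with ⟨c1, _⟩ | ⟨c1, _⟩ <;>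
        rcases abs_cases (x (C.inp (a.1, false)) - x (C.inp (a.1, true))) with ⟨c2, _⟩ | ⟨c2, _⟩ <;>
        rw [c1, c2] <;> linarith
      rw [abs_div, abs_two]
      linarith) e
  simp only [sum_const, card_univ, Fintype.card_fin, nsmul_eq_mul] at h1
  exact h1

/-! ### Reading the instance bits -/

/-- The input words of an instance. -/
def uz (C : CompCircuit n m) (xb : Fin n → Bool) (e0 : Arc n m) : Bit n m → ℤ :=
  fun a => b2i (encode C xb e0 a)

theorem tb_link (C : CompCircuit n m) (xb : Fin n → Bool) (e0 : Arc n m) (p : Fin m × Bool)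
    (e : Arc n m) : tb (uz C xb e0 (.link p e)) = if C.inp p = e then 1 else 0 := by
  unfold uz
  rw [tb_b2i]
  change b2i (decide (C.inp p = e)) = _
  by_cases h : C.inp p = e <;> simp [h]

theorem sel_eq (C : CompCircuit n m) (xb : Fin n → Bool) (e0 : Arc n m) (Y : ℤ)
    (s : Arc n m → ℤ) (p : Fin m × Bool) : selZ Y (uz C xb e0) s p = cl Y (s (C.inp p)) := by
  unfold selZ
  simp only [tb_link, ite_mul, one_mul, zero_mul]
  rw [sum_ite_eq]
  simp

theorem out_eq (C : CompCircuit n m) (xb : Fin n → Bool) (e0 : Arc n m) (R' : ℤ)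
    (y : Arc n m → ℤ) : outZ R' (uz C xb e0) y = if R' ≤ y e0 then 1 else 0 := by
  unfold outZ
  have h1 : ∀ e, tb (uz C xb e0 (.goal e)) = if e0 = e then 1 else 0 := by
    intro e
    unfold uz
    rw [tb_b2i]
    change b2i (decide (e0 = e)) = _
    by_cases h : e0 = e <;> simp [h]
  simp only [h1, ite_mul, one_mul, zero_mul]
  rw [sum_ite_eq]
  simp

theorem mat_eq (C : CompCircuit n m) (xb : Fin n → Bool) (e0 : Arc n m) (R' : ℤ)
    (z : Fin m → ℤ) (a : Fin m × Bool) (f : Arc n m) :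
    matE R' (uz C xb e0) z (Sum.inr a) f =
      (if C.inp (a.1, false) = f then R' + sgz a.2 * cl R' (z a.1) else 0) +
      (if C.inp (a.1, true) = f then R' - sgz a.2 * cl R' (z a.1) else 0) := by
  unfold matE
  simp only [tb_link, ite_mul, one_mul, zero_mul]

theorem matOK (C : CompCircuit n m) (xb : Fin n → Bool) (e0 : Arc n m) {R' : ℤ} (hR : 0 < R')
    (z : Fin m → ℤ) : MatOK (2 * R') (fun p => matE R' (uz C xb e0) z p.1 p.2) := by
  have hz : ∀ a : Fin m × Bool, |sgz a.2 * cl R' (z a.1)| ≤ R' := by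
    intro a
    rw [abs_sgz_mul]
    exact abs_cl_le hR.le _
  constructor
  · rintro ⟨e, f⟩
    rcases e with i | a
    · exact le_rfl
    · change 0 ≤ matE R' (uz C xb e0) z (Sum.inr a) f
      rw [mat_eq]
      have := abs_le.1 (hz a)
      apply add_nonneg <;> split_ifs <;> linarith [this.1, this.2]
  · intro e
    rcases e with i | a
    · change ∑ f : Arc n m, (0 : ℤ) ≤ _
      rw [sum_const_zero]
      linarith
    · simp only [mat_eq]
      rw [sum_add_distrib, sum_ite_eq, sum_ite_eq]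
      simp only [mem_univ, if_true]
      linarith

theorem mat_height (C : CompCircuit n m) (xb : Fin n → Bool) (e0 : Arc n m) (R' : ℤ)
    (z : Fin m → ℤ) : ∃ ht : Arc n m → ℕ,
      ∀ e f, (fun p : Arc n m × Arc n m => matE R' (uz C xb e0) z p.1 p.2) (e, f) ≠ 0 →
        ht f < ht e := by
  obtain ⟨ord, hord⟩ := C.acyclic
  let ht : Arc n m → ℕ := fun e => match e with
    | Sum.inl _ => 0
    | Sum.inr (g, _) => ord g + 1
  refine ⟨ht, ?_⟩
  intro e f hne
  have hin : ∀ g b c, ht (C.inp (g, b)) < ht (Sum.inr (g, c)) := by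
    intro g b c
    rcases hb : C.inp (g, b) with i | ⟨h, c'⟩
    · exact Nat.succ_pos _
    · exact Nat.succ_lt_succ (hord g b h c' hb)
  rcases e with i | a
  · exact absurd rfl hne
  · change matE R' (uz C xb e0) z (Sum.inr a) f ≠ 0 at hne
    rw [mat_eq] at hne
    by_cases h1 : C.inp (a.1, false) = f
    · rw [← h1]
      exact hin a.1 false a.2
    · by_cases h2 : C.inp (a.1, true) = f
      · rw [← h2]
        exact hin a.1 true a.2
      · rw [if_neg h1, if_neg h2, add_zero] at hne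
        exact absurd rfl hne

theorem sgz_cast (c : Bool) : ((sgz c : ℤ) : ℝ) = sg c := by
  cases c <;> simp [sgz, sg]

/-- Constants of the sources for the amplitude `A`. -/
noncomputable def kapR (R' A : ℤ) (xb : Fin n → Bool) (e : Arc n m) : ℝ :=
  match e with
  | Sum.inl i => (b2i (xb i) : ℝ) * A / (2 * R')
  | Sum.inr _ => 0

/-- Precision of the solver. -/
structure SolOK (n m : ℕ) (R' Y : ℤ) (J : ℕ) (δ : ℝ) : Prop where
  hR : 0 < R'
  hJ : Fintype.card (Arc n m) ≤ 2 ^ J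
  hY : 2 ^ J * (2 * (2 * R') + 1) ≤ Y
  hδ : 4 ^ J * ((Fintype.card (Arc n m) : ℝ) * 2 + 1) ≤ δ * (2 * R')
  hδR : 1 ≤ δ * R'

/-- The computed arc values. -/
theorem lin_spec (C : CompCircuit n m) (xb : Fin n → Bool) (e0 : Arc n m) {R' Y : ℤ} {J : ℕ}
    {δ : ℝ} (h : SolOK n m R' Y J δ) {A : ℤ} (hA : |A| ≤ 2 * R') (z w : Fin m → ℤ) :
    ∃ x : Arc n m → ℝ,
      IsX C (fun _ => false) (kapR R' A xb)
        (fun g => (cl R' (z g) : ℝ) / R' * Dx C x g + (cl (4 * R') (w g) : ℝ) / R') x ∧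
      (∀ e, |(lin R' Y (4 * R') J A (uz C xb e0) z w e : ℝ) / (2 * R') - x e| ≤ δ) ∧
      ∀ e, |lin R' Y (4 * R') J A (uz C xb e0) z w e| ≤ Y := by
  have hR := h.hR
  have hR' : (0 : ℝ) < R' := by exact_mod_cast hR
  obtain ⟨x, hx⟩ := exists_isX C (fun _ => false) (kapR R' A xb)
    (fun g t => (cl R' (z g) : ℝ) / R' * t + (cl (4 * R') (w g) : ℝ) / R')
  refine ⟨x, hx, ?_, ?_⟩
  · intro e
    have hM := matOK C xb e0 hR z
    obtain ⟨ht, hht⟩ := mat_height C xb e0 R' z
    have hv : ∀ e, |vecE (4 * R') A (uz C xb e0) w e| ≤ ((2 : ℕ) : ℤ) * (2 * R') := by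
      intro e
      rcases e with i | a
      · change |tb _ * A| ≤ _
        refine le_trans (abs_tb_mul_le _ _) ?_
        push_cast
        linarith
      · change |sgz a.2 * cl (4 * R') (w a.1)| ≤ _
        rw [abs_sgz_mul]
        refine le_trans (abs_cl_le (by linarith) _) ?_
        push_cast
        linarith
    have key := solve_err (R := 2 * R') (Y := Y) (by linarith) hM hht hv h.hJ
      (by have := h.hY; push_cast; linarith) (x := fun e => 2 * R' * x e) (by
        intro e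
        rcases e with i | a
        · have e1 : ∑ f : Arc n m, (((fun p : Arc n m × Arc n m =>
              matE R' (uz C xb e0) z p.1 p.2) (Sum.inl i, f) : ℤ) : ℝ) / ((2 * R' : ℤ) : ℝ) *
              (2 * R' * x f) = 0 := by
            apply sum_eq_zero
            intro f _
            change ((0 : ℤ) : ℝ) / _ * _ = 0
            simp
          rw [e1, zero_add, hx.src]
          change 2 * (R' : ℝ) * ((b2i (xb i) : ℝ) * A / (2 * R')) =
            ((tb (uz C xb e0 (.src i)) * A : ℤ) : ℝ)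
          have e2 : tb (uz C xb e0 (.src i)) = b2i (xb i) := by
            unfold uz
            rw [tb_b2i]
            rfl
          rw [e2]
          push_cast
          field_simp
        · have e1 : ∑ f : Arc n m, (((fun p : Arc n m × Arc n m =>
              matE R' (uz C xb e0) z p.1 p.2) (Sum.inr a, f) : ℤ) : ℝ) / ((2 * R' : ℤ) : ℝ) *
              (2 * R' * x f) =
              (R' + sg a.2 * (cl R' (z a.1) : ℝ)) * x (C.inp (a.1, false)) +
              (R' - sg a.2 * (cl R' (z a.1) : ℝ)) * x (C.inp (a.1, true)) := by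
            have e2 : ∀ f : Arc n m, (((fun p : Arc n m × Arc n m =>
              matE R' (uz C xb e0) z p.1 p.2) (Sum.inr a, f) : ℤ) : ℝ) / ((2 * R' : ℤ) : ℝ) *
              (2 * R' * x f) =
              (if C.inp (a.1, false) = f then (R' + sg a.2 * (cl R' (z a.1) : ℝ)) * x f else 0) +
              (if C.inp (a.1, true) = f then
                (R' - sg a.2 * (cl R' (z a.1) : ℝ)) * x f else 0) := by
              intro f
              simp only [mat_eq]
              push_cast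
              rw [sgz_cast]
              split_ifs <;> field_simp <;> ring
            rw [sum_congr rfl (fun f _ => e2 f), sum_add_distrib, sum_ite_eq, sum_ite_eq]
            simp
          rw [e1, hx.opn a rfl]
          change _ = _ + ((sgz a.2 * cl (4 * R') (w a.1) : ℤ) : ℝ)
          push_cast
          rw [sgz_cast]
          simp only [Sx, Dx]
          field_simp
          ring) e
    have h1 : (lin R' Y (4 * R') J A (uz C xb e0) z w e : ℝ) / (2 * R') - x e =
        ((lin R' Y (4 * R') J A (uz C xb e0) z w e : ℝ) - 2 * R' * x e) / (2 * R') := by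
      field_simp
    rw [h1, abs_div, abs_of_pos (show (0 : ℝ) < 2 * R' by positivity),
      div_le_iff₀ (by positivity)]
    refine le_trans key ?_
    have := h.hδ
    push_cast
    linarith
  · intro e
    have hM := matOK C xb e0 hR z
    have hv : ∀ e, |vecE (4 * R') A (uz C xb e0) w e| ≤ 2 * (2 * R') := by
      intro e
      rcases e with i | a
      · change |tb _ * A| ≤ _
        refine le_trans (abs_tb_mul_le _ _) ?_
        linarith
      · change |sgz a.2 * cl (4 * R') (w a.1)| ≤ _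
        rw [abs_sgz_mul]
        refine le_trans (abs_cl_le (by linarith) _) ?_
        linarith
    have h1 := vec_bound (R := 2 * R') (Y := Y) (by linarith) hM (b := 2 * (2 * R'))
      (by linarith) hv h.hY J le_rfl e
    have h2 := h.hY
    unfold lin solve
    linarith

/-! ### The tables -/

/-- Half slope. -/
noncomputable def ztab (R' : ℤ) (p : ℝ) (b : ℤ) : ℤ := ⌊(R' : ℝ) * T p ((b : ℝ) / (2 * R'))⌋

/-- Half offset. -/
noncomputable def wtab (R' : ℤ) (p c0 : ℝ) (b c : ℤ) : ℤ :=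
  ⌊(R' : ℝ) * (H p (clip ((b : ℝ) / (2 * R')) (3 / 10 * p) ((c : ℝ) / (2 * R'))) -
    T p ((b : ℝ) / (2 * R')) * clip ((b : ℝ) / (2 * R')) (3 / 10 * p) ((c : ℝ) / (2 * R')) - c0)⌋

theorem ztab_spec {R' : ℤ} (hR : 0 < R') {δ : ℝ} (hδ : 1 ≤ δ * R') (p : ℝ) (b : ℤ) :
    |(cl R' (ztab R' p b) : ℝ) / R' - T p ((b : ℝ) / (2 * R'))| ≤ δ ∧
      |(cl R' (ztab R' p b) : ℝ) / R'| ≤ 1 := by
  have hR' : (0 : ℝ) < R' := by exact_mod_cast hR
  set t := T p ((b : ℝ) / (2 * R')) with ht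
  obtain ⟨h1, h2⟩ := abs_le.1 (abs_T_le p ((b : ℝ) / (2 * R')))
  rw [← ht] at h1 h2
  have h3 := Int.floor_le ((R' : ℝ) * t)
  have h4 := Int.lt_floor_add_one ((R' : ℝ) * t)
  have h5 : |ztab R' p b| ≤ R' := by
    unfold ztab
    rw [← ht, abs_le]
    constructor
    · rw [Int.le_floor]
      push_cast
      nlinarith
    · have : (⌊(R' : ℝ) * t⌋ : ℝ) ≤ (R' : ℝ) := by nlinarith
      exact_mod_cast this
  constructor
  · rw [cl_eq h5]
    unfold ztab
    rw [← ht]
    have e1 : (⌊(R' : ℝ) * t⌋ : ℝ) / R' - t = ((⌊(R' : ℝ) * t⌋ : ℝ) - R' * t) / R' := by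
      field_simp
    rw [e1, abs_div, abs_of_pos hR', div_le_iff₀ hR']
    rw [abs_le]
    constructor <;> linarith
  · rw [abs_div, abs_of_pos hR', div_le_one hR']
    have := abs_cl_le hR.le (ztab R' p b)
    exact_mod_cast this

theorem wtab_spec {R' : ℤ} (hR : 0 < R') {δ : ℝ} (hδ : 1 ≤ δ * R') {p c0 : ℝ} (hp : 0 < p)
    (hp1 : p ≤ 1) (hc0 : 0 ≤ c0) (hc1 : c0 ≤ 1 / 2) (b c : ℤ) :
    |(cl (4 * R') (wtab R' p c0 b c) : ℝ) / R' -
      (H p (clip ((b : ℝ) / (2 * R')) (3 / 10 * p) ((c : ℝ) / (2 * R'))) -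
        T p ((b : ℝ) / (2 * R')) * clip ((b : ℝ) / (2 * R')) (3 / 10 * p) ((c : ℝ) / (2 * R')) -
        c0)| ≤ δ ∧
      |(cl (4 * R') (wtab R' p c0 b c) : ℝ) / R'| ≤ 4 := by
  have hR' : (0 : ℝ) < R' := by exact_mod_cast hR
  have hR1 : (1 : ℝ) ≤ R' := by exact_mod_cast hR
  have h0 := phi_bound hp (clip_mem (D := (b : ℝ) / (2 * R')) (r := 3 / 10 * p) (by positivity)
    ((c : ℝ) / (2 * R')))
  set z := clip ((b : ℝ) / (2 * R')) (3 / 10 * p) ((c : ℝ) / (2 * R')) with hz
  set t := H p z - T p ((b : ℝ) / (2 * R')) * z - c0 with ht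
  obtain ⟨h1, h2⟩ := abs_le.1 h0
  have h1' : -3 ≤ t := by rw [ht]; linarith
  have h2' : t ≤ 3 := by rw [ht]; linarith
  have h3 := Int.floor_le ((R' : ℝ) * t)
  have h4 := Int.lt_floor_add_one ((R' : ℝ) * t)
  have h5 : |wtab R' p c0 b c| ≤ 4 * R' := by
    unfold wtab
    rw [← hz, ← ht, abs_le]
    constructor
    · rw [Int.le_floor]
      push_cast
      nlinarith
    · have : (⌊(R' : ℝ) * t⌋ : ℝ) ≤ 4 * (R' : ℝ) := by nlinarith
      exact_mod_cast this
  constructor
  · rw [cl_eq h5]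
    unfold wtab
    rw [← hz, ← ht]
    have e1 : (⌊(R' : ℝ) * t⌋ : ℝ) / R' - t = ((⌊(R' : ℝ) * t⌋ : ℝ) - R' * t) / R' := by
      field_simp
    rw [e1, abs_div, abs_of_pos hR', div_le_iff₀ hR']
    rw [abs_le]
    constructor <;> linarith
  · rw [abs_div, abs_of_pos hR', div_le_iff₀ hR']
    have := abs_cl_le (show (0 : ℤ) ≤ 4 * R' by linarith) (wtab R' p c0 b c)
    exact_mod_cast this

/-! ### Inner steps -/

/-- Error of the solver and of the tables for one gate. -/
noncomputable def muE (m : ℕ) (δ : ℝ) : ℝ := δ * ((4 * m + 8) + 1)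

/-- Total noise of one inner step. -/
noncomputable def zE (m : ℕ) (δ : ℝ) : ℝ := m * (muE m δ * (3 * (4 * m + 8) + muE m δ)) / 2

theorem zE_nonneg (m : ℕ) {δ : ℝ} (hδ : 0 ≤ δ) : 0 ≤ zE m δ := by
  unfold zE muE
  positivity

/-- Weighted distance to the exact differences. -/
noncomputable def wd (R' : ℤ) (p : ℝ) (b c : Fin m → ℤ) (Dy : Fin m → ℝ) : ℝ :=
  ∑ g, (1 - T p ((b g : ℝ) / (2 * R')) ^ 2) * ((c g : ℝ) / (2 * R') - Dy g) ^ 2

theorem wt_nonneg (p y : ℝ) : 0 ≤ 1 - T p y ^ 2 := by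
  have := abs_T_le p y
  rw [abs_le] at this
  nlinarith

theorem wt_le_one (p y : ℝ) : 1 - T p y ^ 2 ≤ 1 := by nlinarith [sq_nonneg (T p y)]

theorem wd_nonneg (R' : ℤ) (p : ℝ) (b c : Fin m → ℤ) (Dy : Fin m → ℝ) :
    0 ≤ wd R' p b c Dy :=
  sum_nonneg (fun _ _ => mul_nonneg (wt_nonneg _ _) (sq_nonneg _))

/-- Everything about one application of the linear solver. -/
theorem inner_spec (C : CompCircuit n m) (xb : Fin n → Bool) (e0 : Arc n m) {R' Y : ℤ} {J : ℕ}
    {δ : ℝ} (h : SolOK n m R' Y J δ) {A : ℤ} (hA : |A| ≤ 2 * R')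
    {p c0 : ℝ} (hp : 0 < p) (hp1 : p ≤ 1) (hc0 : 0 ≤ c0) (hc1 : c0 ≤ 1 / 2)
    {y : Arc n m → ℝ}
    (hy : IsX C (fun _ => false) (kapR R' A xb) (fun g => H p (Dx C y g) - c0) y)
    (hyb : ∀ e, |y e| ≤ 2) (b c : Fin m → ℤ)
    (hb : ∀ g, |(b g : ℝ) / (2 * R') - Dx C y g| ≤ 3 / 10 * p)
    (hc : ∀ g, |(c g : ℝ) / (2 * R')| ≤ 4 * m + 4) :
    ∃ x : Arc n m → ℝ,
      (∀ e, |(lin R' Y (4 * R') J A (uz C xb e0) (fun g => ztab R' p (b g))
        (fun g => wtab R' p c0 (b g) (c g)) e : ℝ) / (2 * R') - x e| ≤ δ) ∧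
      (∀ e, |lin R' Y (4 * R') J A (uz C xb e0) (fun g => ztab R' p (b g))
        (fun g => wtab R' p c0 (b g) (c g)) e| ≤ Y) ∧
      (∀ e, |x e| ≤ 1 + 2 * m) ∧
      (∀ e, (x e - y e) ^ 2 ≤ 3 / 50 * wd R' p b c (Dx C y) + zE m δ) ∧
      ∑ g, (1 - T p ((b g : ℝ) / (2 * R')) ^ 2) * (Dx C x g - Dx C y g) ^ 2 ≤
        6 / 25 * wd R' p b c (Dx C y) + 4 * zE m δ := by
  have hR := h.hR
  have hR' : (0 : ℝ) < R' := by exact_mod_cast hR
  have hδ0 : 0 ≤ δ := by
    by_contra hneg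
    push Not at hneg
    have := h.hδR
    nlinarith
  obtain ⟨x, hx, hx1, hx2⟩ := lin_spec C xb e0 h hA (fun g => ztab R' p (b g))
    (fun g => wtab R' p c0 (b g) (c g))
  have hz := fun g => ztab_spec hR h.hδR p (b g)
  have hw := fun g => wtab_spec hR h.hδR hp hp1 hc0 hc1 (b g) (c g)
  have hxb : ∀ e, |x e| ≤ 1 + 2 * m := by
    intro e
    have h1 := sup_bound hx (β := 2) (κm := 1) (by norm_num) (fun g => by
      have h2 := (hz g).2
      have h3 := (hw g).2
      refine le_trans (abs_add_le _ _) ?_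
      rw [abs_mul]
      have h4 : |(cl R' (ztab R' p (b g)) : ℝ) / R'| * |Dx C x g| ≤ 1 * |Dx C x g| :=
        mul_le_mul_of_nonneg_right h2 (abs_nonneg _)
      linarith) (fun i => by
      change |(b2i (xb i) : ℝ) * A / (2 * R')| ≤ 1
      rw [abs_div, abs_of_pos (show (0 : ℝ) < 2 * R' by positivity),
        div_le_one (by positivity), abs_mul]
      have h2 : |(A : ℝ)| ≤ 2 * R' := by exact_mod_cast hA
      cases xb i
      · simp only [b2i_false, Int.cast_zero, abs_zero, zero_mul]; positivity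
      · simp only [b2i_true, Int.cast_one, abs_one, one_mul]; exact h2) e
    linarith
  have hDx : ∀ (s : Arc n m → ℝ) (r : ℝ), (∀ e, |s e| ≤ r) → ∀ g, |Dx C s g| ≤ 2 * r := by
    intro s r hs g
    unfold Dx
    have h1 := abs_sub (s (C.inp (g, false))) (s (C.inp (g, true)))
    have h2 := hs (C.inp (g, false))
    have h3 := hs (C.inp (g, true))
    linarith
  have hDxx := hDx x _ hxb
  have hDxy := hDx y _ hyb
  have hm0 : (0 : ℝ) ≤ m := Nat.cast_nonneg m
  have hμ : 0 ≤ muE m δ := by unfold muE; positivity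
  have key := chord hx hy (c := fun g => T p ((b g : ℝ) / (2 * R')))
    (d := fun g => (c g : ℝ) / (2 * R') - Dx C y g) (μ := muE m δ) (B := 4 * m + 8) hμ
    (fun g => abs_T_le _ _) (fun g => by
      have h1 := chord_gate (p := p) (Db := (b g : ℝ) / (2 * R')) (Ds := Dx C y g)
        (D0 := (c g : ℝ) / (2 * R')) (Dn := Dx C x g)
        (σ := (cl R' (ztab R' p (b g)) : ℝ) / R')
        (b := (cl (4 * R') (wtab R' p c0 (b g) (c g)) : ℝ) / R') (c0 := c0) (ν := δ)
        (B := 4 * m + 8) hp hδ0 (by rw [abs_sub_comm]; exact hb g) (hz g).1 (hw g).1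
        (by have := hDxx g; linarith)
      exact h1) (fun g => by
      have h1 := hDxx g
      have h2 := hDxy g
      have h3 := abs_sub (Dx C x g) (Dx C y g)
      linarith) (fun g => by
      have h1 := hc g
      have h2 := hDxy g
      have h3 := abs_sub ((c g : ℝ) / (2 * R')) (Dx C y g)
      linarith)
  refine ⟨x, hx1, hx2, hxb, ?_, ?_⟩
  · intro e
    exact key.2 e
  · refine le_trans key.1 (le_of_eq ?_)
    unfold wd zE
    ring

/-- One inner step halves the weighted distance. -/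
theorem inner_step (C : CompCircuit n m) (xb : Fin n → Bool) (e0 : Arc n m) {R' Y : ℤ} {J : ℕ}
    {δ : ℝ} (h : SolOK n m R' Y J δ) (hδ1 : δ ≤ 1) {A : ℤ} (hA : |A| ≤ 2 * R')
    {p c0 : ℝ} (hp : 0 < p) (hp1 : p ≤ 1) (hc0 : 0 ≤ c0) (hc1 : c0 ≤ 1 / 2)
    {y : Arc n m → ℝ}
    (hy : IsX C (fun _ => false) (kapR R' A xb) (fun g => H p (Dx C y g) - c0) y)
    (hyb : ∀ e, |y e| ≤ 2) (b c : Fin m → ℤ)
    (hb : ∀ g, |(b g : ℝ) / (2 * R') - Dx C y g| ≤ 3 / 10 * p)
    (hc : ∀ g, |(c g : ℝ) / (2 * R')| ≤ 4 * m + 4) :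
    (∀ g, |(inD R' Y (4 * R') J (ztab R' p) (wtab R' p c0) A (uz C xb e0) b c g : ℝ) /
      (2 * R')| ≤ 4 * m + 4) ∧
    wd R' p b (inD R' Y (4 * R') J (ztab R' p) (wtab R' p c0) A (uz C xb e0) b c) (Dx C y) ≤
      1 / 2 * wd R' p b c (Dx C y) + (8 * zE m δ + 8 * m * δ ^ 2) ∧
    (∀ ρ : ℝ, 0 ≤ ρ → 3 / 50 * wd R' p b c (Dx C y) + zE m δ ≤ ρ ^ 2 →
      ∀ g, |(inD R' Y (4 * R') J (ztab R' p) (wtab R' p c0) A (uz C xb e0) b c g : ℝ) /
        (2 * R') - Dx C y g| ≤ 2 * ρ + 2 * δ) := by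
  have hR := h.hR
  have hR' : (0 : ℝ) < R' := by exact_mod_cast hR
  have hδ0 : 0 ≤ δ := by
    by_contra hneg
    push Not at hneg
    have := h.hδR
    nlinarith
  obtain ⟨x, hx1, hx2, hx3, hx4, hx5⟩ := inner_spec C xb e0 h hA hp hp1 hc0 hc1 hy hyb b c
    hb hc
  set y1 := lin R' Y (4 * R') J A (uz C xb e0) (fun g => ztab R' p (b g))
    (fun g => wtab R' p c0 (b g) (c g)) with hy1
  set c' := inD R' Y (4 * R') J (ztab R' p) (wtab R' p c0) A (uz C xb e0) b c with hc'
  have hc'eq : ∀ g, c' g = y1 (C.inp (g, false)) - y1 (C.inp (g, true)) := by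
    intro g
    rw [hc']
    change selZ Y (uz C xb e0) y1 (g, false) - selZ Y (uz C xb e0) y1 (g, true) = _
    rw [sel_eq, sel_eq, cl_eq (hx2 _), cl_eq (hx2 _)]
  have hnear : ∀ g, |(c' g : ℝ) / (2 * R') - Dx C x g| ≤ 2 * δ := by
    intro g
    have h1 := hx1 (C.inp (g, false))
    have h2 := hx1 (C.inp (g, true))
    have e1 : (c' g : ℝ) / (2 * R') - Dx C x g =
      ((y1 (C.inp (g, false)) : ℝ) / (2 * R') - x (C.inp (g, false))) -
      ((y1 (C.inp (g, true)) : ℝ) / (2 * R') - x (C.inp (g, true))) := by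
      rw [hc'eq]
      unfold Dx
      push_cast
      ring
    rw [e1]
    refine le_trans (abs_sub _ _) ?_
    linarith
  refine ⟨?_, ?_, ?_⟩
  · intro g
    have h1 := hnear g
    have h2 := hx3 (C.inp (g, false))
    have h3 := hx3 (C.inp (g, true))
    have h4 : |Dx C x g| ≤ 2 * (1 + 2 * m) := by
      unfold Dx
      have := abs_sub (x (C.inp (g, false))) (x (C.inp (g, true)))
      linarith
    have h5 : |(c' g : ℝ) / (2 * R')| ≤ |(c' g : ℝ) / (2 * R') - Dx C x g| + |Dx C x g| := by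
      have := abs_add_le ((c' g : ℝ) / (2 * R') - Dx C x g) (Dx C x g)
      rwa [sub_add_cancel] at this
    linarith
  · have h1 : wd R' p b c' (Dx C y) ≤ ∑ g, (2 * ((1 - T p ((b g : ℝ) / (2 * R')) ^ 2) *
        (Dx C x g - Dx C y g) ^ 2) + 8 * δ ^ 2) := by
      unfold wd
      apply sum_le_sum
      intro g _
      have h2 := wt_nonneg p ((b g : ℝ) / (2 * R'))
      have h3 := wt_le_one p ((b g : ℝ) / (2 * R'))
      set w := 1 - T p ((b g : ℝ) / (2 * R')) ^ 2
      have h4 : ((c' g : ℝ) / (2 * R') - Dx C y g) ^ 2 ≤ 2 * (Dx C x g - Dx C y g) ^ 2 +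
          2 * (2 * δ) ^ 2 := by
        have h5 := abs_le.1 (hnear g)
        have h6 : ((c' g : ℝ) / (2 * R') - Dx C x g) ^ 2 ≤ (2 * δ) ^ 2 := by
          rw [sq_le_sq, abs_of_nonneg (show 0 ≤ 2 * δ by positivity)]
          exact hnear g
        nlinarith [sq_nonneg (((c' g : ℝ) / (2 * R') - Dx C x g) - (Dx C x g - Dx C y g))]
      calc w * ((c' g : ℝ) / (2 * R') - Dx C y g) ^ 2 ≤
            w * (2 * (Dx C x g - Dx C y g) ^ 2 + 2 * (2 * δ) ^ 2) :=
            mul_le_mul_of_nonneg_left h4 h2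
        _ = 2 * (w * (Dx C x g - Dx C y g) ^ 2) + w * (8 * δ ^ 2) := by ring
        _ ≤ 2 * (w * (Dx C x g - Dx C y g) ^ 2) + 1 * (8 * δ ^ 2) := by
            have := mul_le_mul_of_nonneg_right h3 (show 0 ≤ 8 * δ ^ 2 by positivity)
            linarith
        _ = _ := by ring
    rw [sum_add_distrib, ← mul_sum, sum_const, card_univ, Fintype.card_fin, nsmul_eq_mul] at h1
    have h2 := wd_nonneg R' p b c (Dx C y)
    linarith
  · intro ρ hρ hle g
    have h1 := hnear g
    have h2 : ∀ e, |x e - y e| ≤ ρ := by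
      intro e
      apply abs_le_of_sq_le_sq _ hρ
      exact le_trans (hx4 e) hle
    have h3 := h2 (C.inp (g, false))
    have h4 := h2 (C.inp (g, true))
    have e1 : (c' g : ℝ) / (2 * R') - Dx C y g = ((c' g : ℝ) / (2 * R') - Dx C x g) +
      ((x (C.inp (g, false)) - y (C.inp (g, false))) -
        (x (C.inp (g, true)) - y (C.inp (g, true)))) := by
      unfold Dx
      ring
    rw [e1]
    refine le_trans (abs_add_le _ _) ?_
    have h5 := abs_sub (x (C.inp (g, false)) - y (C.inp (g, false)))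
      (x (C.inp (g, true)) - y (C.inp (g, true)))
    linarith

/-- Precision of one step. -/
structure RhoOK (m k : ℕ) (δ ρ : ℝ) : Prop where
  ρ_nonneg : 0 ≤ ρ
  δρ : δ ≤ ρ
  ρ_le : ρ ≤ 1 / 100
  noise : 8 * zE m δ + 8 * m * δ ^ 2 ≤ ρ ^ 2
  iter : (m : ℝ) ≤ ρ ^ 2 * 2 ^ k
  last : m * (4 * ρ) ^ 2 ≤ 1 / 100

/-- One step with `k + 1` inner steps. -/
theorem outer_step (C : CompCircuit n m) (xb : Fin n → Bool) (e0 : Arc n m) {R' Y : ℤ} {J : ℕ}
    {δ : ℝ} (h : SolOK n m R' Y J δ) {k : ℕ} {ρ : ℝ} (hρ : RhoOK m k δ ρ) {A : ℤ}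
    (hA : |A| ≤ 2 * R')
    {p c0 : ℝ} (hp : 0 < p) (hp1 : p ≤ 1) (hc0 : 0 ≤ c0) (hc1 : c0 ≤ 1 / 2)
    {y : Arc n m → ℝ}
    (hy : IsX C (fun _ => false) (kapR R' A xb) (fun g => H p (Dx C y g) - c0) y)
    (hyb : ∀ e, |y e| ≤ 2) (b : Fin m → ℤ)
    (hb : ∀ g, |(b g : ℝ) / (2 * R') - Dx C y g| ≤ 3 / 10 * p) (g : Fin m) :
    |(outD R' Y (4 * R') J (k + 1) (ztab R' p) (wtab R' p c0) A (uz C xb e0) b g : ℝ) /
      (2 * R') - Dx C y g| ≤ 4 * ρ := by
  have hR := h.hR
  have hR' : (0 : ℝ) < R' := by exact_mod_cast hR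
  have hδ0 : 0 ≤ δ := by
    by_contra hneg
    push Not at hneg
    have := h.hδR
    nlinarith
  have hδ1 : δ ≤ 1 := by linarith [hρ.δρ, hρ.ρ_le]
  have hm0 : (0 : ℝ) ≤ m := Nat.cast_nonneg m
  have hz0 := zE_nonneg m hδ0
  have hnoise := hρ.noise
  set F := inD R' Y (4 * R') J (ztab R' p) (wtab R' p c0) A (uz C xb e0) b with hF
  have hDxy : ∀ g, |Dx C y g| ≤ 4 := by
    intro g
    unfold Dx
    have h1 := abs_sub (y (C.inp (g, false))) (y (C.inp (g, true)))
    have h2 := hyb (C.inp (g, false))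
    have h3 := hyb (C.inp (g, true))
    linarith
  have hinv : ∀ j, (∀ g, |((F^[j] b) g : ℝ) / (2 * R')| ≤ 4 * m + 4) ∧
      wd R' p b (F^[j] b) (Dx C y) ≤ m / 2 ^ j + 2 * ρ ^ 2 := by
    intro j
    induction j with
    | zero =>
      constructor
      · intro g
        simp only [Function.iterate_zero, id_eq]
        have h1 := hb g
        have h2 := hDxy g
        have h3 : |(b g : ℝ) / (2 * R')| ≤ |(b g : ℝ) / (2 * R') - Dx C y g| + |Dx C y g| := by
          have := abs_add_le ((b g : ℝ) / (2 * R') - Dx C y g) (Dx C y g)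
          rwa [sub_add_cancel] at this
        have hm1 : (1 : ℝ) ≤ m := by
          have : 0 < m := lt_of_le_of_lt (Nat.zero_le _) g.isLt
          exact_mod_cast this
        linarith
      · simp only [Function.iterate_zero, id_eq, pow_zero, div_one]
        have h1 : wd R' p b b (Dx C y) ≤ ∑ _g : Fin m, (1 : ℝ) := by
          unfold wd
          apply sum_le_sum
          intro g _
          have h2 := wt_nonneg p ((b g : ℝ) / (2 * R'))
          have h3 := wt_le_one p ((b g : ℝ) / (2 * R'))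
          have h4 : ((b g : ℝ) / (2 * R') - Dx C y g) ^ 2 ≤ 1 := by
            rw [sq_le_one_iff_abs_le_one]
            have := hb g
            linarith
          calc _ ≤ 1 * (1 : ℝ) := mul_le_mul h3 h4 (sq_nonneg _) zero_le_one
            _ = 1 := one_mul _
        rw [sum_const, card_univ, Fintype.card_fin, nsmul_eq_mul, mul_one] at h1
        have := sq_nonneg ρ
        linarith
    | succ j ih =>
      obtain ⟨ih1, ih2⟩ := ih
      have h1 := inner_step C xb e0 h hδ1 hA hp hp1 hc0 hc1 hy hyb b (F^[j] b) hb ih1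
      rw [← hF] at h1
      rw [Function.iterate_succ_apply']
      refine ⟨h1.1, le_trans h1.2.1 ?_⟩
      have e1 : (m : ℝ) / 2 ^ (j + 1) = (m : ℝ) / 2 ^ j / 2 := by
        rw [pow_succ, div_div]
      rw [e1]
      linarith
  obtain ⟨h1, h2⟩ := hinv k
  have h3 := inner_step C xb e0 h hδ1 hA hp hp1 hc0 hc1 hy hyb b (F^[k] b) hb h1
  rw [← hF] at h3
  have h4 : (m : ℝ) / 2 ^ k ≤ ρ ^ 2 := by
    rw [div_le_iff₀ (by positivity)]
    exact hρ.iter
  have h5 := h3.2.2 ρ hρ.ρ_nonneg (by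
    have h6 : zE m δ ≤ ρ ^ 2 / 8 := by
      have : 0 ≤ 8 * (m : ℝ) * δ ^ 2 := by positivity
      linarith
    have h7 := sq_nonneg ρ
    linarith) g
  unfold outD
  rw [Function.iterate_succ_apply', ← hF]
  have := hρ.δρ
  linarith

/-- The output of the machine. -/
theorem mach_correct {R' Y : ℤ} {J : ℕ} {δ : ℝ} (h : SolOK n m R' Y J δ) {k : ℕ} {ρ : ℝ}
    (hρ : RhoOK m k δ ρ) (Hn : ℕ) (p : ℕ → ℝ) (A : ℕ → ℤ) {c0 : ℝ} (hc0 : 0 ≤ c0)
    (hc1 : c0 ≤ 1 / 2) (hp : ∀ j, j ≤ Hn → 0 < p j ∧ p j ≤ 1 ∧ 20 * ρ ≤ p j)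
    (hA : ∀ j, j ≤ Hn → |A j| ≤ 2 * R') (C : CompCircuit n m) (xb : Fin n → Bool)
    (x : ℕ → Arc n m → ℝ)
    (hx : ∀ j, j ≤ Hn → IsX C (fun _ => false) (kapR R' (A j) xb)
      (fun g => H (p j) (Dx C (x j) g) - c0) (x j))
    (hb : ∀ j, j ≤ Hn → ∀ e, |x j e| ≤ 2) (h0 : ∀ e, x 0 e = 0)
    (hstep : ∀ j, j < Hn → ∀ g, |Dx C (x (j + 1)) g - Dx C (x j) g| ≤ p (j + 1) / 10)
    (v : Arc n m → Bool) (hend : ∀ e, |x Hn e - (b2i (v e) : ℝ)| ≤ 1 / 3) (e0 : Arc n m) :
    outZ R' (uz C xb e0) (finX R' Y (4 * R') J (k + 1) (fun j => ztab R' (p (min (j + 1) Hn)))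
      (fun j => wtab R' (p (min (j + 1) Hn)) c0) (fun j => A (min (j + 1) Hn)) Hn
      (uz C xb e0)) = b2i (v e0) := by
  have hR := h.hR
  have hR' : (0 : ℝ) < R' := by exact_mod_cast hR
  have hδ0 : 0 ≤ δ := by
    by_contra hneg
    push Not at hneg
    have := h.hδR
    nlinarith
  have hδ1 : δ ≤ 1 := by linarith [hρ.δρ, hρ.ρ_le]
  have hm0 : (0 : ℝ) ≤ m := Nat.cast_nonneg m
  set tr := trajD R' Y (4 * R') J (k + 1) (fun j => ztab R' (p (min (j + 1) Hn)))
      (fun j => wtab R' (p (min (j + 1) Hn)) c0) (fun j => A (min (j + 1) Hn))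
      (uz C xb e0) with htr
  have hinv : ∀ j, j ≤ Hn → ∀ g, |(tr j g : ℝ) / (2 * R') - Dx C (x j) g| ≤ 4 * ρ := by
    intro j
    induction j with
    | zero =>
      intro _ g
      have h1 : tr 0 g = 0 := rfl
      rw [h1]
      simp only [Dx, h0]
      simp only [Int.cast_zero, zero_div, sub_self, abs_zero]
      have := hρ.ρ_nonneg
      linarith
    | succ j ih =>
      intro hj g
      have ih' := ih (by omega)
      have hmin : min (j + 1) Hn = j + 1 := by omega
      obtain ⟨hp0, hp1, hp16⟩ := hp (j + 1) hj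
      have h1 := outer_step C xb e0 h hρ (hA (j + 1) hj) hp0 hp1 hc0 hc1 (hx (j + 1) hj)
        (hb (j + 1) hj) (tr j) (fun g => by
          have h2 := ih' g
          have h3 := hstep j (by omega) g
          have e1 : (tr j g : ℝ) / (2 * R') - Dx C (x (j + 1)) g =
            ((tr j g : ℝ) / (2 * R') - Dx C (x j) g) -
              (Dx C (x (j + 1)) g - Dx C (x j) g) := by ring
          rw [e1]
          refine le_trans (abs_sub _ _) ?_
          linarith) g
      have h2 : tr (j + 1) = outD R' Y (4 * R') J (k + 1) (ztab R' (p (j + 1)))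
          (wtab R' (p (j + 1)) c0) (A (j + 1)) (uz C xb e0) (tr j) := by
        rw [htr]
        simp only [trajD, hmin]
      rw [h2]
      exact h1
  obtain ⟨hp0, hp1, hp16⟩ := hp Hn le_rfl
  have hlast := hinv Hn le_rfl
  have hmin : min (Hn + 1) Hn = Hn := by omega
  have hDxy : ∀ g, |Dx C (x Hn) g| ≤ 4 := by
    intro g
    unfold Dx
    have h1 := abs_sub (x Hn (C.inp (g, false))) (x Hn (C.inp (g, true)))
    have h2 := hb Hn le_rfl (C.inp (g, false))
    have h3 := hb Hn le_rfl (C.inp (g, true))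
    linarith
  obtain ⟨xx, hx1, hx2, hx3, hx4, hx5⟩ := inner_spec C xb e0 h (hA Hn le_rfl) hp0 hp1 hc0
    hc1 (hx Hn le_rfl) (hb Hn le_rfl) (tr Hn) (tr Hn)
    (fun g => by
      have := hlast g
      linarith)
    (fun g => by
      have h1 := hlast g
      have h2 := hDxy g
      have h3 : |(tr Hn g : ℝ) / (2 * R')| ≤
          |(tr Hn g : ℝ) / (2 * R') - Dx C (x Hn) g| + |Dx C (x Hn) g| := by
        have := abs_add_le ((tr Hn g : ℝ) / (2 * R') - Dx C (x Hn) g) (Dx C (x Hn) g)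
        rwa [sub_add_cancel] at this
      have hm1 : (1 : ℝ) ≤ m := by
        have : 0 < m := lt_of_le_of_lt (Nat.zero_le _) g.isLt
        exact_mod_cast this
      have h4 := hρ.ρ_le
      linarith)
  have hwd : wd R' (p Hn) (tr Hn) (tr Hn) (Dx C (x Hn)) ≤ 1 / 100 := by
    have h1 : wd R' (p Hn) (tr Hn) (tr Hn) (Dx C (x Hn)) ≤ ∑ _g : Fin m, (4 * ρ) ^ 2 := by
      unfold wd
      apply sum_le_sum
      intro g _
      have h2 := wt_nonneg (p Hn) ((tr Hn g : ℝ) / (2 * R'))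
      have h3 := wt_le_one (p Hn) ((tr Hn g : ℝ) / (2 * R'))
      have h4 : ((tr Hn g : ℝ) / (2 * R') - Dx C (x Hn) g) ^ 2 ≤ (4 * ρ) ^ 2 := by
        rw [sq_le_sq, abs_of_nonneg (show 0 ≤ 4 * ρ by have := hρ.ρ_nonneg; positivity)]
        exact hlast g
      calc _ ≤ 1 * (4 * ρ) ^ 2 := mul_le_mul h3 h4 (sq_nonneg _) zero_le_one
        _ = _ := one_mul _
    rw [sum_const, card_univ, Fintype.card_fin, nsmul_eq_mul] at h1
    exact le_trans h1 hρ.last
  have hz : zE m δ ≤ 1 / 1000 := by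
    have h1 := hρ.noise
    have h2 : 0 ≤ 8 * (m : ℝ) * δ ^ 2 := by positivity
    have h3 := hρ.ρ_nonneg
    have h4 := hρ.ρ_le
    nlinarith
  have hcl : |xx e0 - x Hn e0| ≤ 1 / 16 := by
    apply abs_le_of_sq_le_sq _ (by norm_num)
    have := hx4 e0
    norm_num
    linarith
  have hfin : finX R' Y (4 * R') J (k + 1) (fun j => ztab R' (p (min (j + 1) Hn)))
      (fun j => wtab R' (p (min (j + 1) Hn)) c0) (fun j => A (min (j + 1) Hn)) Hn
      (uz C xb e0) = lin R' Y (4 * R') J (A Hn) (uz C xb e0) (fun g => ztab R' (p Hn) (tr Hn g))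
        (fun g => wtab R' (p Hn) c0 (tr Hn g) (tr Hn g)) := by
    unfold finX
    simp only [hmin]
    rw [htr]
  rw [out_eq, hfin]
  have h1 := abs_le.1 (hx1 e0)
  have h2 := abs_le.1 hcl
  have h3 := abs_le.1 (hend e0)
  have h4 : δ ≤ 1 / 100 := le_trans hρ.δρ hρ.ρ_le
  set yy := lin R' Y (4 * R') J (A Hn) (uz C xb e0) (fun g => ztab R' (p Hn) (tr Hn g))
        (fun g => wtab R' (p Hn) c0 (tr Hn g) (tr Hn g)) e0 with hyy
  cases hv : v e0
  · rw [hv] at h3
    simp only [b2i_false, Int.cast_zero, sub_zero] at h3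
    have h5 : (yy : ℝ) / (2 * R') < 1 / 2 := by linarith [h1.2, h2.2, h3.2]
    rw [div_lt_iff₀ (by positivity)] at h5
    have h6 : (yy : ℝ) < R' := by linarith
    have h7 : yy < R' := by exact_mod_cast h6
    rw [if_neg (by omega), b2i_false]
  · rw [hv] at h3
    simp only [b2i_true, Int.cast_one] at h3
    have h5 : 1 / 2 < (yy : ℝ) / (2 * R') := by linarith [h1.1, h2.1, h3.1]
    rw [lt_div_iff₀ (by positivity)] at h5
    have h6 : (R' : ℝ) < yy := by linarith
    have h7 : R' < yy := by exact_mod_cast h6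
    rw [if_pos (by omega), b2i_true]

end Pool.Agent.LibCC89
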