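import Pool.Agent.LibCC89.TrajA

/-!
The schedule of temperatures and amplitudes and the trajectory of states.
-/

namespace Pool.Agent.LibCC89

open Pool.Agent.LibCC Pool.Agent.LibCCS Pool.Agent.LibCC67

variable {n m : ℕ}

/-- Time scale. -/
def Tq (J : ℕ) : ℕ := 320 * J

/-- Number of heating steps. -/
def n1 (J L : ℕ) : ℕ := 4 * L * Tq J

/-- Temperature at time `j`. -/
noncomputable def pj (J L j : ℕ) : ℝ := 40 / (Tq J : ℝ) / (1 + 1 / (Tq J : ℝ)) ^ (n1 J L - j)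

/-- Amplitude of the sources at time `j`. -/
noncomputable def aj (J L j : ℕ) : ℝ := min 1 (((j - n1 J L : ℕ) : ℝ) / (Tq J : ℝ))

/-- Number of steps. -/
def Hn (J L : ℕ) : ℕ := n1 J L + Tq J

section sched

variable {J L : ℕ}

theorem Tq_ge (hJ1 : 1 ≤ J) : 320 ≤ Tq J := by
  unfold Tq
  omega

theorem Tq_pos (hJ1 : 1 ≤ J) : (0 : ℝ) < (Tq J : ℝ) := by
  have := Tq_ge hJ1
  have h : 0 < Tq J := by omega
  exact_mod_cast h

theorem one_lt_base (hJ1 : 1 ≤ J) : (1 : ℝ) < 1 + 1 / (Tq J : ℝ) := by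
  have := Tq_pos hJ1
  have : 0 < 1 / (Tq J : ℝ) := by positivity
  linarith

theorem pj_pos (hJ1 : 1 ≤ J) (j : ℕ) : 0 < pj J L j := by
  have h1 := Tq_pos hJ1
  have h2 := one_lt_base hJ1
  unfold pj
  positivity

theorem pj_le (hJ1 : 1 ≤ J) (j : ℕ) : pj J L j ≤ 40 / (Tq J : ℝ) := by
  have h1 := Tq_pos hJ1
  have h2 := one_lt_base hJ1
  unfold pj
  exact div_le_self (by positivity) (one_le_pow₀ h2.le)

theorem pj_le' (hJ1 : 1 ≤ J) (j : ℕ) : pj J L j * J ≤ 1 / 8 := by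
  have h1 := Tq_pos hJ1
  have h2 := pj_le (L := L) hJ1 j
  have h3 : (0 : ℝ) ≤ J := by positivity
  refine (mul_le_mul_of_nonneg_right h2 h3).trans ?_
  have h4 : (Tq J : ℝ) = 320 * J := by
    unfold Tq
    push_cast
    ring
  rw [div_mul_eq_mul_div, div_le_iff₀ h1, h4]
  linarith

theorem pj_le_one (hJ1 : 1 ≤ J) (j : ℕ) : pj J L j ≤ 1 := by
  have h1 := Tq_pos hJ1
  refine (pj_le hJ1 j).trans ?_
  rw [div_le_one h1]
  have := Tq_ge hJ1
  exact_mod_cast (by omega : 40 ≤ Tq J)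

/-- During heating the temperature grows by the factor `1 + 1 / T`. -/
theorem pj_succ (hJ1 : 1 ≤ J) {j : ℕ} (hj : j < n1 J L) :
    pj J L (j + 1) = pj J L j * (1 + 1 / (Tq J : ℝ)) := by
  have h2 := one_lt_base hJ1
  unfold pj
  have h3 : n1 J L - j = (n1 J L - (j + 1)) + 1 := by omega
  rw [h3, pow_succ]
  field_simp

theorem pj_late {j : ℕ} (hj : n1 J L ≤ j) : pj J L j = 40 / (Tq J : ℝ) := by
  unfold pj
  rw [Nat.sub_eq_zero_of_le hj]
  simp

theorem pj_mono (hJ1 : 1 ≤ J) {i j : ℕ} (hij : i ≤ j) : pj J L i ≤ pj J L j := by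
  have h1 := Tq_pos hJ1
  have h2 := one_lt_base hJ1
  unfold pj
  apply div_le_div_of_nonneg_left (by positivity) (by positivity)
  exact pow_le_pow_right₀ h2.le (by omega)

theorem two_le_pow' (hJ1 : 1 ≤ J) : 2 ≤ (1 + 1 / (Tq J : ℝ)) ^ Tq J := by
  have h1 := Tq_pos hJ1
  have h2 := one_add_mul_le_pow (a := 1 / (Tq J : ℝ)) (by
    have : 0 < 1 / (Tq J : ℝ) := by positivity
    linarith) (Tq J)
  have h3 : (Tq J : ℝ) * (1 / (Tq J : ℝ)) = 1 := by
    field_simp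
  linarith

theorem pow_le_three' (hJ1 : 1 ≤ J) : (1 + 1 / (Tq J : ℝ)) ^ Tq J ≤ 3 := by
  have h1 := Tq_pos hJ1
  have h2 : (1 + 1 / (Tq J : ℝ)) ≤ Real.exp (1 / (Tq J : ℝ)) := by
    have := Real.add_one_le_exp (1 / (Tq J : ℝ))
    linarith
  calc (1 + 1 / (Tq J : ℝ)) ^ Tq J ≤ Real.exp (1 / (Tq J : ℝ)) ^ Tq J :=
        pow_le_pow_left₀ (by positivity) h2 _
    _ = Real.exp 1 := by
        rw [← Real.exp_nat_mul]
        congr 1
        field_simp
    _ ≤ 3 := by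
        have := Real.exp_one_lt_d9
        linarith

/-- The temperature at the start is small. -/
theorem pj_zero_le (hJ1 : 1 ≤ J) : pj J L 0 ≤ 1 / (2 ^ L) ^ 4 := by
  have h1 := Tq_pos hJ1
  have h2 := two_le_pow' hJ1
  unfold pj
  rw [Nat.sub_zero]
  have h3 : (1 + 1 / (Tq J : ℝ)) ^ n1 J L = ((1 + 1 / (Tq J : ℝ)) ^ Tq J) ^ (4 * L) := by
    rw [← pow_mul]
    congr 1
    unfold n1
    ring
  rw [h3]
  have h4 : (2 : ℝ) ^ (4 * L) ≤ ((1 + 1 / (Tq J : ℝ)) ^ Tq J) ^ (4 * L) :=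
    pow_le_pow_left₀ (by norm_num) h2 _
  have h5 : ((2 : ℝ) ^ L) ^ 4 = 2 ^ (4 * L) := by
    rw [← pow_mul]
    ring_nf
  rw [h5]
  apply div_le_div₀ (by norm_num) _ (by positivity) h4
  rw [div_le_one h1]
  have := Tq_ge hJ1
  exact_mod_cast (by omega : 40 ≤ Tq J)

/-- The temperature is never too small. -/
theorem pj_ge (hJ1 : 1 ≤ J) (j : ℕ) : 40 / (Tq J : ℝ) / (2 ^ L) ^ 7 ≤ pj J L j := by
  have h1 := Tq_pos hJ1
  have h2 := pow_le_three' hJ1
  refine le_trans ?_ (pj_mono hJ1 (Nat.zero_le j))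
  unfold pj
  rw [Nat.sub_zero]
  have h3 : (1 + 1 / (Tq J : ℝ)) ^ n1 J L = ((1 + 1 / (Tq J : ℝ)) ^ Tq J) ^ (4 * L) := by
    rw [← pow_mul]
    congr 1
    unfold n1
    ring
  rw [h3]
  have h4 : ((1 + 1 / (Tq J : ℝ)) ^ Tq J) ^ (4 * L) ≤ 3 ^ (4 * L) :=
    pow_le_pow_left₀ (by positivity) h2 _
  have h5 : (3 : ℝ) ^ (4 * L) ≤ (2 ^ L) ^ 7 := by
    calc (3 : ℝ) ^ (4 * L) = 81 ^ L := by
          rw [pow_mul]
          norm_num
      _ ≤ 128 ^ L := pow_le_pow_left₀ (by norm_num) (by norm_num) _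
      _ = (2 ^ L) ^ 7 := by
          rw [← pow_mul, mul_comm L 7, pow_mul]
          norm_num
  exact div_le_div_of_nonneg_left (by positivity) (by positivity) (h4.trans h5)

theorem aj_nonneg (j : ℕ) : 0 ≤ aj J L j := by
  unfold aj
  exact le_min zero_le_one (by positivity)

theorem aj_le_one (j : ℕ) : aj J L j ≤ 1 := min_le_left _ _

theorem aj_early {j : ℕ} (hj : j ≤ n1 J L) : aj J L j = 0 := by
  unfold aj
  rw [Nat.sub_eq_zero_of_le hj]
  simp

theorem aj_last (hJ1 : 1 ≤ J) : aj J L (Hn J L) = 1 := by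
  have h1 := Tq_pos hJ1
  unfold aj Hn
  rw [Nat.add_sub_cancel_left, div_self h1.ne', min_self]

theorem aj_step (hJ1 : 1 ≤ J) (j : ℕ) : |aj J L (j + 1) - aj J L j| ≤ 1 / (Tq J : ℝ) := by
  have h1 := Tq_pos hJ1
  unfold aj
  refine (abs_min_sub_min_le_max 1 _ 1 _).trans ?_
  rw [sub_self, abs_zero]
  apply max_le (by positivity)
  rw [← sub_div, abs_div, abs_of_pos h1]
  apply div_le_div_of_nonneg_right _ h1.le
  rcases Nat.lt_or_ge j (n1 J L) with h | h
  · rw [Nat.sub_eq_zero_of_le h, Nat.sub_eq_zero_of_le h.le]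
    simp
  · rw [show j + 1 - n1 J L = (j - n1 J L) + 1 by omega]
    push_cast
    rw [add_sub_cancel_left, abs_one]

end sched

/-- Source values at time `j`. -/
noncomputable def kj (J L : ℕ) (b : Fin n → Bool) (j : ℕ) : Arc n m → ℝ
  | Sum.inl i => aj J L j * b2r (b i)
  | Sum.inr _ => 0

theorem b2r_nonneg (b : Bool) : 0 ≤ b2r b := by cases b <;> simp [b2r]
theorem b2r_le_one (b : Bool) : b2r b ≤ 1 := by cases b <;> simp [b2r]

/-- The constant. -/
noncomputable def cc (J L : ℕ) : ℝ := H (pj J L 0) 0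

theorem cc_eq (J L : ℕ) : cc J L = 2 * pj J L 0 * Real.log 2 := H_zero_right _

theorem cc_nonneg {J L : ℕ} (hJ1 : 1 ≤ J) : 0 ≤ cc J L := by
  rw [cc_eq]
  have := pj_pos (L := L) hJ1 0
  have h2 : 0 < Real.log 2 := Real.log_pos (by norm_num)
  positivity

theorem cc_le {J L : ℕ} (hJ1 : 1 ≤ J) : cc J L ≤ 2 / (2 ^ L) ^ 4 := by
  rw [cc_eq]
  have h1 := pj_pos (L := L) hJ1 0
  have h2 := pj_zero_le (L := L) hJ1
  have h3 : Real.log 2 ≤ 1 := by
    have := Real.log_two_lt_d9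
    linarith
  have h4 : 0 < Real.log 2 := Real.log_pos (by norm_num)
  calc 2 * pj J L 0 * Real.log 2 ≤ 2 * pj J L 0 * 1 := by
        apply mul_le_mul_of_nonneg_left h3 (by positivity)
    _ ≤ 2 * (1 / (2 ^ L) ^ 4) * 1 := by nlinarith
    _ = _ := by ring

/-- The trajectory: `x j` is the state at time `j`. -/
def Traj (C : CompCircuit n m) (b : Fin n → Bool) (J L : ℕ) (x : ℕ → Arc n m → ℝ) : Prop :=
  ∀ j, Sol C (pj J L j) (kj J L b j) (cc J L) (x j)

theorem exists_traj (C : CompCircuit n m) (b : Fin n → Bool) (J L : ℕ) :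
    ∃ x, Traj C b J L x := by
  choose x hx using fun j => exists_sol C (pj J L j) (kj (m := m) J L b j) (cc J L)
  exact ⟨x, hx⟩

theorem traj_zero {C : CompCircuit n m} {b : Fin n → Bool} {J L : ℕ}
    {x : ℕ → Arc n m → ℝ} (h : Traj C b J L x) (hJ1 : 1 ≤ J) (e : Arc n m) : x 0 e = 0 := by
  have h0 := sol_zero C (pj J L 0) (κ := kj (m := m) J L b 0) (fun i => by
    change aj J L 0 * b2r (b i) = 0
    rw [aj_early (Nat.zero_le _), zero_mul])
  have h1 := sol_lip (pj_pos hJ1 0).le h0 (h 0) (r := 0) (fun i => by simp) e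
  have h2 : cc J L - H (pj J L 0) 0 = 0 := sub_self _
  rw [h2] at h1
  simp only [abs_zero, mul_zero, zero_div, add_zero, sub_zero] at h1
  exact abs_eq_zero.1 (le_antisymm h1 (abs_nonneg _))

/-- One step changes every arc by little. -/
theorem traj_step {C : CompCircuit n m} {b : Fin n → Bool} {J L : ℕ}
    {x : ℕ → Arc n m → ℝ} (h : Traj C b J L x) (hJ : Drifts C J) (hJ1 : 1 ≤ J)
    (j : ℕ) (e : Arc n m) : |x (j + 1) e - x j e| ≤ pj J L (j + 1) / 40 := by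
  have hT := Tq_pos hJ1
  have hTJ : (Tq J : ℝ) = 320 * J := by
    unfold Tq
    push_cast
    ring
  rcases Nat.lt_or_ge j (n1 J L) with hj | hj
  · -- heating
    have h1 := h j
    have h2 := h (j + 1)
    have hk : kj (m := m) J L b (j + 1) = kj J L b j := by
      funext a
      rcases a with i | a
      · change aj J L (j + 1) * b2r (b i) = aj J L j * b2r (b i)
        rw [aj_early hj, aj_early hj.le]
      · rfl
    rw [hk] at h2
    have hp := pj_succ (L := L) hJ1 hj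
    have h3 := sol_drift (pj_pos hJ1 j).le (pj_mono hJ1 (Nat.le_succ j)) h1 h2 hJ e
    refine h3.trans ?_
    have h4 : pj J L (j + 1) - pj J L j = pj J L j / (Tq J : ℝ) := by
      rw [hp]
      ring
    have h5 : pj J L j ≤ pj J L (j + 1) := pj_mono hJ1 (Nat.le_succ j)
    have h6 : (J : ℝ) = (Tq J : ℝ) / 320 := by
      rw [hTJ]
      ring
    rw [h4, h6, div_mul_div_comm, mul_comm (pj J L j), mul_div_mul_left _ _ hT.ne']
    have := pj_pos (L := L) hJ1 j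
    linarith
  · -- ramp
    have h1 := h j
    have h2 := h (j + 1)
    unfold Traj at h
    rw [pj_late hj] at h1
    rw [pj_late (hj.trans (Nat.le_succ j))] at h2 ⊢
    have h3 := sol_lip (by positivity) h1 h2 (r := 1 / (Tq J : ℝ)) (fun i => by
      change |aj J L (j + 1) * b2r (b i) - aj J L j * b2r (b i)| ≤ _
      rw [← sub_mul, abs_mul, abs_of_nonneg (b2r_nonneg _)]
      calc |aj J L (j + 1) - aj J L j| * b2r (b i) ≤ |aj J L (j + 1) - aj J L j| * 1 :=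
            mul_le_mul_of_nonneg_left (b2r_le_one _) (abs_nonneg _)
        _ ≤ _ := by
            rw [mul_one]
            exact aj_step hJ1 j) e
    refine h3.trans ?_
    rw [sub_self, abs_zero]
    have : 40 / (Tq J : ℝ) / 40 = 1 / (Tq J : ℝ) := by
      field_simp
    rw [this]
    simp

theorem traj_step_Dx {C : CompCircuit n m} {b : Fin n → Bool} {J L : ℕ}
    {x : ℕ → Arc n m → ℝ} (h : Traj C b J L x) (hJ : Drifts C J) (hJ1 : 1 ≤ J)
    (j : ℕ) (g : Fin m) :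
    |Dx C (x (j + 1)) g - Dx C (x j) g| ≤ pj J L (j + 1) / 20 := by
  have h1 := traj_step h hJ hJ1 j (C.inp (g, false))
  have h2 := traj_step h hJ hJ1 j (C.inp (g, true))
  have h3 : Dx C (x (j + 1)) g - Dx C (x j) g =
      (x (j + 1) (C.inp (g, false)) - x j (C.inp (g, false))) -
        (x (j + 1) (C.inp (g, true)) - x j (C.inp (g, true))) := by
    unfold Dx
    ring
  rw [h3]
  refine (abs_sub _ _).trans ?_
  linarith

/-- All values stay bounded. -/
theorem traj_bound {C : CompCircuit n m} {b : Fin n → Bool} {J L : ℕ}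
    {x : ℕ → Arc n m → ℝ} (h : Traj C b J L x) (hJ : Drifts C J) (hJ1 : 1 ≤ J)
    (j : ℕ) (e : Arc n m) : |x j e| ≤ 2 := by
  obtain ⟨y, hy⟩ := exists_sol C (pj J L j) (fun _ => 0) (cc J L)
  have h1 := sol_lip (pj_pos hJ1 j).le hy (h j) (r := 1) (fun i => by
    change |aj J L j * b2r (b i) - 0| ≤ 1
    rw [sub_zero, abs_mul, abs_of_nonneg (aj_nonneg _), abs_of_nonneg (b2r_nonneg _)]
    calc aj J L j * b2r (b i) ≤ 1 * 1 :=
          mul_le_mul (aj_le_one _) (b2r_le_one _) (b2r_nonneg _) zero_le_one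
      _ = 1 := by norm_num) e
  have h2 := sol_drift (pj_pos hJ1 0).le (pj_mono hJ1 (Nat.zero_le j))
    (sol_zero C (pj J L 0) (κ := fun _ => 0) (fun _ => rfl)) hy hJ e
  have h3 := pj_le' (L := L) hJ1 j
  have h4 := pj_pos (L := L) hJ1 0
  have h5 : (0 : ℝ) ≤ (J : ℝ) := by positivity
  rw [sub_self, abs_zero] at h1
  simp only [mul_zero, zero_div, add_zero, sub_zero] at h1 h2
  have h6 : x j e = (x j e - y e) + y e := by ring
  rw [h6]
  refine (abs_add_le _ _).trans ?_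
  nlinarith

/-- At the end the state is close to the Boolean run. -/
theorem traj_end {C : CompCircuit n m} {b : Fin n → Bool} {J L : ℕ}
    {x : ℕ → Arc n m → ℝ} (h : Traj C b J L x) (hJ : Drifts C J) (hJ1 : 1 ≤ J)
    (hL : m ≤ 2 ^ L) (hL1 : 1 ≤ L) {v : Arc n m → Bool} (hv : C.IsVal b v) (e : Arc n m) :
    |x (Hn J L) e - b2r (v e)| ≤ 1 / 4 := by
  have h1 := sol_near_bool (pj_pos hJ1 _).le (h (Hn J L)) hv (fun i => by
    change aj J L (Hn J L) * b2r (b i) = _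
    rw [aj_last hJ1, one_mul]) hJ e
  refine h1.trans ?_
  have h2 := pj_le' (L := L) hJ1 (Hn J L)
  have h3 := cc_nonneg (L := L) hJ1
  have h4 := cc_le (L := L) hJ1
  have h5 : (m : ℝ) ≤ 2 ^ L := by exact_mod_cast hL
  have h6 : (2 : ℝ) ≤ 2 ^ L := by
    calc (2 : ℝ) = 2 ^ 1 := by norm_num
      _ ≤ 2 ^ L := pow_le_pow_right₀ (by norm_num) hL1
  rw [abs_of_nonneg h3]
  have h7 : (m : ℝ) * cc J L ≤ 2 ^ L * (2 / (2 ^ L) ^ 4) :=
    mul_le_mul h5 h4 h3 (by positivity)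
  have h8 : (2 : ℝ) ^ L * (2 / (2 ^ L) ^ 4) ≤ 1 / 4 := by
    have h9 : (0 : ℝ) < 2 ^ L := by positivity
    rw [mul_div_assoc', div_le_iff₀ (by positivity)]
    have h10 : (8 : ℝ) ≤ (2 ^ L) ^ 3 := by
      calc (8 : ℝ) = 2 ^ 3 := by norm_num
        _ ≤ (2 ^ L) ^ 3 := pow_le_pow_left₀ (by norm_num) h6 3
    nlinarith
  linarith

end Pool.Agent.LibCC89
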