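import Pool.Agent.LibCC89.MachCorr
import Pool.Agent.LibCC89.TrajB

/-!
The machine with concrete parameters.
-/

namespace Pool.Agent.LibCC89

open Pool.Agent.LibCC Pool.Agent.LibCCV Pool.Agent.LibCCS Pool.Agent.LibCC67 Finset

variable {n m : ℕ}

/-- Amplitudes as integers. -/
noncomputable def Aint (R' : ℤ) (J L j : ℕ) : ℤ := ⌊2 * (R' : ℝ) * aj J L j⌋

theorem Aint_bounds {R' : ℤ} (hR : 0 < R') (J L j : ℕ) :
    0 ≤ Aint R' J L j ∧ Aint R' J L j ≤ 2 * R' ∧
      |(Aint R' J L j : ℝ) / (2 * R') - aj J L j| ≤ 1 / (2 * R') := by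
  have hR' : (0 : ℝ) < R' := by exact_mod_cast hR
  have h1 := aj_nonneg (J := J) (L := L) j
  have h2 := aj_le_one (J := J) (L := L) j
  have h3 := Int.floor_le (2 * (R' : ℝ) * aj J L j)
  have h4 := Int.lt_floor_add_one (2 * (R' : ℝ) * aj J L j)
  unfold Aint
  refine ⟨Int.floor_nonneg.2 (by positivity), ?_, ?_⟩
  · have h5 : (⌊2 * (R' : ℝ) * aj J L j⌋ : ℝ) ≤ 2 * R' := by
      refine h3.trans ?_
      have := mul_le_mul_of_nonneg_left h2 (show (0 : ℝ) ≤ 2 * R' by positivity)
      linarith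
    exact_mod_cast h5
  · have e1 : (⌊2 * (R' : ℝ) * aj J L j⌋ : ℝ) / (2 * R') - aj J L j =
      ((⌊2 * (R' : ℝ) * aj J L j⌋ : ℝ) - 2 * R' * aj J L j) / (2 * R') := by
      field_simp
    rw [e1, abs_div, abs_of_pos (show (0 : ℝ) < 2 * R' by positivity)]
    apply div_le_div_of_nonneg_right _ (by positivity)
    rw [abs_le]
    constructor <;> linarith

theorem b2i_eq_b2r (b : Bool) : (b2i b : ℝ) = b2r b := by cases b <;> simp [b2r]

/-- The machine computes the Boolean run. -/
theorem machine (n m J : ℕ) (hJ1 : 1 ≤ J) (l : ℕ) (hl : n + 2 * m + 1 ≤ 2 ^ l) (hl1 : 1 ≤ l)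
    (hJ : J ≤ 2 ^ (6 * l)) :
    ∃ (zt : ℕ → ℤ → ℤ) (wt : ℕ → ℤ → ℤ → ℤ) (A : ℕ → ℤ),
      (∀ j, |A j| ≤ 2 * 2 ^ (58 * l)) ∧
      ∀ (C : CompCircuit n m), Drifts C J → ∀ (x : Fin n → Bool) (v : Arc n m → Bool),
        C.IsVal x v → ∀ e : Arc n m,
          outZ (2 ^ (58 * l)) (fun b => b2i (encode C x e b))
            (finX (2 ^ (58 * l)) (2 ^ l * (4 * 2 ^ (58 * l) + 1)) (4 * 2 ^ (58 * l)) l (44 * l)
              zt wt A (Hn J l) (fun b => b2i (encode C x e b))) = if v e then 1 else 0 := by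
  set R' : ℤ := 2 ^ (58 * l) with hR'def
  have hR : 0 < R' := by rw [hR'def]; positivity
  set X : ℝ := 2 ^ l with hX
  have hX2 : (2 : ℝ) ≤ X := by
    calc (2 : ℝ) = 2 ^ 1 := by norm_num
      _ ≤ 2 ^ l := pow_le_pow_right₀ (by norm_num) hl1
  have hX0 : (0 : ℝ) < X := by linarith
  have hRX : (R' : ℝ) = X ^ 58 := by
    rw [hR'def, hX, ← pow_mul]
    push_cast
    rw [mul_comm]
  have hcard : Fintype.card (Arc n m) = n + 2 * m := by
    simp only [Fintype.card_sum, Fintype.card_prod, Fintype.card_fin, Fintype.card_bool]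
    ring
  have hcX : ((n + 2 * m : ℕ) : ℝ) + 1 ≤ X := by
    rw [hX]
    exact_mod_cast hl
  have hmX : (m : ℝ) ≤ X := by
    have h0 : (0 : ℝ) ≤ n := Nat.cast_nonneg n
    have h1 : (0 : ℝ) ≤ m := Nat.cast_nonneg m
    push_cast at hcX
    linarith
  have hm0 : (0 : ℝ) ≤ m := Nat.cast_nonneg m
  -- precision
  set δ : ℝ := 1 / X ^ 55 with hδ
  have hδ0 : 0 < δ := by rw [hδ]; positivity
  have hδR : δ * R' = X ^ 3 := by
    rw [hδ, hRX]
    field_simp
  have hsol : SolOK n m R' (2 ^ l * (4 * 2 ^ (58 * l) + 1)) l δ := by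
    refine ⟨hR, ?_, ?_, ?_, ?_⟩
    · rw [hcard]
      omega
    · rw [hR'def]
      have : (2 : ℤ) ^ l * (2 * (2 * 2 ^ (58 * l)) + 1) = 2 ^ l * (4 * 2 ^ (58 * l) + 1) := by
        ring
      rw [this]
    · have e1 : δ * (2 * (R' : ℝ)) = 2 * X ^ 3 := by
        rw [← hδR]; ring
      have e2 : (4 : ℝ) ^ l = X ^ 2 := by
        rw [hX, ← pow_mul, mul_comm l 2, pow_mul]
        norm_num
      rw [e1, e2, hcard]
      have h1 : ((n + 2 * m : ℕ) : ℝ) * 2 + 1 ≤ 2 * X := by linarith
      calc X ^ 2 * (((n + 2 * m : ℕ) : ℝ) * 2 + 1) ≤ X ^ 2 * (2 * X) :=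
            mul_le_mul_of_nonneg_left h1 (by positivity)
        _ = 2 * X ^ 3 := by ring
    · rw [hδR]
      exact one_le_pow₀ (by linarith)
  set ρ : ℝ := 1 / X ^ 21 with hρ
  have hρ0 : 0 < ρ := by rw [hρ]; positivity
  have hpow : ∀ k : ℕ, (2 : ℝ) ^ k ≤ X ^ k := fun k => pow_le_pow_left₀ (by norm_num) hX2 k
  have hδρ : δ ≤ ρ := by
    rw [hδ, hρ]
    apply one_div_le_one_div_of_le (by positivity)
    exact pow_le_pow_right₀ (by linarith) (by norm_num)
  have hρle : ρ ≤ 1 / 100 := by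
    rw [hρ]
    apply one_div_le_one_div_of_le (by norm_num)
    have := hpow 21
    norm_num at this
    linarith
  have hrho : RhoOK m (44 * l - 1) δ ρ := by
    refine ⟨hρ0.le, hδρ, hρle, ?_, ?_, ?_⟩
    · -- noise
      have h1 : (4 * (m : ℝ) + 8) + 1 ≤ 9 * X := by linarith
      have hμ : muE m δ ≤ 9 * X * δ := by
        unfold muE
        have := mul_le_mul_of_nonneg_left h1 hδ0.le
        linarith
      have hμ0 : 0 ≤ muE m δ := by unfold muE; positivity
      have h2 : X * δ ≤ 1 / 9 := by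
        rw [hδ, mul_one_div, div_le_div_iff₀ (by positivity) (by norm_num)]
        have h3 : X ^ 55 = X * X ^ 54 := by ring
        rw [h3]
        have h4 := hpow 54
        norm_num at h4
        nlinarith
      have hμ1 : muE m δ ≤ 1 := by linarith
      have h3 : 3 * (4 * (m : ℝ) + 8) + muE m δ ≤ 25 * X := by linarith
      have h4 : zE m δ ≤ 113 * X ^ 3 * δ := by
        unfold zE
        have h5 : muE m δ * (3 * (4 * m + 8) + muE m δ) ≤ (9 * X * δ) * (25 * X) :=
          mul_le_mul hμ h3 (by positivity) (by positivity)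
        have h6 : (m : ℝ) * (muE m δ * (3 * (4 * m + 8) + muE m δ)) ≤
            X * ((9 * X * δ) * (25 * X)) :=
          mul_le_mul hmX h5 (by positivity) hX0.le
        have h7 : X * ((9 * X * δ) * (25 * X)) = 225 * X ^ 3 * δ := by ring
        have h8 : 0 ≤ X ^ 3 * δ := by positivity
        linarith
      have h5 : 8 * (m : ℝ) * δ ^ 2 ≤ 8 * X ^ 3 * δ := by
        have h6 : 8 * (m : ℝ) * δ ^ 2 ≤ 8 * X * δ ^ 2 := by
          have := mul_le_mul_of_nonneg_right hmX (sq_nonneg δ)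
          linarith
        have h7 : δ ≤ X ^ 2 := by
          have : (1 : ℝ) ≤ X ^ 2 := one_le_pow₀ (by linarith)
          linarith
        have h8 : 8 * X * δ ^ 2 = 8 * X * δ * δ := by ring
        have h9 : 8 * X ^ 3 * δ = 8 * X * δ * X ^ 2 := by ring
        rw [h8] at h6
        rw [h9]
        exact h6.trans (mul_le_mul_of_nonneg_left h7 (by positivity))
      have h6 : 8 * zE m δ + 8 * m * δ ^ 2 ≤ 1024 * X ^ 3 * δ := by
        have : 0 ≤ X ^ 3 * δ := by positivity
        linarith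
      refine h6.trans ?_
      have h7 : 1024 * X ^ 3 * δ = 1024 / X ^ 52 := by
        rw [hδ]
        field_simp
      have h8 : ρ ^ 2 = X ^ 10 / X ^ 52 := by
        rw [hρ]
        field_simp
      rw [h7, h8]
      apply div_le_div_of_nonneg_right _ (by positivity)
      have := hpow 10
      norm_num at this
      linarith
    · -- iteration
      have h1 : (2 : ℝ) ^ (43 * l) ≤ 2 ^ (44 * l - 1) :=
        pow_le_pow_right₀ (by norm_num) (by omega)
      have h2 : (2 : ℝ) ^ (43 * l) = X ^ 43 := by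
        rw [hX, ← pow_mul, mul_comm]
      have h3 : ρ ^ 2 * X ^ 43 = X := by
        rw [hρ]
        field_simp
      calc (m : ℝ) ≤ X := hmX
        _ = ρ ^ 2 * X ^ 43 := h3.symm
        _ ≤ ρ ^ 2 * 2 ^ (44 * l - 1) := by
            rw [← h2]
            exact mul_le_mul_of_nonneg_left h1 (sq_nonneg ρ)
    · -- last
      have h1 : (m : ℝ) * (4 * ρ) ^ 2 ≤ X * (4 * ρ) ^ 2 :=
        mul_le_mul_of_nonneg_right hmX (sq_nonneg _)
      have h2 : X * (4 * ρ) ^ 2 = 16 / X ^ 41 := by
        rw [hρ]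
        field_simp
        norm_num
      rw [h2] at h1
      refine h1.trans ?_
      rw [div_le_div_iff₀ (by positivity) (by norm_num)]
      have := hpow 41
      norm_num at this
      linarith
  -- temperatures
  have hJX : (J : ℝ) ≤ X ^ 6 := by
    rw [hX, ← pow_mul, mul_comm]
    exact_mod_cast hJ
  have hJr : (1 : ℝ) ≤ J := by exact_mod_cast hJ1
  have hTq : (Tq J : ℝ) = 320 * J := by
    unfold Tq
    push_cast
    ring
  have hpl : ∀ j, 1 / (8 * X ^ 13) ≤ pj J l j := by
    intro j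
    refine le_trans ?_ (pj_ge hJ1 j)
    rw [hTq, ← hX]
    have e1 : 40 / (320 * (J : ℝ)) / X ^ 7 = 1 / (8 * (J * X ^ 7)) := by
      field_simp
      norm_num
    rw [e1]
    apply one_div_le_one_div_of_le (by positivity)
    have := mul_le_mul_of_nonneg_right hJX (show (0 : ℝ) ≤ X ^ 7 by positivity)
    have e2 : X ^ 6 * X ^ 7 = X ^ 13 := by ring
    rw [e2] at this
    linarith
  have hpρ : ∀ j, 20 * ρ ≤ pj J l j := by
    intro j
    refine le_trans ?_ (hpl j)
    rw [hρ, mul_one_div, div_le_div_iff₀ (by positivity) (by positivity)]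
    have h1 : X ^ 21 = X ^ 8 * X ^ 13 := by ring
    rw [h1]
    have h2 := hpow 8
    norm_num at h2
    have h3 : 0 < X ^ 13 := by positivity
    nlinarith
  have hηp : ∀ j, 80 * (1 / (2 * (R' : ℝ))) ≤ pj J l j := by
    intro j
    refine le_trans ?_ (hpl j)
    rw [hRX, mul_one_div, div_le_div_iff₀ (by positivity) (by positivity)]
    have h1 : X ^ 58 = X ^ 45 * X ^ 13 := by ring
    rw [h1]
    have h2 := hpow 45
    norm_num at h2
    have h3 : 0 < X ^ 13 := by positivity
    nlinarith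
  have hη4 : 1 / (2 * (R' : ℝ)) ≤ 1 / 80 := by
    have h1 := hηp 0
    have h2 := pj_le_one (L := l) hJ1 0
    linarith
  have hc1 : cc J l ≤ 1 / 2 := by
    refine (cc_le hJ1).trans ?_
    rw [← hX, div_le_div_iff₀ (by positivity) (by norm_num)]
    have := hpow 4
    norm_num at this
    linarith
  have hA : ∀ j, |Aint R' J l j| ≤ 2 * R' := by
    intro j
    obtain ⟨h1, h2, _⟩ := Aint_bounds hR J l j
    rw [abs_of_nonneg h1]
    exact h2
  have hk1 : 44 * l - 1 + 1 = 44 * l := by omega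
  refine ⟨fun j => ztab R' (pj J l (min (j + 1) (Hn J l))),
    fun j => wtab R' (pj J l (min (j + 1) (Hn J l))) (cc J l),
    fun j => Aint R' J l (min (j + 1) (Hn J l)), fun j => hA _, ?_⟩
  intro C hD xb v hv e0
  obtain ⟨t, ht⟩ := exists_traj C xb J l
  choose x hx using fun j => exists_sol C (pj J l j) (kapR R' (Aint R' J l j) xb) (cc J l)
  have hclose : ∀ j e, |x j e - t j e| ≤ 1 / (2 * (R' : ℝ)) := by
    intro j e
    have h1 := sol_lip (pj_pos hJ1 j).le (ht j) (hx j) (r := 1 / (2 * (R' : ℝ))) (fun i => by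
      change |(b2i (xb i) : ℝ) * (Aint R' J l j : ℝ) / (2 * R') - aj J l j * b2r (xb i)| ≤ _
      have h2 := (Aint_bounds hR J l j).2.2
      rw [b2i_eq_b2r]
      have e1 : b2r (xb i) * (Aint R' J l j : ℝ) / (2 * R') - aj J l j * b2r (xb i) =
        b2r (xb i) * ((Aint R' J l j : ℝ) / (2 * R') - aj J l j) := by ring
      rw [e1, abs_mul, abs_of_nonneg (b2r_nonneg _)]
      calc b2r (xb i) * |(Aint R' J l j : ℝ) / (2 * R') - aj J l j| ≤
            1 * |(Aint R' J l j : ℝ) / (2 * R') - aj J l j| :=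
            mul_le_mul_of_nonneg_right (b2r_le_one _) (abs_nonneg _)
        _ ≤ _ := by rw [one_mul]; exact h2) e
    simpa using h1
  have hbd : ∀ j e, |x j e| ≤ 2 := by
    intro j e
    obtain ⟨y, hy⟩ := exists_sol C (pj J l j) (fun _ => 0) (cc J l)
    have h1 := sol_lip (pj_pos hJ1 j).le hy (hx j) (r := 1) (fun i => by
      change |(b2i (xb i) : ℝ) * (Aint R' J l j : ℝ) / (2 * R') - 0| ≤ 1
      rw [sub_zero, abs_div, abs_of_pos (show (0 : ℝ) < 2 * R' by
        have : (0 : ℝ) < R' := by exact_mod_cast hR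
        positivity), div_le_one (by
        have : (0 : ℝ) < R' := by exact_mod_cast hR
        positivity), abs_mul, b2i_eq_b2r, abs_of_nonneg (b2r_nonneg _)]
      have h2 : |(Aint R' J l j : ℝ)| ≤ 2 * R' := by exact_mod_cast hA j
      calc b2r (xb i) * |(Aint R' J l j : ℝ)| ≤ 1 * |(Aint R' J l j : ℝ)| :=
            mul_le_mul_of_nonneg_right (b2r_le_one _) (abs_nonneg _)
        _ ≤ _ := by rw [one_mul]; exact h2) e
    have h2 := sol_drift (pj_pos hJ1 0).le (pj_mono hJ1 (Nat.zero_le j))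
      (sol_zero C (pj J l 0) (κ := fun _ => 0) (fun _ => rfl)) hy hD e
    have h3 := pj_le' (L := l) hJ1 j
    have h4 := pj_pos (L := l) hJ1 0
    have h5 : (0 : ℝ) ≤ (J : ℝ) := by positivity
    rw [sub_self, abs_zero] at h1
    simp only [mul_zero, zero_div, add_zero, sub_zero] at h1 h2
    have h6 : x j e = (x j e - y e) + y e := by ring
    rw [h6]
    refine (abs_add_le _ _).trans ?_
    nlinarith
  have hz : ∀ e, x 0 e = 0 := by
    intro e
    have hA0 : Aint R' J l 0 = 0 := by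
      unfold Aint
      rw [aj_early (Nat.zero_le _), mul_zero, Int.floor_zero]
    have h0 := sol_zero C (pj J l 0) (κ := kapR (n := n) (m := m) R' (Aint R' J l 0) xb)
      (fun i => by
        change (b2i (xb i) : ℝ) * (Aint R' J l 0 : ℝ) / (2 * R') = 0
        rw [hA0]
        simp)
    have h1 := sol_lip (pj_pos hJ1 0).le h0 (hx 0) (r := 0) (fun i => by simp) e
    have h2 : cc J l - H (pj J l 0) 0 = 0 := sub_self _
    rw [h2] at h1
    simp only [abs_zero, mul_zero, zero_div, add_zero, sub_zero] at h1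
    exact abs_eq_zero.1 (le_antisymm h1 (abs_nonneg _))
  have key := mach_correct hsol hrho (Hn J l) (fun j => pj J l j) (fun j => Aint R' J l j)
    (cc_nonneg hJ1) hc1 (fun j _ => ⟨pj_pos hJ1 j, pj_le_one hJ1 j, hpρ j⟩)
    (fun j _ => hA j) C xb x (fun j _ => hx j) (fun j _ => hbd j) hz
    (fun j _ g => by
      have h1 := traj_step_Dx ht hD hJ1 j g
      have h2 := hclose (j + 1) (C.inp (g, false))
      have h3 := hclose (j + 1) (C.inp (g, true))
      have h4 := hclose j (C.inp (g, false))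
      have h5 := hclose j (C.inp (g, true))
      have h6 := hηp (j + 1)
      have e1 : Dx C (x (j + 1)) g - Dx C (x j) g = (Dx C (t (j + 1)) g - Dx C (t j) g) +
        ((x (j + 1) (C.inp (g, false)) - t (j + 1) (C.inp (g, false))) -
          (x (j + 1) (C.inp (g, true)) - t (j + 1) (C.inp (g, true))) -
          (x j (C.inp (g, false)) - t j (C.inp (g, false))) +
          (x j (C.inp (g, true)) - t j (C.inp (g, true)))) := by
        unfold Dx
        ring
      rw [e1]
      rw [abs_le] at h1 h2 h3 h4 h5 ⊢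
      constructor <;> linarith [h1.1, h1.2, h2.1, h2.2, h3.1, h3.2, h4.1, h4.2, h5.1, h5.2])
    v (fun e => by
      have hmn : m ≤ 2 ^ l := by omega
      have h1 := traj_end ht hD hJ1 hmn hl1 hv e
      have h2 := hclose (Hn J l) e
      rw [b2i_eq_b2r]
      rw [abs_le] at h1 h2 ⊢
      constructor <;> linarith [h1.1, h1.2, h2.1, h2.2]) e0
  rw [hk1] at key
  exact key

end Pool.Agent.LibCC89
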