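import Pool.Agent.LibCC89.MachFin

/-!
Sizes of the machine and the arithmetic of depth and width.
-/

namespace Pool.Agent.LibCC89

open Pool.Agent.LibCC Pool.Agent.LibCCV

variable {n m : ℕ}

/-- Logarithmic size of an instance. -/
def lg (n m : ℕ) : ℕ := Nat.log 2 (n + 2 * m + 1) + 1

theorem lg_pos (n m : ℕ) : 1 ≤ lg n m := Nat.succ_le_succ (Nat.zero_le _)

theorem size_le (n m : ℕ) : n + 2 * m + 1 ≤ 2 ^ lg n m :=
  (Nat.lt_pow_succ_log_self (b := 2) (by norm_num) (n + 2 * m + 1)).le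

theorem le_size (n m : ℕ) : 2 ^ lg n m ≤ 2 * (n + 2 * m + 1) := by
  have h := Nat.pow_log_le_self 2 (x := n + 2 * m + 1) (by omega)
  unfold lg
  rw [pow_succ]
  omega

theorem card_arc (n m : ℕ) : Fintype.card (Arc n m) = n + 2 * m := by
  simp only [Fintype.card_sum, Fintype.card_prod, Fintype.card_fin, Fintype.card_bool]
  ring

/-- Word length of the machine. -/
def Lw (a l : ℕ) : ℕ := (2 * a + 10) * l

/-- Cells per level. -/
def Qw (l : ℕ) : ℕ := 2 ^ (7 * l)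

theorem sizes (a n m : ℕ) :
    Sizes n m (2 ^ (a * lg n m)) (2 ^ lg n m * (4 * 2 ^ (a * lg n m) + 1))
      (4 * 2 ^ (a * lg n m)) (lg n m) (Lw a (lg n m)) (Qw (lg n m)) := by
  set l := lg n m with hl
  have hl1 : 1 ≤ l := lg_pos n m
  have hN := size_le n m
  rw [← hl] at hN
  have h2l : (2 : ℤ) ≤ 2 ^ l := by
    calc (2 : ℤ) = 2 ^ 1 := by norm_num
      _ ≤ 2 ^ l := pow_le_pow_right₀ (by norm_num) hl1
  have hR1 : (1 : ℤ) ≤ 2 ^ (a * l) := one_le_pow₀ (by norm_num)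
  have hNz : ((n + 2 * m : ℕ) : ℤ) + 1 ≤ 2 ^ l := by exact_mod_cast hN
  have h2l' : 2 ≤ 2 ^ l := by exact_mod_cast h2l
  refine ⟨?_, ?_, ?_, ?_, ?_, ?_, ?_, ?_, ?_, ?_⟩
  · unfold Lw
    nlinarith
  · positivity
  · positivity
  · nlinarith
  · nlinarith
  · rw [card_arc]
    omega
  · rw [card_arc]
    have e1 : 2 ^ l * (4 * 2 ^ (a * l) + 1) + 1 ≤ (2 : ℤ) ^ l * (8 * 2 ^ (a * l)) := by nlinarith
    have e2 : 8 * (((n + 2 * m : ℕ) : ℤ) + 1) * 2 ^ (a * l) *
        (2 ^ l * (4 * 2 ^ (a * l) + 1) + 1) ≤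
        8 * 2 ^ l * 2 ^ (a * l) * (2 ^ l * (8 * 2 ^ (a * l))) := by
      apply mul_le_mul
      · apply mul_le_mul_of_nonneg_right _ (by positivity)
        linarith
      · exact e1
      · positivity
      · positivity
    refine lt_of_le_of_lt e2 ?_
    have e3 : (8 : ℤ) * 2 ^ l * 2 ^ (a * l) * (2 ^ l * (8 * 2 ^ (a * l))) =
        2 ^ (6 + l + l + a * l + a * l) := by
      rw [pow_add, pow_add, pow_add, pow_add]
      ring
    rw [e3]
    apply pow_lt_pow_right₀ (by norm_num)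
    unfold Lw
    nlinarith
  · have e1 : Fintype.card (Fin m ⊕ ((Arc n m × Arc n m) ⊕ Arc n m)) ≤ 2 ^ (2 * l + 1) := by
      rw [Fintype.card_sum, Fintype.card_sum, Fintype.card_prod, card_arc, Fintype.card_fin,
        pow_succ, two_mul l, pow_add]
      have h1 : n + 2 * m + 1 ≤ 2 ^ l := hN
      nlinarith
    refine le_trans (Nat.mul_le_mul_right _ e1) ?_
    rw [← pow_add]
    unfold Qw
    exact Nat.pow_le_pow_right (by norm_num) (by omega)
  · have e1 : Fintype.card (Fin m ⊕ (Fin m ⊕ Fin m)) ≤ 2 ^ (l + 1) := by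
      rw [Fintype.card_sum, Fintype.card_sum, Fintype.card_fin, pow_succ]
      omega
    refine le_trans (Nat.mul_le_mul_right _ e1) ?_
    rw [← pow_add]
    unfold Qw
    exact Nat.pow_le_pow_right (by norm_num) (by omega)
  · unfold Qw
    exact Nat.pow_le_pow_right (by norm_num) (by omega)

/-- More gates per level do no harm. -/
theorem widen {α : Type} {W W' : ℕ} (hW : W ≤ W') (B : BCircuit α W) :
    ∃ B' : BCircuit α W', ∀ (x : α → Bool) (k : ℕ) (i : Fin W),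
      B'.level x k (Fin.castLE hW i) = B.level x k i := by
  classical
  refine ⟨⟨fun k j => if h : (j : ℕ) < W then
    (B.gate k ⟨j, h⟩).map (Sum.map id (Fin.castLE hW)) else .const false⟩, ?_⟩
  intro x k
  induction k with
  | zero => intro i; rfl
  | succ k ih =>
    intro i
    change BGate.eval _ (if h : ((Fin.castLE hW i : Fin W') : ℕ) < W then _ else _) = _
    have hi : ((Fin.castLE hW i : Fin W') : ℕ) < W := i.isLt
    rw [dif_pos hi, BGate.eval_map]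
    change _ = (B.gate k i).eval (Sum.elim x (B.level x k))
    have h1 : (⟨((Fin.castLE hW i : Fin W') : ℕ), hi⟩ : Fin W) = i := rfl
    rw [h1]
    congr 1
    funext a
    rcases a with a | a
    · rfl
    · exact ih a

/-- For all instance sizes and all `J` one circuit of depth `c * l ^ c * J` is correct on all
comparator circuits satisfying `P J`. -/
def MasterP (P : ∀ {n m : ℕ}, CompCircuit n m → ℕ → Prop) : Prop :=
  ∃ c : ℕ, ∀ n m J : ℕ, 1 ≤ J → J ≤ 2 ^ (6 * lg n m) →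
    ∃ (D : ℕ) (B : BCircuit (Bit n m) (c * (n + 2 * m + 1) ^ c))
      (o : Fin (c * (n + 2 * m + 1) ^ c)),
      D ≤ c * lg n m ^ c * J ∧
      ∀ (C : CompCircuit n m), P C J → ∀ (x : Fin n → Bool) (v : Arc n m → Bool),
        C.IsVal x v → ∀ e : Arc n m, B.level (encode C x e) D o = v e

theorem width_le (a n m : ℕ) :
    Qw (lg n m) * 2 ^ (3 * Lw a (lg n m) + 6) ≤
      64 * 2 ^ (6 * a + 37) * (n + 2 * m + 1) ^ (6 * a + 37) := by
  have hN := le_size n m
  generalize lg n m = l at hN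
  generalize n + 2 * m + 1 = N at hN
  have e1 : Qw l * 2 ^ (3 * Lw a l + 6) = 64 * (2 ^ l) ^ (6 * a + 37) := by
    have e2 : (64 : ℕ) = 2 ^ 6 := by norm_num
    unfold Qw Lw
    rw [← pow_add, ← pow_mul, e2, ← pow_add]
    congr 1
    ring
  rw [e1, mul_assoc, ← mul_pow]
  exact Nat.mul_le_mul_left _ (Nat.pow_le_pow_left hN _)

theorem depth_le (a k0 l J : ℕ) (hl : 1 ≤ l) (hJ : 1 ≤ J) :
    (Hn J l * (k0 * l * (l * (l + 3) + l + 5) + 1) + (l * (l + 3) + l + 6)) *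
      (2 * Lw a l + 6) ≤ (1600 * (10 * k0 + 1) + 11) * (4 * a + 26) * l ^ 5 * J := by
  have h1 : Hn J l ≤ 1600 * l * J := by
    unfold Hn n1 Tq
    nlinarith
  have h2 : l * (l + 3) + l + 5 ≤ 10 * l ^ 2 := by nlinarith
  have h3 : l * (l + 3) + l + 6 ≤ 11 * l ^ 2 := by nlinarith
  have h4 : k0 * l * (l * (l + 3) + l + 5) + 1 ≤ (10 * k0 + 1) * l ^ 3 := by
    calc k0 * l * (l * (l + 3) + l + 5) + 1 ≤ k0 * l * (10 * l ^ 2) + l ^ 3 :=
          Nat.add_le_add (Nat.mul_le_mul_left _ h2) (Nat.one_le_pow _ _ hl)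
      _ = (10 * k0 + 1) * l ^ 3 := by ring
  have h5 : 2 * Lw a l + 6 ≤ (4 * a + 26) * l := by
    unfold Lw
    nlinarith
  have h6 : Hn J l * (k0 * l * (l * (l + 3) + l + 5) + 1) + (l * (l + 3) + l + 6) ≤
      (1600 * (10 * k0 + 1) + 11) * l ^ 4 * J := by
    have h7 : Hn J l * (k0 * l * (l * (l + 3) + l + 5) + 1) ≤
        1600 * l * J * ((10 * k0 + 1) * l ^ 3) := Nat.mul_le_mul h1 h4
    have h8 : 11 * l ^ 2 ≤ 11 * l ^ 4 * J := by
      calc 11 * l ^ 2 ≤ 11 * l ^ 4 :=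
            Nat.mul_le_mul_left _ (Nat.pow_le_pow_right hl (by norm_num))
        _ ≤ 11 * l ^ 4 * J := Nat.le_mul_of_pos_right _ hJ
    calc _ ≤ 1600 * l * J * ((10 * k0 + 1) * l ^ 3) + 11 * l ^ 4 * J :=
          Nat.add_le_add h7 (h3.trans h8)
      _ = _ := by ring
  calc _ ≤ (1600 * (10 * k0 + 1) + 11) * l ^ 4 * J * ((4 * a + 26) * l) := Nat.mul_le_mul h6 h5
    _ = _ := by ring

theorem master_of {P : ∀ {n m : ℕ}, CompCircuit n m → ℕ → Prop} (a k0 : ℕ)
    (hcorr : ∀ n m J : ℕ, 1 ≤ J → J ≤ 2 ^ (6 * lg n m) →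
      ∃ (zt : ℕ → ℤ → ℤ) (wt : ℕ → ℤ → ℤ → ℤ) (A : ℕ → ℤ),
        (∀ j, |A j| ≤ 2 * 2 ^ (a * lg n m)) ∧
        ∀ (C : CompCircuit n m), P C J → ∀ (x : Fin n → Bool) (v : Arc n m → Bool),
          C.IsVal x v → ∀ e : Arc n m,
          outZ (2 ^ (a * lg n m)) (fun b => b2i (encode C x e b))
            (finX (2 ^ (a * lg n m)) (2 ^ lg n m * (4 * 2 ^ (a * lg n m) + 1))
              (4 * 2 ^ (a * lg n m)) (lg n m) (k0 * lg n m) zt wt A (Hn J (lg n m))
              (fun b => b2i (encode C x e b))) = if v e = true then 1 else 0) :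
    MasterP P := by
  obtain ⟨c, hc1, hc2, hc3⟩ : ∃ c : ℕ, 64 * 2 ^ (6 * a + 37) ≤ c ∧ 6 * a + 37 ≤ c ∧
      (1600 * (10 * k0 + 1) + 11) * (4 * a + 26) ≤ c :=
    ⟨64 * 2 ^ (6 * a + 37) + (6 * a + 37) + (1600 * (10 * k0 + 1) + 11) * (4 * a + 26),
      by omega, by omega, by omega⟩
  refine ⟨c, fun n m J hJ hJ2 => ?_⟩
  obtain ⟨zt, wt, A, hA, hc⟩ := hcorr n m J hJ hJ2
  obtain ⟨B, o, hB⟩ := (sizes a n m).circuit hA zt wt (k0 * lg n m) (Hn J (lg n m))
  have hN : 1 ≤ n + 2 * m + 1 := by omega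
  have hl := lg_pos n m
  have hW : Qw (lg n m) * 2 ^ (3 * Lw a (lg n m) + 6) ≤ c * (n + 2 * m + 1) ^ c :=
    (width_le a n m).trans (Nat.mul_le_mul hc1 (Nat.pow_le_pow_right hN hc2))
  obtain ⟨B', hB'⟩ := widen hW B
  refine ⟨(Hn J (lg n m) * (k0 * lg n m * (lg n m * (lg n m + 3) + lg n m + 5) + 1) +
      (lg n m * (lg n m + 3) + lg n m + 6)) * (2 * Lw a (lg n m) + 6), B',
    Fin.castLE hW o, ?_, fun C hC x v hv e => ?_⟩
  · refine (depth_le a k0 (lg n m) J hl hJ).trans ?_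
    refine Nat.mul_le_mul_right _ (Nat.mul_le_mul hc3 ?_)
    exact Nat.pow_le_pow_right hl (le_trans (by omega) hc2)
  · rw [hB', hB, hc C hC x v hv e]
    cases v e <;> simp

/-- The master theorem: one circuit for all comparator circuits with drift at most `J`. -/
theorem master : MasterP (fun C J => Drifts C (J : ℝ)) := by
  refine master_of 58 44 (fun n m J hJ hJ2 => ?_)
  exact machine n m J hJ (lg n m) (size_le n m) (lg_pos n m) hJ2

/-- Final form with the exponent `1 / 3`. -/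
theorem final_of_master {P : ∀ {n m : ℕ}, CompCircuit n m → ℕ → Prop} (h : MasterP P)
    (hP : ∀ {n m : ℕ} (C : CompCircuit n m) (q : ℕ), 1 ≤ q → m ≤ q ^ 3 →
      P C (q * (lg n m + 8))) :
    ∃ c : ℕ, ∀ n m : ℕ,
      ∃ (D : ℕ) (B : BCircuit (Bit n m) (c * (n + 2 * m + 1) ^ c))
        (o : Fin (c * (n + 2 * m + 1) ^ c)),
        (D : ℝ) ≤ c * ((Nat.log 2 (n + 2 * m + 1) : ℝ) + 1) ^ c * ((m : ℝ) + 1) ^ (1 / 3 : ℝ) ∧
        ∀ (C : CompCircuit n m) (x : Fin n → Bool) (v : Arc n m → Bool), C.IsVal x v →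
          ∀ e : Arc n m, B.level (encode C x e) D o = v e := by
  obtain ⟨c, hc⟩ := h
  refine ⟨18 * c + 1, fun n m => ?_⟩
  set N := n + 2 * m + 1 with hN
  have hNpos : 1 ≤ N := by omega
  set y : ℝ := ((m : ℝ) + 1) ^ (1 / 3 : ℝ) with hy
  have hm1 : (1 : ℝ) ≤ (m : ℝ) + 1 := by
    have : (0 : ℝ) ≤ m := Nat.cast_nonneg m
    linarith
  have hy1 : 1 ≤ y := Real.one_le_rpow hm1 (by norm_num)
  have hy2 : y ≤ (m : ℝ) + 1 := by
    calc y ≤ ((m : ℝ) + 1) ^ (1 : ℝ) := Real.rpow_le_rpow_of_exponent_le hm1 (by norm_num)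
      _ = _ := Real.rpow_one _
  have hy5 : y ^ 3 = (m : ℝ) + 1 := by
    rw [hy, ← Real.rpow_natCast, ← Real.rpow_mul (by linarith)]
    norm_num
  set q : ℕ := ⌈y⌉₊ with hq
  have hq1 : y ≤ q := Nat.le_ceil y
  have hq2 : (q : ℝ) ≤ 2 * y := by
    have := Nat.ceil_lt_add_one (a := y) (by linarith)
    linarith
  have hq3 : q ≤ m + 1 := by
    rw [hq, Nat.ceil_le]
    push_cast
    exact hy2
  have hq4 : 1 ≤ q := by
    rw [hq, Nat.one_le_ceil_iff]
    linarith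
  have hq5 : m ≤ q ^ 3 := by
    have h1 : (m : ℝ) ≤ (q : ℝ) ^ 3 := by
      calc (m : ℝ) ≤ y ^ 3 := by rw [hy5]; linarith
        _ ≤ (q : ℝ) ^ 3 := pow_le_pow_left₀ (by linarith) hq1 3
    exact_mod_cast h1
  have hl := lg_pos n m
  have hJ : q * (lg n m + 8) ≤ 2 ^ (6 * lg n m) := by
    have h1 : q ≤ 2 ^ lg n m := by
      have := size_le n m
      omega
    have h2 : lg n m + 8 ≤ 2 ^ (5 * lg n m) := by
      have h3 : lg n m < 2 ^ lg n m := Nat.lt_two_pow_self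
      have h4 : 2 ^ (5 * lg n m) = (2 ^ lg n m) ^ 5 := by
        rw [mul_comm, pow_mul]
      have h5 : 2 ≤ 2 ^ lg n m := by
        calc 2 = 2 ^ 1 := by norm_num
          _ ≤ 2 ^ lg n m := Nat.pow_le_pow_right (by norm_num) hl
      rw [h4]
      have h6 : 16 * 2 ^ lg n m ≤ (2 ^ lg n m) ^ 5 := by
        calc 16 * 2 ^ lg n m = 2 ^ 4 * 2 ^ lg n m := by norm_num
          _ ≤ (2 ^ lg n m) ^ 4 * 2 ^ lg n m :=
              Nat.mul_le_mul_right _ (Nat.pow_le_pow_left h5 4)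
          _ = _ := by ring
      omega
    calc q * (lg n m + 8) ≤ 2 ^ lg n m * 2 ^ (5 * lg n m) := Nat.mul_le_mul h1 h2
      _ = 2 ^ (6 * lg n m) := by
          rw [← pow_add]
          congr 1
          ring
  obtain ⟨D, B, o, hD, hB⟩ := hc n m (q * (lg n m + 8))
    (Nat.mul_pos hq4 (Nat.succ_pos _)) hJ
  have hWW : c * N ^ c ≤ (18 * c + 1) * N ^ (18 * c + 1) :=
    Nat.mul_le_mul (by omega) (Nat.pow_le_pow_right hNpos (by omega))
  obtain ⟨B', hB'⟩ := widen hWW B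
  refine ⟨D, B', Fin.castLE hWW o, ?_, fun C x v hv e => ?_⟩
  · have h1 : (D : ℝ) ≤ c * ((lg n m : ℕ) : ℝ) ^ c * (q * (lg n m + 8)) := by exact_mod_cast hD
    have h2 : ((lg n m : ℕ) : ℝ) = (Nat.log 2 N : ℝ) + 1 := by
      unfold lg
      push_cast
      rfl
    set t : ℝ := (Nat.log 2 N : ℝ) + 1 with ht
    have ht1 : 1 ≤ t := by
      have : (0 : ℝ) ≤ (Nat.log 2 N : ℝ) := Nat.cast_nonneg _
      linarith
    rw [h2] at h1
    have hc0 : (0 : ℝ) ≤ c := Nat.cast_nonneg c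
    have h3 : (q : ℝ) * (t + 8) ≤ 18 * y * t := by
      have h4 : t + 8 ≤ 9 * t := by linarith
      calc (q : ℝ) * (t + 8) ≤ (2 * y) * (9 * t) :=
            mul_le_mul hq2 h4 (by linarith) (by linarith)
        _ = _ := by ring
    have h5 : t ^ (c + 1) ≤ t ^ (18 * c + 1) := pow_le_pow_right₀ ht1 (by omega)
    calc (D : ℝ) ≤ c * t ^ c * (q * (t + 8)) := h1
      _ ≤ c * t ^ c * (18 * y * t) := mul_le_mul_of_nonneg_left h3 (by positivity)
      _ = 18 * c * t ^ (c + 1) * y := by ring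
      _ ≤ 18 * c * t ^ (18 * c + 1) * y := by
          apply mul_le_mul_of_nonneg_right _ (by linarith)
          exact mul_le_mul_of_nonneg_left h5 (by positivity)
      _ ≤ ((18 * c + 1 : ℕ) : ℝ) * t ^ (18 * c + 1) * y := by
          apply mul_le_mul_of_nonneg_right _ (by linarith)
          apply mul_le_mul_of_nonneg_right _ (by positivity)
          push_cast
          linarith
  · rw [hB', hB C (hP C q hq4 hq5) x v hv e]

/-- The value problem of comparator circuits in depth `m ^ (1 / 3)` up to logarithms. -/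
theorem cubeRoot :
    ∃ c : ℕ, ∀ n m : ℕ,
      ∃ (D : ℕ) (B : BCircuit (Bit n m) (c * (n + 2 * m + 1) ^ c))
        (o : Fin (c * (n + 2 * m + 1) ^ c)),
        (D : ℝ) ≤ c * ((Nat.log 2 (n + 2 * m + 1) : ℝ) + 1) ^ c * ((m : ℝ) + 1) ^ (1 / 3 : ℝ) ∧
        ∀ (C : CompCircuit n m) (x : Fin n → Bool) (v : Arc n m → Bool), C.IsVal x v →
          ∀ e : Arc n m, B.level (encode C x e) D o = v e :=
  final_of_master master (fun {n m} C q hq hm =>
    drifts_cube C hm hq (by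
      have := size_le n m
      omega))

end Pool.Agent.LibCC89
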