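import Pool.Agent.LibCC89.Word

/-!
Solving `x = A x + v` with a nonnegative nilpotent matrix `A` of row sums at most one by
repeated squaring, in integer arithmetic with rounding down: depth and error.
-/

namespace Pool.Agent.LibCC89

open Pool.Agent.LibCC Finset

/-- Clamping to `[-B, B]`. -/
def cl (B z : ℤ) : ℤ := max (-B) (min B z)

theorem abs_cl_le {B : ℤ} (hB : 0 ≤ B) (z : ℤ) : |cl B z| ≤ B := by
  unfold cl
  rw [abs_le]
  constructor
  · exact le_max_left _ _
  · exact max_le (by linarith) (min_le_left _ _)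

theorem cl_eq {B z : ℤ} (h : |z| ≤ B) : cl B z = z := by
  obtain ⟨h1, h2⟩ := abs_le.1 h
  unfold cl
  rw [min_eq_right h2, max_eq_right h1]

section Algo

variable {ι : Type} [Fintype ι]

/-- Rounded square of a matrix. -/
def sqA (R : ℤ) (A : ι × ι → ℤ) (p : ι × ι) : ℤ :=
  (∑ h, cl R (A (p.1, h)) * cl R (A (h, p.2))) / R

/-- Rounded product `y + A y`. -/
def mvA (R Y : ℤ) (A : ι × ι → ℤ) (y : ι → ℤ) (e : ι) : ℤ :=
  cl Y (y e) + (∑ h, cl R (A (e, h)) * cl Y (y h)) / R

/-- One round of the solver. -/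
def solStep (R Y : ℤ) (s : (ι × ι → ℤ) × (ι → ℤ)) : (ι × ι → ℤ) × (ι → ℤ) :=
  (sqA R s.1, mvA R Y s.1 s.2)

/-- The solver. -/
def solve (R Y : ℤ) (J : ℕ) (A : ι × ι → ℤ) (v : ι → ℤ) : ι → ℤ :=
  ((solStep R Y)^[J] (A, v)).2

/-! ### Exact quantities -/

/-- The exact power `A ^ (2 ^ i)`. -/
noncomputable def pw (a : ι → ι → ℝ) : ℕ → ι → ι → ℝ
  | 0 => a
  | i + 1 => fun e f => ∑ h, pw a i e h * pw a i h f

/-- The exact partial sum. -/
noncomputable def ps (a : ι → ι → ℝ) (v : ι → ℝ) : ℕ → ι → ℝ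
  | 0 => v
  | i + 1 => fun e => ps a v i e + ∑ h, pw a i e h * ps a v i h

theorem pw_nonneg {a : ι → ι → ℝ} (ha : ∀ e f, 0 ≤ a e f) (i : ℕ) (e f : ι) :
    0 ≤ pw a i e f := by
  induction i generalizing e f with
  | zero => exact ha e f
  | succ i ih => exact Finset.sum_nonneg (fun h _ => mul_nonneg (ih e h) (ih h f))

theorem pw_row {a : ι → ι → ℝ} (ha : ∀ e f, 0 ≤ a e f) (h1 : ∀ e, ∑ f, a e f ≤ 1) (i : ℕ)
    (e : ι) : ∑ f, pw a i e f ≤ 1 := by
  induction i generalizing e with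
  | zero => exact h1 e
  | succ i ih =>
    calc ∑ f, pw a (i + 1) e f = ∑ h, pw a i e h * ∑ f, pw a i h f := by
          simp only [pw]
          rw [Finset.sum_comm]
          exact Finset.sum_congr rfl (fun h _ => (Finset.mul_sum _ _ _).symm)
      _ ≤ ∑ h, pw a i e h * 1 :=
          Finset.sum_le_sum (fun h _ => mul_le_mul_of_nonneg_left (ih h) (pw_nonneg ha i e h))
      _ ≤ 1 := by simpa using ih e

theorem pw_height {a : ι → ι → ℝ} {ht : ι → ℕ} (hht : ∀ e f, a e f ≠ 0 → ht f < ht e) (i : ℕ)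
    (e f : ι) (h : pw a i e f ≠ 0) : ht f + 2 ^ i ≤ ht e := by
  induction i generalizing e f with
  | zero => exact hht e f h
  | succ i ih =>
    obtain ⟨g, _, hg⟩ := Finset.exists_ne_zero_of_sum_ne_zero h
    have h1 := ih e g (left_ne_zero_of_mul hg)
    have h2 := ih g f (right_ne_zero_of_mul hg)
    rw [pow_succ]
    omega

/-- High powers vanish. -/
theorem pw_zero {a : ι → ι → ℝ} {ht : ι → ℕ} (hht : ∀ e f, a e f ≠ 0 → ht f < ht e) {J : ℕ}
    (hJ : Fintype.card ι ≤ 2 ^ J) (e f : ι) : pw a J e f = 0 := by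
  classical
  by_contra hne
  let ht' : ι → ℕ := fun a => (Finset.univ.filter (fun b => ht b < ht a)).card
  have hR' : ∀ e f, a e f ≠ 0 → ht' f < ht' e := by
    intro b c hbc
    have h1 := hht b c hbc
    apply Finset.card_lt_card
    rw [Finset.ssubset_iff_of_subset]
    · exact ⟨c, by simpa using h1, by simp⟩
    · intro d hd
      simp only [Finset.mem_filter, Finset.mem_univ, true_and] at hd ⊢
      omega
  have h1 := pw_height hR' J e f hne
  have h2 : ht' e < Fintype.card ι := by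
    rw [← Finset.card_univ]
    apply Finset.card_lt_card
    rw [Finset.ssubset_iff_of_subset (Finset.filter_subset _ _)]
    exact ⟨e, Finset.mem_univ _, by simp⟩
  omega

theorem ps_solution {a : ι → ι → ℝ} {v x : ι → ℝ} (hx : ∀ e, x e = (∑ f, a e f * x f) + v e)
    (i : ℕ) (e : ι) : x e = ps a v i e + ∑ f, pw a i e f * x f := by
  induction i generalizing e with
  | zero => rw [hx e]; simp only [ps, pw]; ring
  | succ i ih =>
    have h1 : ∑ f, pw a (i + 1) e f * x f = ∑ h, pw a i e h * ∑ f, pw a i h f * x f := by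
      simp only [pw, Finset.sum_mul, Finset.mul_sum]
      rw [Finset.sum_comm]
      exact Finset.sum_congr rfl (fun h _ => Finset.sum_congr rfl (fun f _ => by ring))
    rw [h1]
    simp only [ps]
    have h2 : ∀ h, ∑ f, pw a i h f * x f = x h - ps a v i h := by
      intro h
      have := ih h
      linarith
    have h5 : ∑ h, pw a i e h * ∑ f, pw a i h f * x f =
        ∑ h, pw a i e h * (x h - ps a v i h) :=
      Finset.sum_congr rfl (fun h _ => by rw [h2 h])
    rw [h5]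
    have h3 : ∑ h, pw a i e h * (x h - ps a v i h) =
        ∑ h, pw a i e h * x h - ∑ h, pw a i e h * ps a v i h := by
      rw [← Finset.sum_sub_distrib]
      exact Finset.sum_congr rfl (fun h _ => by ring)
    rw [h3]
    have := ih e
    linarith

theorem ps_bound {a : ι → ι → ℝ} (ha : ∀ e f, 0 ≤ a e f) (h1 : ∀ e, ∑ f, a e f ≤ 1)
    {v : ι → ℝ} {V : ℝ} (hv : ∀ e, |v e| ≤ V) (i : ℕ) (e : ι) : |ps a v i e| ≤ 2 ^ i * V := by
  induction i generalizing e with
  | zero => simpa [ps] using hv e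
  | succ i ih =>
    have hV : 0 ≤ 2 ^ i * V := le_trans (abs_nonneg _) (ih e)
    have h2 : |∑ h, pw a i e h * ps a v i h| ≤ 2 ^ i * V := by
      calc |∑ h, pw a i e h * ps a v i h| ≤ ∑ h, |pw a i e h * ps a v i h| :=
            Finset.abs_sum_le_sum_abs _ _
        _ ≤ ∑ h, pw a i e h * (2 ^ i * V) := by
            refine Finset.sum_le_sum (fun h _ => ?_)
            rw [abs_mul, abs_of_nonneg (pw_nonneg ha i e h)]
            exact mul_le_mul_of_nonneg_left (ih h) (pw_nonneg ha i e h)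
        _ = (∑ h, pw a i e h) * (2 ^ i * V) := by rw [Finset.sum_mul]
        _ ≤ 1 * (2 ^ i * V) := mul_le_mul_of_nonneg_right (pw_row ha h1 i e) hV
        _ = 2 ^ i * V := one_mul _
    calc |ps a v (i + 1) e| ≤ |ps a v i e| + |∑ h, pw a i e h * ps a v i h| := abs_add_le _ _
      _ ≤ 2 ^ i * V + 2 ^ i * V := add_le_add (ih e) h2
      _ = 2 ^ (i + 1) * V := by ring

/-! ### The computed quantities -/

theorem floor_div (z : ℤ) {R : ℤ} (hR : 0 < R) :
    ((z / R : ℤ) : ℝ) ≤ (z : ℝ) / R ∧ (z : ℝ) / R < ((z / R : ℤ) : ℝ) + 1 := by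
  have hR' : (0 : ℝ) < R := by exact_mod_cast hR
  have h1 : z / R * R ≤ z := Int.ediv_mul_le z hR.ne'
  have h2 : z < (z / R + 1) * R := Int.lt_ediv_add_one_mul_self z hR
  constructor
  · rw [le_div_iff₀ hR']
    exact_mod_cast h1
  · rw [div_lt_iff₀ hR']
    exact_mod_cast h2

/-- Invariants of the computed matrices. -/
structure MatOK (R : ℤ) (A : ι × ι → ℤ) : Prop where
  nonneg : ∀ p, 0 ≤ A p
  row : ∀ e, ∑ f, A (e, f) ≤ R

theorem MatOK.le {R : ℤ} {A : ι × ι → ℤ} (h : MatOK R A) (e f : ι) : A (e, f) ≤ R := by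
  have h1 : A (e, f) ≤ ∑ f, A (e, f) :=
    Finset.single_le_sum (f := fun f => A (e, f)) (fun g _ => h.nonneg (e, g)) (Finset.mem_univ f)
  exact le_trans h1 (h.row e)

theorem MatOK.cl {R : ℤ} {A : ι × ι → ℤ} (h : MatOK R A) (e f : ι) :
    LibCC89.cl R (A (e, f)) = A (e, f) := by
  apply cl_eq
  rw [abs_of_nonneg (h.nonneg _)]
  exact h.le e f

theorem sqA_eq {R : ℤ} {A : ι × ι → ℤ} (h : MatOK R A) (p : ι × ι) :
    sqA R A p = (∑ g, A (p.1, g) * A (g, p.2)) / R := by
  unfold sqA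
  congr 1
  exact Finset.sum_congr rfl (fun g _ => by rw [h.cl, h.cl])

theorem MatOK.sq {R : ℤ} (hR : 0 < R) {A : ι × ι → ℤ} (h : MatOK R A) : MatOK R (sqA R A) := by
  refine ⟨fun p => ?_, fun e => ?_⟩
  · rw [sqA_eq h]
    exact Int.ediv_nonneg (Finset.sum_nonneg (fun g _ => mul_nonneg (h.nonneg _) (h.nonneg _)))
      hR.le
  · have h1 : ∀ f, sqA R A (e, f) * R ≤ ∑ g, A (e, g) * A (g, f) := by
      intro f
      rw [sqA_eq h]
      exact Int.ediv_mul_le _ hR.ne'
    have h2 : (∑ f, sqA R A (e, f)) * R ≤ R * R := by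
      calc (∑ f, sqA R A (e, f)) * R = ∑ f, sqA R A (e, f) * R := by rw [Finset.sum_mul]
        _ ≤ ∑ f, ∑ g, A (e, g) * A (g, f) := Finset.sum_le_sum (fun f _ => h1 f)
        _ = ∑ g, A (e, g) * ∑ f, A (g, f) := by
            rw [Finset.sum_comm]
            exact Finset.sum_congr rfl (fun g _ => (Finset.mul_sum _ _ _).symm)
        _ ≤ ∑ g, A (e, g) * R :=
            Finset.sum_le_sum (fun g _ => mul_le_mul_of_nonneg_left (h.row g) (h.nonneg _))
        _ = (∑ g, A (e, g)) * R := by rw [Finset.sum_mul]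
        _ ≤ R * R := mul_le_mul_of_nonneg_right (h.row e) hR.le
    exact le_of_mul_le_mul_right h2 hR

/-- The matrix after `i` rounds. -/
theorem iter_fst (R Y : ℤ) (A : ι × ι → ℤ) (v : ι → ℤ) (i : ℕ) :
    ((solStep R Y)^[i + 1] (A, v)).1 = sqA R ((solStep R Y)^[i] (A, v)).1 := by
  rw [Function.iterate_succ_apply']
  rfl

theorem iter_snd (R Y : ℤ) (A : ι × ι → ℤ) (v : ι → ℤ) (i : ℕ) :
    ((solStep R Y)^[i + 1] (A, v)).2 =
      mvA R Y ((solStep R Y)^[i] (A, v)).1 ((solStep R Y)^[i] (A, v)).2 := by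
  rw [Function.iterate_succ_apply']
  rfl

theorem matOK_iter {R : ℤ} (hR : 0 < R) (Y : ℤ) {A : ι × ι → ℤ} (h : MatOK R A) (v : ι → ℤ)
    (i : ℕ) : MatOK R ((solStep R Y)^[i] (A, v)).1 := by
  induction i with
  | zero => exact h
  | succ i ih =>
    rw [iter_fst]
    exact ih.sq hR

/-- Error of the matrices. -/
theorem mat_err {R : ℤ} (hR : 0 < R) (Y : ℤ) {A : ι × ι → ℤ} (h : MatOK R A) (v : ι → ℤ)
    (i : ℕ) (e : ι) :
    ∑ f, |((((solStep R Y)^[i] (A, v)).1 (e, f) : ℤ) : ℝ) / R -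
      pw (fun e f => (A (e, f) : ℝ) / R) i e f| ≤ (2 ^ i - 1) * ((Fintype.card ι : ℝ) / R) := by
  have hR' : (0 : ℝ) < R := by exact_mod_cast hR
  set a : ι → ι → ℝ := fun e f => (A (e, f) : ℝ) / R with ha
  have ha0 : ∀ e f, 0 ≤ a e f := fun e f => div_nonneg (by exact_mod_cast h.nonneg _) hR'.le
  have ha1 : ∀ e, ∑ f, a e f ≤ 1 := by
    intro e
    simp only [ha]
    rw [← Finset.sum_div, div_le_one hR']
    exact_mod_cast h.row e
  induction i generalizing e with
  | zero => simp [pw, ha]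
  | succ i ih =>
    have hM := matOK_iter hR Y h v i
    set M := ((solStep R Y)^[i] (A, v)).1 with hMdef
    rw [iter_fst, ← hMdef]
    set b : ι → ι → ℝ := fun e f => (M (e, f) : ℝ) / R with hb
    have hb0 : ∀ e f, 0 ≤ b e f := fun e f => div_nonneg (by exact_mod_cast hM.nonneg _) hR'.le
    have hb1 : ∀ e, ∑ f, b e f ≤ 1 := by
      intro e
      simp only [hb]
      rw [← Finset.sum_div, div_le_one hR']
      exact_mod_cast hM.row e
    have hround : ∀ f, |((sqA R M (e, f) : ℤ) : ℝ) / R - ∑ g, b e g * b g f| ≤ 1 / R := by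
      intro f
      rw [sqA_eq hM]
      obtain ⟨h1, h2⟩ := floor_div (∑ g, M (e, g) * M (g, f)) hR
      have h3 : ∑ g, b e g * b g f = (((∑ g, M (e, g) * M (g, f) : ℤ) : ℝ) / R) / R := by
        push_cast
        rw [Finset.sum_div, Finset.sum_div]
        refine Finset.sum_congr rfl (fun g _ => ?_)
        simp only [hb]
        field_simp
      rw [h3, ← sub_div, abs_div, abs_of_pos hR']
      apply div_le_div_of_nonneg_right _ hR'.le
      rw [abs_le]
      constructor <;> simp only at h1 h2 ⊢ <;> linarith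
    have hprod : ∀ f, |∑ g, b e g * b g f - pw a (i + 1) e f| ≤
        ∑ g, (b e g * |b g f - pw a i g f| + |b e g - pw a i e g| * pw a i g f) := by
      intro f
      simp only [pw]
      rw [← Finset.sum_sub_distrib]
      refine le_trans (Finset.abs_sum_le_sum_abs _ _) (Finset.sum_le_sum (fun g _ => ?_))
      have e1 : b e g * b g f - pw a i e g * pw a i g f =
          b e g * (b g f - pw a i g f) + (b e g - pw a i e g) * pw a i g f := by ring
      rw [e1]
      refine le_trans (abs_add_le _ _) ?_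
      rw [abs_mul, abs_mul, abs_of_nonneg (hb0 e g), abs_of_nonneg (pw_nonneg ha0 i g f)]
    have hcard : (∑ _f : ι, (1 : ℝ) / R) = (Fintype.card ι : ℝ) / R := by
      rw [Finset.sum_const, Finset.card_univ, nsmul_eq_mul]
      ring
    calc ∑ f, |((sqA R M (e, f) : ℤ) : ℝ) / R - pw a (i + 1) e f|
        ≤ ∑ f, (1 / R + ∑ g, (b e g * |b g f - pw a i g f| + |b e g - pw a i e g| * pw a i g f)) := by
          refine Finset.sum_le_sum (fun f _ => ?_)
          have e2 : ((sqA R M (e, f) : ℤ) : ℝ) / R - pw a (i + 1) e f =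
            (((sqA R M (e, f) : ℤ) : ℝ) / R - ∑ g, b e g * b g f) +
              (∑ g, b e g * b g f - pw a (i + 1) e f) := by ring
          rw [e2]
          exact le_trans (abs_add_le _ _) (add_le_add (hround f) (hprod f))
      _ = (Fintype.card ι : ℝ) / R + (∑ g, b e g * ∑ f, |b g f - pw a i g f| +
            ∑ g, |b e g - pw a i e g| * ∑ f, pw a i g f) := by
          rw [Finset.sum_add_distrib, hcard, Finset.sum_comm]
          congr 1
          rw [← Finset.sum_add_distrib]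
          refine Finset.sum_congr rfl (fun g _ => ?_)
          rw [Finset.sum_add_distrib, Finset.mul_sum, Finset.mul_sum]
      _ ≤ (Fintype.card ι : ℝ) / R + (∑ g, b e g * ((2 ^ i - 1) * ((Fintype.card ι : ℝ) / R)) +
            ∑ g, |b e g - pw a i e g| * 1) := by
          refine add_le_add le_rfl (add_le_add ?_ ?_)
          · exact Finset.sum_le_sum (fun g _ => mul_le_mul_of_nonneg_left (ih g) (hb0 e g))
          · exact Finset.sum_le_sum (fun g _ =>
              mul_le_mul_of_nonneg_left (pw_row ha0 ha1 i g) (abs_nonneg _))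
      _ ≤ (Fintype.card ι : ℝ) / R + (1 * ((2 ^ i - 1) * ((Fintype.card ι : ℝ) / R)) +
            (2 ^ i - 1) * ((Fintype.card ι : ℝ) / R)) := by
          refine add_le_add le_rfl (add_le_add ?_ ?_)
          · rw [← Finset.sum_mul]
            refine mul_le_mul_of_nonneg_right (hb1 e) ?_
            have : (1 : ℝ) ≤ 2 ^ i := one_le_pow₀ (by norm_num)
            have h3 : (0 : ℝ) ≤ (Fintype.card ι : ℝ) / R := by positivity
            nlinarith
          · simpa using ih e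
      _ = (2 ^ (i + 1) - 1) * ((Fintype.card ι : ℝ) / R) := by ring

theorem abs_ediv_le' (z : ℤ) (R : ℤ) : |z / R| ≤ |z| := by
  exact Int.abs_ediv_le_abs z R

theorem sum_row_abs {R : ℤ} (hR : 0 < R) {M : ι × ι → ℤ} (hM : MatOK R M) {y : ι → ℤ} {b : ℤ}
    (hy : ∀ e, |y e| ≤ b) (hb : 0 ≤ b) (e : ι) : |(∑ h, M (e, h) * y h) / R| ≤ b + 1 := by
  have h1 : |∑ h, M (e, h) * y h| ≤ R * b := by
    calc |∑ h, M (e, h) * y h| ≤ ∑ h, |M (e, h) * y h| := Finset.abs_sum_le_sum_abs _ _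
      _ ≤ ∑ h, M (e, h) * b := by
          refine Finset.sum_le_sum (fun h _ => ?_)
          rw [abs_mul, abs_of_nonneg (hM.nonneg _)]
          exact mul_le_mul_of_nonneg_left (hy h) (hM.nonneg _)
      _ = (∑ h, M (e, h)) * b := by rw [Finset.sum_mul]
      _ ≤ R * b := mul_le_mul_of_nonneg_right (hM.row e) hb
  obtain ⟨h2, h3⟩ := abs_le.1 h1
  rw [abs_le]
  constructor
  · have : -(b + 1) * R ≤ ∑ h, M (e, h) * y h := by nlinarith
    exact (Int.le_ediv_iff_mul_le hR).2 this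
  · have : (∑ h, M (e, h) * y h) / R ≤ (R * b) / R := Int.ediv_le_ediv hR h3
    rw [Int.mul_ediv_cancel_left _ hR.ne'] at this
    linarith

/-- The computed vectors stay small: the clamping does nothing. -/
theorem vec_bound {R Y : ℤ} (hR : 0 < R) {A : ι × ι → ℤ} (h : MatOK R A) {v : ι → ℤ} {b : ℤ}
    (hb : 0 ≤ b) (hv : ∀ e, |v e| ≤ b) {J : ℕ} (hY : 2 ^ J * (b + 1) ≤ Y) (i : ℕ) (hi : i ≤ J)
    (e : ι) : |((solStep R Y)^[i] (A, v)).2 e| ≤ 2 ^ i * (b + 1) - 1 := by
  induction i generalizing e with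
  | zero =>
    have := hv e
    simpa using this
  | succ i ih =>
    have hM := matOK_iter hR Y h v i
    rw [iter_snd]
    set M := ((solStep R Y)^[i] (A, v)).1 with hMdef
    set y := ((solStep R Y)^[i] (A, v)).2 with hydef
    have hy : ∀ e, |y e| ≤ 2 ^ i * (b + 1) - 1 := fun e => ih (by omega) e
    have h2i : (2 : ℤ) ^ i ≤ 2 ^ J := pow_le_pow_right₀ (by norm_num) (by omega)
    have hpos : (1 : ℤ) ≤ 2 ^ i := one_le_pow₀ (by norm_num)
    have hyY : ∀ e, cl Y (y e) = y e := by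
      intro e
      apply cl_eq
      have := hy e
      nlinarith
    have hcl : mvA R Y M y e = y e + (∑ h, M (e, h) * y h) / R := by
      unfold mvA
      rw [hyY]
      congr 2
      exact Finset.sum_congr rfl (fun g _ => by rw [hM.cl, hyY])
    rw [hcl]
    have h1 := sum_row_abs hR hM hy (by nlinarith) e
    have h2 := hy e
    have h3 := abs_add_le (y e) ((∑ h, M (e, h) * y h) / R)
    rw [pow_succ]
    linarith

/-- Error of the vectors. -/
theorem vec_err {R Y : ℤ} (hR : 0 < R) {A : ι × ι → ℤ} (h : MatOK R A) {v : ι → ℤ} {V : ℕ}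
    (hv : ∀ e, |v e| ≤ V * R) {J : ℕ} (hY : 2 ^ J * (V * R + 1) ≤ Y) (i : ℕ) (hi : i ≤ J)
    (e : ι) :
    |((((solStep R Y)^[i] (A, v)).2 e : ℤ) : ℝ) -
      ps (fun e f => (A (e, f) : ℝ) / R) (fun e => (v e : ℝ)) i e| ≤
      4 ^ i * ((Fintype.card ι : ℝ) * V + 1) - 1 := by
  have hR' : (0 : ℝ) < R := by exact_mod_cast hR
  have hb : (0 : ℤ) ≤ V * R := by positivity
  set a : ι → ι → ℝ := fun e f => (A (e, f) : ℝ) / R with ha
  have ha0 : ∀ e f, 0 ≤ a e f := fun e f => div_nonneg (by exact_mod_cast h.nonneg _) hR'.le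
  have ha1 : ∀ e, ∑ f, a e f ≤ 1 := by
    intro e
    simp only [ha]
    rw [← Finset.sum_div, div_le_one hR']
    exact_mod_cast h.row e
  have hvr : ∀ e, |(v e : ℝ)| ≤ V * R := by
    intro e
    have := hv e
    exact_mod_cast this
  induction i generalizing e with
  | zero =>
    simp only [Function.iterate_zero, id_eq, ps, sub_self, abs_zero, pow_zero, one_mul,
      add_sub_cancel_right]
    positivity
  | succ i ih =>
    have hM := matOK_iter hR Y h v i
    have hvb := vec_bound hR h hb hv hY i (by omega)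
    have hme := mat_err hR Y h v i e
    rw [iter_snd]
    rw [← ha] at hme
    set M := ((solStep R Y)^[i] (A, v)).1 with hMdef
    set y := ((solStep R Y)^[i] (A, v)).2 with hydef
    have h2i : (2 : ℤ) ^ i ≤ 2 ^ J := pow_le_pow_right₀ (by norm_num) (by omega)
    have hpos : (1 : ℤ) ≤ 2 ^ i := one_le_pow₀ (by norm_num)
    have hyY : ∀ e, cl Y (y e) = y e := by
      intro e
      apply cl_eq
      have := hvb e
      nlinarith
    have hcl : mvA R Y M y e = y e + (∑ h, M (e, h) * y h) / R := by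
      unfold mvA
      rw [hyY]
      congr 2
      exact Finset.sum_congr rfl (fun g _ => by rw [hM.cl, hyY])
    rw [hcl]
    push_cast
    obtain ⟨h1, h2⟩ := floor_div (∑ h, M (e, h) * y h) hR
    set b : ι → ι → ℝ := fun e f => (M (e, f) : ℝ) / R with hbdef
    have hb0 : ∀ e f, 0 ≤ b e f := fun e f => div_nonneg (by exact_mod_cast hM.nonneg _) hR'.le
    have hb1 : ∀ e, ∑ f, b e f ≤ 1 := by
      intro e
      simp only [hbdef]
      rw [← Finset.sum_div, div_le_one hR']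
      exact_mod_cast hM.row e
    have h3 : (((∑ h, M (e, h) * y h : ℤ) : ℝ) / R) = ∑ g, b e g * (y g : ℝ) := by
      push_cast
      rw [Finset.sum_div]
      refine Finset.sum_congr rfl (fun g _ => ?_)
      simp only [hbdef]
      ring
    rw [h3] at h1 h2
    set w : ι → ℝ := ps a (fun e => (v e : ℝ)) i with hw
    have hwb : ∀ g, |w g| ≤ 2 ^ i * (V * R) := fun g => ps_bound ha0 ha1 hvr i g
    set ε : ℝ := 4 ^ i * ((Fintype.card ι : ℝ) * V + 1) - 1 with hε
    have hih : ∀ g, |(y g : ℝ) - w g| ≤ ε := fun g => ih (by omega) g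
    have hcard0 : (0 : ℝ) ≤ (Fintype.card ι : ℝ) * V := by positivity
    have h4i : (1 : ℝ) ≤ 4 ^ i := one_le_pow₀ (by norm_num)
    have hε0 : 0 ≤ ε := by
      rw [hε]
      nlinarith
    have hprod : |∑ g, b e g * (y g : ℝ) - ∑ g, pw a i e g * w g| ≤
        ε + (2 ^ i - 1) * ((Fintype.card ι : ℝ) / R) * (2 ^ i * (V * R)) := by
      rw [← Finset.sum_sub_distrib]
      calc |∑ g, (b e g * (y g : ℝ) - pw a i e g * w g)|
          ≤ ∑ g, |b e g * (y g : ℝ) - pw a i e g * w g| := Finset.abs_sum_le_sum_abs _ _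
        _ ≤ ∑ g, (b e g * ε + |b e g - pw a i e g| * (2 ^ i * (V * R))) := by
            refine Finset.sum_le_sum (fun g _ => ?_)
            have e1 : b e g * (y g : ℝ) - pw a i e g * w g =
              b e g * ((y g : ℝ) - w g) + (b e g - pw a i e g) * w g := by ring
            rw [e1]
            refine le_trans (abs_add_le _ _) ?_
            rw [abs_mul, abs_mul, abs_of_nonneg (hb0 e g)]
            exact add_le_add (mul_le_mul_of_nonneg_left (hih g) (hb0 e g))
              (mul_le_mul_of_nonneg_left (hwb g) (abs_nonneg _))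
        _ = (∑ g, b e g) * ε + (∑ g, |b e g - pw a i e g|) * (2 ^ i * (V * R)) := by
            rw [Finset.sum_add_distrib, Finset.sum_mul, Finset.sum_mul]
        _ ≤ 1 * ε + (2 ^ i - 1) * ((Fintype.card ι : ℝ) / R) * (2 ^ i * (V * R)) := by
            refine add_le_add (mul_le_mul_of_nonneg_right (hb1 e) hε0) ?_
            exact mul_le_mul_of_nonneg_right hme (by positivity)
        _ = _ := by rw [one_mul]
    have hsimp : (2 ^ i - 1) * ((Fintype.card ι : ℝ) / R) * (2 ^ i * (V * R)) ≤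
        4 ^ i * ((Fintype.card ι : ℝ) * V) := by
      have e3 : (2 ^ i - 1) * ((Fintype.card ι : ℝ) / R) * (2 ^ i * (V * R)) =
          (2 ^ i - 1) * 2 ^ i * ((Fintype.card ι : ℝ) * V) := by
        field_simp
      rw [e3]
      apply mul_le_mul_of_nonneg_right _ hcard0
      have e4 : (4 : ℝ) ^ i = 2 ^ i * 2 ^ i := by
        rw [← mul_pow]; norm_num
      rw [e4]
      have : (1 : ℝ) ≤ 2 ^ i := one_le_pow₀ (by norm_num)
      nlinarith
    have hps : ps a (fun e => (v e : ℝ)) (i + 1) e = w e + ∑ g, pw a i e g * w g := rfl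
    rw [hps]
    have hA := abs_le.1 (hih e)
    have hB := abs_le.1 (le_trans hprod (add_le_add le_rfl hsimp))
    have htot : ε + (ε + 4 ^ i * ((Fintype.card ι : ℝ) * V)) + 1 ≤
        4 ^ (i + 1) * ((Fintype.card ι : ℝ) * V + 1) - 1 := by
      rw [hε, pow_succ]
      nlinarith
    rw [abs_le]
    constructor
    · linarith [hA.1, hB.1]
    · linarith [hA.2, hB.2]

/-- The solver is correct up to a small error. -/
theorem solve_err {R Y : ℤ} (hR : 0 < R) {A : ι × ι → ℤ} (h : MatOK R A) {ht : ι → ℕ}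
    (hht : ∀ e f, A (e, f) ≠ 0 → ht f < ht e) {v : ι → ℤ} {V : ℕ}
    (hv : ∀ e, |v e| ≤ V * R) {J : ℕ} (hJ : Fintype.card ι ≤ 2 ^ J)
    (hY : 2 ^ J * (V * R + 1) ≤ Y) {x : ι → ℝ}
    (hx : ∀ e, x e = (∑ f, (A (e, f) : ℝ) / R * x f) + v e) (e : ι) :
    |(solve R Y J A v e : ℝ) - x e| ≤ 4 ^ J * ((Fintype.card ι : ℝ) * V + 1) := by
  have hR' : (0 : ℝ) < R := by exact_mod_cast hR
  have h1 := vec_err hR h hv hY J le_rfl e
  have h2 := ps_solution (a := fun e f => (A (e, f) : ℝ) / R) (v := fun e => (v e : ℝ)) hx J e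
  have h3 : ∀ e f, pw (fun e f => (A (e, f) : ℝ) / R) J e f = 0 := by
    apply pw_zero (ht := ht) _ hJ
    intro e f hne
    apply hht
    intro h0
    apply hne
    simp [h0]
  have h4 : ∑ f, pw (fun e f => (A (e, f) : ℝ) / R) J e f * x f = 0 := by
    apply Finset.sum_eq_zero
    intro f _
    rw [h3, zero_mul]
  rw [h4, add_zero] at h2
  rw [h2]
  unfold solve
  linarith

end Algo

/-! ### The solver as a stage of cells -/

section Stage

variable {α ρ ι : Type} [Fintype ρ] [Fintype ι] {Q L : ℕ}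

/-- One round of the solver acting on cells, other cells are kept. -/
def solS (R Y : ℤ) (s : ρ ⊕ ((ι × ι) ⊕ ι) → ℤ) : ρ ⊕ ((ι × ι) ⊕ ι) → ℤ
  | Sum.inl r => s (Sum.inl r)
  | Sum.inr (Sum.inl p) => sqA R (fun q => s (Sum.inr (Sum.inl q))) p
  | Sum.inr (Sum.inr e) => mvA R Y (fun q => s (Sum.inr (Sum.inl q)))
      (fun h => s (Sum.inr (Sum.inr h))) e

omit [Fintype ρ] in
theorem solS_iterate (R Y : ℤ) (i : ℕ) (s : ρ ⊕ ((ι × ι) ⊕ ι) → ℤ) :
    (solS R Y)^[i] s = Sum.elim (fun r => s (Sum.inl r))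
      (Sum.elim ((solStep R Y)^[i] (fun q => s (Sum.inr (Sum.inl q)),
        fun h => s (Sum.inr (Sum.inr h)))).1
        ((solStep R Y)^[i] (fun q => s (Sum.inr (Sum.inl q)),
        fun h => s (Sum.inr (Sum.inr h)))).2) := by
  induction i with
  | zero =>
    funext t
    rcases t with r | p | e <;> rfl
  | succ i ih =>
    rw [Function.iterate_succ_apply', ih, Function.iterate_succ_apply']
    funext t
    rcases t with r | p | e <;> rfl

theorem ifd_sqA {j : ℕ} (hj : Fintype.card ι ≤ 2 ^ j) {Y' : Type} {R : ℤ} (hR : 0 ≤ R)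
    (hB : (Fintype.card ι : ℤ) * (R * R) < 2 ^ L) (a : ι × ι → Y') (p : ι × ι) :
    IFD L (j + 1) (fun y : Y' → ℤ => sqA R (fun q => y (a q)) p) := by
  have hb : ∀ (y : Y' → ℤ), ∑ h, |cl R (y (a (p.1, h))) * cl R (y (a (h, p.2)))| < 2 ^ L := by
    intro y
    refine lt_of_le_of_lt ?_ hB
    calc ∑ h, |cl R (y (a (p.1, h))) * cl R (y (a (h, p.2)))| ≤ ∑ _h : ι, R * R := by
          refine Finset.sum_le_sum (fun h _ => ?_)
          rw [abs_mul]
          exact mul_le_mul (abs_cl_le hR _) (abs_cl_le hR _) (abs_nonneg _) hR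
      _ = _ := by rw [Finset.sum_const, Finset.card_univ, nsmul_eq_mul]
  have h1 := IFD.sum (L := L) (k := 0) j hj
    (fun h (y : Y' → ℤ) => cl R (y (a (p.1, h))) * cl R (y (a (h, p.2))))
    (fun h => IFD.op _ _ (fun u v => cl R u * cl R v) (fun y _ => by
      refine lt_of_le_of_lt ?_ (hb y)
      exact Finset.single_le_sum (f := fun h => |cl R (y (a (p.1, h))) * cl R (y (a (h, p.2)))|)
        (fun i _ => abs_nonneg _) (Finset.mem_univ h)))
    (fun y _ => hb y)
  have h2 := IFD.map1 (fun z => z / R) h1 (fun y hy =>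
    lt_of_le_of_lt (Int.abs_ediv_le_abs _ _) (h1.bd hy))
  rw [zero_add] at h2
  exact h2

theorem ifd_mvA {j : ℕ} (hj : Fintype.card ι ≤ 2 ^ j) {Y' : Type} {R Y : ℤ} (hR : 0 ≤ R)
    (hY : 0 ≤ Y) (hB : Y + (Fintype.card ι : ℤ) * (R * Y) < 2 ^ L) (a : ι × ι → Y')
    (b : ι → Y') (e : ι) :
    IFD L (j + 2) (fun y : Y' → ℤ => mvA R Y (fun q => y (a q)) (fun h => y (b h)) e) := by
  have hb' : ∀ (y : Y' → ℤ), ∑ h, |cl R (y (a (e, h))) * cl Y (y (b h))| ≤
      (Fintype.card ι : ℤ) * (R * Y) := by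
    intro y
    calc ∑ h, |cl R (y (a (e, h))) * cl Y (y (b h))| ≤ ∑ _h : ι, R * Y := by
          refine Finset.sum_le_sum (fun h _ => ?_)
          rw [abs_mul]
          exact mul_le_mul (abs_cl_le hR _) (abs_cl_le hY _) (abs_nonneg _) hR
      _ = _ := by rw [Finset.sum_const, Finset.card_univ, nsmul_eq_mul]
  have hb : ∀ (y : Y' → ℤ), ∑ h, |cl R (y (a (e, h))) * cl Y (y (b h))| < 2 ^ L := by
    intro y
    have := hb' y
    linarith
  have h1 := IFD.sum (L := L) (k := 0) j hj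
    (fun h (y : Y' → ℤ) => cl R (y (a (e, h))) * cl Y (y (b h)))
    (fun h => IFD.op _ _ (fun u v => cl R u * cl Y v) (fun y _ => by
      refine lt_of_le_of_lt ?_ (hb y)
      exact Finset.single_le_sum (f := fun h => |cl R (y (a (e, h))) * cl Y (y (b h))|)
        (fun i _ => abs_nonneg _) (Finset.mem_univ h)))
    (fun y _ => hb y)
  have h2 := IFD.map1 (fun z => z / R) h1 (fun y hy =>
    lt_of_le_of_lt (Int.abs_ediv_le_abs _ _) (h1.bd hy))
  rw [zero_add] at h2
  have h3 := IFD.map2 (fun u v => cl Y u + v) ((IFD.var 0 (b e)).mono (Nat.zero_le _)) h2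
    (fun y hy => by
      have h4 := abs_cl_le hY (y (b e))
      have h5 := Int.abs_ediv_le_abs (∑ h, cl R (y (a (e, h))) * cl Y (y (b h))) R
      have h6 := Finset.abs_sum_le_sum_abs
        (fun h => cl R (y (a (e, h))) * cl Y (y (b h))) Finset.univ
      have h7 := hb' y
      have h8 := abs_add_le (cl Y (y (b e)))
        ((∑ h, cl R (y (a (e, h))) * cl Y (y (b h))) / R)
      linarith)
  exact h3

/-- One round costs `j + 3` levels of cells. -/
theorem ilev_solS {j : ℕ} (hL : 1 ≤ L) (hj : Fintype.card ι ≤ 2 ^ j) {R Y : ℤ} (hR : 0 ≤ R)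
    (hRY : R ≤ Y) (hB : Y + (Fintype.card ι : ℤ) * (R * Y) < 2 ^ L)
    (hQ : Fintype.card (ρ ⊕ ((ι × ι) ⊕ ι)) * 2 ^ (j + 2) ≤ Q) {d : ℕ}
    {f : (α → Bool) → ρ ⊕ ((ι × ι) ⊕ ι) → ℤ} (h : ILev α Q L d (ρ ⊕ ((ι × ι) ⊕ ι)) f) :
    ILev α Q L (d + (j + 3)) (ρ ⊕ ((ι × ι) ⊕ ι)) (fun x => solS R Y (f x)) := by
  have hY : 0 ≤ Y := le_trans hR hRY
  have hB1 : (Fintype.card ι : ℤ) * (R * R) < 2 ^ L := by
    have h1 : (Fintype.card ι : ℤ) * (R * R) ≤ (Fintype.card ι : ℤ) * (R * Y) :=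
      mul_le_mul_of_nonneg_left (mul_le_mul_of_nonneg_left hRY hR) (by positivity)
    linarith
  have h1 := ILev.formula (k := j + 2) hL
    (fun (t : ρ ⊕ ((ι × ι) ⊕ ι)) (y : α ⊕ (ρ ⊕ ((ι × ι) ⊕ ι)) → ℤ) =>
      solS R Y (fun b => y (Sum.inr b)) t) ?_ hQ h
  · have e : d + (j + 2) + 1 = d + (j + 3) := by ring
    rw [e] at h1
    exact h1.congr (fun x t => rfl)
  · rintro (r | p | e)
    · exact IFD.var _ (Sum.inr (Sum.inl r))
    · exact (ifd_sqA hj hR hB1 (Y' := α ⊕ (ρ ⊕ ((ι × ι) ⊕ ι)))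
        (fun q => Sum.inr (Sum.inr (Sum.inl q))) p).mono (by omega)
    · exact ifd_mvA hj hR hY hB (Y' := α ⊕ (ρ ⊕ ((ι × ι) ⊕ ι)))
        (fun q => Sum.inr (Sum.inr (Sum.inl q))) (fun h => Sum.inr (Sum.inr (Sum.inr h))) e

/-- `i` rounds. -/
theorem ilev_solS_iter {j : ℕ} (hL : 1 ≤ L) (hj : Fintype.card ι ≤ 2 ^ j) {R Y : ℤ}
    (hR : 0 ≤ R) (hRY : R ≤ Y) (hB : Y + (Fintype.card ι : ℤ) * (R * Y) < 2 ^ L)
    (hQ : Fintype.card (ρ ⊕ ((ι × ι) ⊕ ι)) * 2 ^ (j + 2) ≤ Q) (i : ℕ) {d : ℕ}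
    {f : (α → Bool) → ρ ⊕ ((ι × ι) ⊕ ι) → ℤ} (h : ILev α Q L d (ρ ⊕ ((ι × ι) ⊕ ι)) f) :
    ILev α Q L (d + i * (j + 3)) (ρ ⊕ ((ι × ι) ⊕ ι)) (fun x => (solS R Y)^[i] (f x)) := by
  induction i with
  | zero => simpa using h
  | succ i ih =>
    have h1 := ilev_solS hL hj hR hRY hB hQ ih
    have e : d + i * (j + 3) + (j + 3) = d + (i + 1) * (j + 3) := by ring
    rw [e] at h1
    exact h1.congr (fun x t => by rw [Function.iterate_succ_apply'])

end Stage

end Pool.Agent.LibCC89
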