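import Pool.Agent.LibCCS.RealA
import Pool.Agent.LibCC67.Soft

/-!
States of the softmax network: existence, change of temperature, change of the sources,
comparison with the Boolean run.
-/

namespace Pool.Agent.LibCC89

open Pool.Agent.LibCC Pool.Agent.LibCCS Pool.Agent.LibCC67

variable {n m : ℕ}

/-- `x` is the state of the softmax network at temperature `p` with source values `κ` and
constant `c0`. -/
def Sol (C : CompCircuit n m) (p : ℝ) (κ : Arc n m → ℝ) (c0 : ℝ) (x : Arc n m → ℝ) : Prop :=
  IsX C (fun _ => false) κ (fun g => H p (Dx C x g) - c0) x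

theorem exists_sol (C : CompCircuit n m) (p : ℝ) (κ : Arc n m → ℝ) (c0 : ℝ) :
    ∃ x, Sol C p κ c0 x :=
  exists_isX C (fun _ => false) κ (fun _ D => H p D - c0)

/-- The facts on the softmax gate used here: it is `1`-Lipschitz, monotone in the temperature
and subadditive. -/
structure Facts : Prop where
  lip : ∀ p y z : ℝ, 0 ≤ p → |H p y - H p z| ≤ |y - z|
  mono : ∀ p d y : ℝ, 0 ≤ p → 0 ≤ d → H p y ≤ H (p + d) y
  sub : ∀ p d y h : ℝ, 0 ≤ p → 0 ≤ d → H (p + d) (y + h) ≤ H p y + H d h

theorem H_zero (y : ℝ) : H 0 y = |y| := by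
  simp [H]

theorem facts : Facts := by
  refine ⟨fun p y z hp => H_lip hp z y, fun p d y hp hd => H_mono hp (by linarith) y,
    fun p d y h hp hd => ?_⟩
  rcases hd.eq_or_lt with h0 | h0
  · subst h0
    rw [add_zero, H_zero]
    have := (abs_le.1 (H_lip hp y (y + h))).2
    rw [add_sub_cancel_left] at this
    linarith
  · exact H_add_le hp h0 y h

theorem half_add_sub_le {u v : ℝ} : (|u + v| + |u - v|) / 2 ≤ max |u| |v| := by
  rcases abs_cases (u + v) with h1 | h1 <;> rcases abs_cases (u - v) with h2 | h2 <;>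
    rw [h1.1, h2.1]
  · exact le_trans (by linarith [le_abs_self u]) (le_max_left |u| |v|)
  · exact le_trans (by linarith [le_abs_self v]) (le_max_right |u| |v|)
  · exact le_trans (by linarith [neg_abs_le v]) (le_max_right |u| |v|)
  · exact le_trans (by linarith [neg_abs_le u]) (le_max_left |u| |v|)

/-- Change of the source values and of the constant. -/
theorem sol_lip {C : CompCircuit n m} {p : ℝ} (hp : 0 ≤ p)
    {κ κ' : Arc n m → ℝ} {c0 c0' : ℝ} {x x' : Arc n m → ℝ} (h : Sol C p κ c0 x)
    (h' : Sol C p κ' c0' x') {r : ℝ} (hr : ∀ i, |κ' (Sum.inl i) - κ (Sum.inl i)| ≤ r)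
    (e : Arc n m) : |x' e - x e| ≤ r + m * |c0' - c0| / 2 := by
  have h1 := chain_bound C (fun _ => false) (fun e => |x' e - x e|) (fun _ => |c0' - c0| / 2)
    (fun _ => by positivity) (δ := r)
    (fun i => by rw [h.src, h'.src]; exact hr i)
    (fun a ha => by simp at ha)
    (fun a _ => by
      have e1 := h.opn a rfl
      have e2 := h'.opn a rfl
      have e3 := facts.lip p (Dx C x' a.1) (Dx C x a.1) hp
      set u := x' (C.inp (a.1, false)) - x (C.inp (a.1, false)) with hu
      set v := x' (C.inp (a.1, true)) - x (C.inp (a.1, true)) with hv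
      have e4 : Dx C x' a.1 - Dx C x a.1 = u - v := by
        rw [hu, hv]
        unfold Dx
        ring
      have e5 : Sx C x' a.1 - Sx C x a.1 = u + v := by
        rw [hu, hv]
        unfold Sx
        ring
      rw [e4] at e3
      have e6 : x' (Sum.inr a) - x (Sum.inr a) =
          ((u + v) + sg a.2 * ((H p (Dx C x' a.1) - H p (Dx C x a.1)) - (c0' - c0))) / 2 := by
        rw [e1, e2, ← e5]
        ring
      have e7 : |sg a.2 * ((H p (Dx C x' a.1) - H p (Dx C x a.1)) - (c0' - c0))| ≤
          |u - v| + |c0' - c0| := by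
        rw [abs_mul]
        have : |sg a.2| = 1 := by
          unfold sg
          cases a.2 <;> simp
        rw [this, one_mul]
        exact le_trans (abs_sub _ _) (by linarith)
      have e8 := half_add_sub_le (u := u) (v := v)
      change |x' (Sum.inr a) - x (Sum.inr a)| ≤ max |u| |v| + |c0' - c0| / 2
      rw [e6, abs_div, abs_two]
      have e9 := abs_add_le (u + v)
        (sg a.2 * ((H p (Dx C x' a.1) - H p (Dx C x a.1)) - (c0' - c0)))
      linarith) e
  simp only [Finset.sum_const, Finset.card_univ, Fintype.card_fin, nsmul_eq_mul] at h1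
  linarith

/-- The drift bound with constant `J`: errors between two temperatures that differ by `d` are at
most `d * J` on every arc. -/
def Drifts (C : CompCircuit n m) (J : ℝ) : Prop :=
  ∀ (d : ℝ) (e : Arc n m → ℝ) (E : Fin m → ℝ), 0 < d → (∀ i, e (Sum.inl i) = 0) →
    (∀ a : Fin m × Bool, e (Sum.inr a) = (Sx C e a.1 + sg a.2 * E a.1) / 2) →
    (∀ g, -|Dx C e g| ≤ E g) → (∀ g, E g ≤ H d (Dx C e g)) → ∀ a, |e a| ≤ d * J

/-- Change of temperature. -/
theorem sol_drift {C : CompCircuit n m} {p p' : ℝ} (hp : 0 ≤ p) (hpp : p ≤ p')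
    {κ : Arc n m → ℝ} {c0 : ℝ} {x x' : Arc n m → ℝ} (h : Sol C p κ c0 x)
    (h' : Sol C p' κ c0 x') {J : ℝ} (hJ : Drifts C J)
    (e : Arc n m) : |x' e - x e| ≤ (p' - p) * J := by
  rcases hpp.eq_or_lt with heq | hlt
  · subst heq
    have h1 := sol_lip hp h h' (r := 0) (fun i => by simp) e
    simpa using h1
  · have hd : 0 < p' - p := by linarith
    exact hJ (p' - p) (fun a => x' a - x a)
      (fun g => H p' (Dx C x' g) - H p (Dx C x g)) hd
      (fun i => by rw [h.src, h'.src]; simp)
      (fun a => by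
        rw [h.opn a rfl, h'.opn a rfl]
        unfold Sx
        ring)
      (fun g => by
        have e1 := facts.mono p (p' - p) (Dx C x' g) hp hd.le
        rw [show p + (p' - p) = p' by ring] at e1
        have e2 := facts.lip p (Dx C x' g) (Dx C x g) hp
        have e3 : Dx C (fun a => x' a - x a) g = Dx C x' g - Dx C x g := by
          unfold Dx
          ring
        rw [e3]
        have := (abs_le.1 e2).1
        linarith)
      (fun g => by
        have e1 := facts.sub p (p' - p) (Dx C x g) (Dx C x' g - Dx C x g) hp hd.le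
        rw [show p + (p' - p) = p' by ring,
          show Dx C x g + (Dx C x' g - Dx C x g) = Dx C x' g by ring] at e1
        have e3 : Dx C (fun a => x' a - x a) g = Dx C x' g - Dx C x g := by
          unfold Dx
          ring
        rw [e3]
        linarith) e

/-- The drift bound in terms of the number of comparators. -/
theorem drifts_cube (C : CompCircuit n m) {q L : ℕ} (hq : m ≤ q ^ 3) (hq1 : 1 ≤ q)
    (hL : m ≤ 2 ^ L) : Drifts C ((q * (L + 8) : ℕ) : ℝ) := by
  intro d e E hd hs ho hlo hup a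
  have h1 := drift (C := C) (e := e) (E := E) (d := d) (lam := L) (N := q) hd
    (Nat.cast_nonneg _) hq1 hs ho hlo hup a
  refine h1.trans (mul_le_mul_of_nonneg_left ?_ hd.le)
  have hqr : (1 : ℝ) ≤ q := by exact_mod_cast hq1
  have hq' : (m : ℝ) ≤ (q : ℝ) ^ 3 := by exact_mod_cast hq
  have hL' : (m : ℝ) ≤ 2 ^ L := by exact_mod_cast hL
  have s1 : Real.sqrt (2 * m / q) ≤ 2 * q := by
    rw [Real.sqrt_le_left (by positivity), div_le_iff₀ (by linarith)]
    have : (2 * (q : ℝ)) ^ 2 * q = 4 * (q : ℝ) ^ 3 := by ring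
    rw [this]
    nlinarith
  have s2 : 5 * (m : ℝ) * Real.exp (-(L : ℝ)) ≤ 5 := by
    have h2 : (m : ℝ) ≤ Real.exp (L : ℝ) := by
      refine hL'.trans ?_
      have h3 : (2 : ℝ) ≤ Real.exp 1 := by
        have := Real.add_one_le_exp (1 : ℝ)
        linarith
      calc (2 : ℝ) ^ L ≤ (Real.exp 1) ^ L := pow_le_pow_left₀ (by norm_num) h3 L
        _ = Real.exp (L : ℝ) := by rw [← Real.exp_nat_mul]; simp
    have h4 : Real.exp (L : ℝ) * Real.exp (-(L : ℝ)) = 1 := by
      rw [← Real.exp_add]
      simp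
    have h5 := mul_le_mul_of_nonneg_right h2 (Real.exp_pos (-(L : ℝ))).le
    linarith
  have hL0 : (0 : ℝ) ≤ L := Nat.cast_nonneg _
  push_cast
  nlinarith [mul_nonneg hL0 (by linarith : (0 : ℝ) ≤ (q : ℝ) - 1)]

/-- The state at the start. -/
theorem sol_zero (C : CompCircuit n m) (p : ℝ) {κ : Arc n m → ℝ}
    (hκ : ∀ i, κ (Sum.inl i) = 0) : Sol C p κ (H p 0) (fun _ => 0) := by
  refine ⟨fun i => (hκ i).symm, fun a ha => by simp at ha, fun a _ => ?_⟩
  have h1 : Dx C (fun _ => (0 : ℝ)) a.1 = 0 := by simp [Dx]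
  have h2 : Sx C (fun _ => (0 : ℝ)) a.1 = 0 := by simp [Sx]
  simp only [h1, h2]
  ring

/-- A bit as a real number. -/
def b2r (b : Bool) : ℝ := if b then 1 else 0

/-- The Boolean run is the state at temperature `0` without constant. -/
theorem sol_bool {C : CompCircuit n m} {b : Fin n → Bool} {v : Arc n m → Bool}
    (h : C.IsVal b v) : Sol C 0 (fun e => b2r (v e)) 0 (fun e => b2r (v e)) := by
  refine ⟨fun i => rfl, fun a _ => rfl, fun a _ => ?_⟩
  obtain ⟨g, c⟩ := a
  have h1 := h.conj g
  have h2 := h.disj g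
  simp only [Dx, Sx, H_zero, sub_zero]
  cases c
  · rw [h1]
    cases v (C.inp (g, false)) <;> cases v (C.inp (g, true)) <;> simp [b2r, sg]
  · rw [h2]
    cases v (C.inp (g, false)) <;> cases v (C.inp (g, true)) <;> simp [b2r, sg]

/-- Comparison of the state at temperature `p` with the Boolean run. -/
theorem sol_near_bool {C : CompCircuit n m} {p : ℝ} (hp : 0 ≤ p)
    {κ : Arc n m → ℝ} {c0 : ℝ} {x : Arc n m → ℝ} (h : Sol C p κ c0 x) {b : Fin n → Bool}
    {v : Arc n m → Bool} (hv : C.IsVal b v) (hκ : ∀ i, κ (Sum.inl i) = b2r (b i)) {J : ℝ}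
    (hJ : Drifts C J) (e : Arc n m) :
    |x e - b2r (v e)| ≤ p * J + m * |c0| / 2 := by
  obtain ⟨y, hy⟩ := exists_sol C 0 κ c0
  have h1 := sol_drift le_rfl hp hy h hJ e
  have h2 := sol_lip le_rfl (sol_bool hv) hy (r := 0) (fun i => by
    have := hv.source i
    rw [hκ, this]
    simp) e
  have h3 : x e - b2r (v e) = (x e - y e) + (y e - b2r (v e)) := by ring
  rw [h3]
  refine (abs_add_le _ _).trans ?_
  rw [sub_zero] at h1 h2
  linarith

end Pool.Agent.LibCC89
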